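import Mathlib

/-!
# Counting: products of differences which are not squares in a finite field
-/

set_option autoImplicit false
set_option linter.all false

namespace Run7.h870.TE

open Finset
open scoped Classical

noncomputable section

section sum

variable {F : Type} [Field F] [Fintype F]

/-- the correlation of the quadratic character -/
theorem chi_corr (h2 : ringChar F ≠ 2) (b b' : F) :
    ∑ x : F, quadraticChar F (x - b) * quadraticChar F (x - b') =
      (if b = b' then (Fintype.card F : ℤ) else 0) - 1 := by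
  by_cases hb : b = b'
  · subst hb
    rw [if_pos rfl]
    have h1 : ∀ x : F, quadraticChar F (x - b) * quadraticChar F (x - b) =
        1 - if x = b then 1 else 0 := by
      intro x
      by_cases hx : x = b
      · rw [hx, sub_self, MulChar.map_zero, if_pos rfl]
        norm_num
      · rw [if_neg hx, ← sq, quadraticChar_sq_one (sub_ne_zero.2 hx)]
        norm_num
    rw [Finset.sum_congr rfl fun x _ => h1 x, Finset.sum_sub_distrib, Finset.sum_ite_eq' univ b]
    simp
  · rw [if_neg hb]
    have hc : b' - b ≠ 0 := sub_ne_zero.2 (Ne.symm hb)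
    have hne : quadraticChar F ≠ 1 := quadraticChar_ne_one h2
    have h1 : ∑ x : F, quadraticChar F (x - b) * quadraticChar F (x - b') =
        ∑ y : F, quadraticChar F ((b' - b) * y) * quadraticChar F ((b' - b) * (y - 1)) := by
      let e : F ≃ F := (Equiv.mulLeft₀ (b' - b) hc).trans (Equiv.addRight b)
      rw [← Equiv.sum_comp e]
      refine Finset.sum_congr rfl fun y _ => ?_
      have e1 : e y = (b' - b) * y + b := rfl
      rw [e1]
      congr 2 <;> ring
    have h3 : ∀ y : F, quadraticChar F ((b' - b) * y) * quadraticChar F ((b' - b) * (y - 1)) =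
        quadraticChar F (-1) * (quadraticChar F y * quadraticChar F (1 - y)) := by
      intro y
      have e1 : (b' - b) * (y - 1) = (b' - b) * (-1 * (1 - y)) := by ring
      rw [e1, map_mul, map_mul, map_mul]
      have e2 := quadraticChar_sq_one (F := F) hc
      linear_combination (quadraticChar F y * quadraticChar F (-1) * quadraticChar F (1 - y)) * e2
    have h4 : ∑ y : F, quadraticChar F y * quadraticChar F (1 - y) = - quadraticChar F (-1) := by
      have h5 := jacobiSum_nontrivial_inv hne
      have h6 : (quadraticChar F)⁻¹ = quadraticChar F := by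
        rw [inv_eq_iff_mul_eq_one]
        ext x
        rw [MulChar.mul_apply, MulChar.one_apply_coe, ← sq, quadraticChar_sq_one x.ne_zero]
      rw [h6] at h5
      exact h5
    rw [h1, Finset.sum_congr rfl fun y _ => h3 y, ← Finset.mul_sum, h4]
    have h7 := quadraticChar_sq_one (F := F) (a := -1) (neg_ne_zero.2 one_ne_zero)
    linear_combination -h7

theorem chi_sq_le (x : F) : quadraticChar F x ^ 2 ≤ 1 := by
  by_cases h : x = 0
  · rw [h, MulChar.map_zero]; norm_num
  · rw [quadraticChar_sq_one h]

/-- the bilinear bound -/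
theorem bilin (h2 : ringChar F ≠ 2) (r s : F → ℤ) (hr : ∀ x, r x ^ 2 ≤ 1) (hs : ∀ x, s x ^ 2 ≤ 1) :
    (∑ x : F, ∑ b : F, r x * quadraticChar F (x - b) * s b) ^ 2 ≤ (Fintype.card F : ℤ) ^ 3 := by
  have h1 : ∑ x : F, ∑ b : F, r x * quadraticChar F (x - b) * s b =
      ∑ x : F, r x * ∑ b : F, quadraticChar F (x - b) * s b := by
    refine Finset.sum_congr rfl fun x _ => ?_
    rw [Finset.mul_sum]
    exact Finset.sum_congr rfl fun b _ => by ring
  rw [h1]
  refine (Finset.sum_mul_sq_le_sq_mul_sq univ r _).trans ?_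
  have h3 : ∑ x : F, r x ^ 2 ≤ (Fintype.card F : ℤ) := by
    calc ∑ x : F, r x ^ 2 ≤ ∑ x : F, (1 : ℤ) := Finset.sum_le_sum fun x _ => hr x
      _ = _ := by simp
  have h3' : ∑ x : F, s x ^ 2 ≤ (Fintype.card F : ℤ) := by
    calc ∑ x : F, s x ^ 2 ≤ ∑ x : F, (1 : ℤ) := Finset.sum_le_sum fun x _ => hs x
      _ = _ := by simp
  have h4 : ∑ x : F, (∑ b : F, quadraticChar F (x - b) * s b) ^ 2 =
      (Fintype.card F : ℤ) * ∑ b : F, s b ^ 2 - (∑ b : F, s b) ^ 2 := by
    have h5 : ∀ x : F, (∑ b : F, quadraticChar F (x - b) * s b) ^ 2 =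
        ∑ b : F, ∑ b' : F, (quadraticChar F (x - b) * quadraticChar F (x - b')) * (s b * s b') := by
      intro x
      rw [sq, Finset.sum_mul_sum]
      exact Finset.sum_congr rfl fun b _ => Finset.sum_congr rfl fun b' _ => by ring
    rw [Finset.sum_congr rfl fun x _ => h5 x, Finset.sum_comm]
    have h6 : ∀ b : F, ∑ x : F, ∑ b' : F,
        (quadraticChar F (x - b) * quadraticChar F (x - b')) * (s b * s b') =
        (Fintype.card F : ℤ) * s b ^ 2 - s b * ∑ b' : F, s b' := by
      intro b
      rw [Finset.sum_comm]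
      have h7 : ∀ b' : F, ∑ x : F, (quadraticChar F (x - b) * quadraticChar F (x - b')) *
          (s b * s b') = (if b = b' then (Fintype.card F : ℤ) * s b ^ 2 else 0) - s b * s b' := by
        intro b'
        rw [← Finset.sum_mul, chi_corr h2]
        split_ifs with h
        · rw [h]; ring
        · ring
      rw [Finset.sum_congr rfl fun b' _ => h7 b', Finset.sum_sub_distrib, Finset.sum_ite_eq,
        if_pos (Finset.mem_univ _), Finset.mul_sum]
    rw [Finset.sum_congr rfl fun b _ => h6 b, Finset.sum_sub_distrib, ← Finset.mul_sum,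
      ← Finset.sum_mul, sq (∑ b : F, s b)]
  have hq : (0 : ℤ) ≤ Fintype.card F := Int.natCast_nonneg _
  have h8 : ∑ x : F, (∑ b : F, quadraticChar F (x - b) * s b) ^ 2 ≤ (Fintype.card F : ℤ) ^ 2 := by
    rw [h4]
    nlinarith [sq_nonneg (∑ b : F, s b)]
  calc (∑ x : F, r x ^ 2) * ∑ x : F, (∑ b : F, quadraticChar F (x - b) * s b) ^ 2
      ≤ (Fintype.card F : ℤ) * (Fintype.card F : ℤ) ^ 2 :=
        mul_le_mul h3 h8 (Finset.sum_nonneg fun x _ => sq_nonneg _) hq
    _ = _ := by ring

end sum

section upd

variable {F : Type} [Fintype F] {n : ℕ}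

/-- averaging over one coordinate -/
theorem sum_update {A : Type} [AddCommMonoid A] (f : (Fin n → F) → A) (i : Fin n) :
    ∑ a : Fin n → F, ∑ x : F, f (Function.update a i x) = Fintype.card F • ∑ a : Fin n → F, f a := by
  have h1 : ∑ a : Fin n → F, ∑ x : F, f (Function.update a i x) =
      ∑ z : (Fin n → F) × F, f (Function.update z.1 i z.2) :=
    (Fintype.sum_prod_type' (fun a x => f (Function.update a i x))).symm
  have h3 : Fintype.card F • ∑ a : Fin n → F, f a = ∑ z : (Fin n → F) × F, f z.1 := by
    rw [Fintype.sum_prod_type, Finset.sum_congr rfl fun a _ => Finset.sum_const (f a),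
      Finset.smul_sum]
    rfl
  let e : (Fin n → F) × F ≃ (Fin n → F) × F :=
    { toFun := fun z => (Function.update z.1 i z.2, z.1 i)
      invFun := fun z => (Function.update z.1 i z.2, z.1 i)
      left_inv := fun z => by
        refine Prod.ext ?_ ?_
        · show Function.update (Function.update z.1 i z.2) i (z.1 i) = z.1
          rw [Function.update_idem, Function.update_eq_self]
        · show Function.update z.1 i z.2 i = z.2
          rw [Function.update_self]
      right_inv := fun z => by
        refine Prod.ext ?_ ?_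
        · show Function.update (Function.update z.1 i z.2) i (z.1 i) = z.1
          rw [Function.update_idem, Function.update_eq_self]
        · show Function.update z.1 i z.2 i = z.2
          rw [Function.update_self] }
  rw [h1, h3]
  exact Equiv.sum_comp e (fun z => f z.1)

end upd

section count

variable {F : Type} [Field F] [Fintype F] {n : ℕ}

/-- the product of the differences -/
def pd {R : Type} [CommRing R] {n : ℕ} (P : Finset {p : Fin n × Fin n // p.1 < p.2})
    (a : Fin n → R) : R := ∏ p ∈ P, (a p.1.1 - a p.1.2)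

/-- the sum over one fibre -/
theorem fibre (h2 : ringChar F ≠ 2) {P : Finset {p : Fin n × Fin n // p.1 < p.2}}
    {p : {p : Fin n × Fin n // p.1 < p.2}} (hp : p ∈ P) (u : F) (a : Fin n → F) :
    (∑ x : F, ∑ b : F, quadraticChar F
      (u * pd P (Function.update (Function.update a p.1.1 x) p.1.2 b))) ^ 2 ≤
        (Fintype.card F : ℤ) ^ 3 := by
  obtain ⟨i, hi⟩ : ∃ i, i = p.1.1 := ⟨_, rfl⟩
  obtain ⟨j, hj⟩ : ∃ j, j = p.1.2 := ⟨_, rfl⟩
  have hij : i ≠ j := by rw [hi, hj]; exact p.2.ne
  obtain ⟨A, hA⟩ : ∃ A, A = (P.erase p).filter (fun q => j ≠ q.1.1 ∧ j ≠ q.1.2) := ⟨_, rfl⟩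
  obtain ⟨B, hB⟩ : ∃ B, B = (P.erase p).filter (fun q => ¬ (j ≠ q.1.1 ∧ j ≠ q.1.2)) := ⟨_, rfl⟩
  have hfac : ∀ x b : F, quadraticChar F (u * pd P (Function.update (Function.update a i x) j b)) =
      quadraticChar F (u * ∏ q ∈ A, (Function.update a i x q.1.1 - Function.update a i x q.1.2)) *
        quadraticChar F (x - b) *
        quadraticChar F (∏ q ∈ B, (Function.update a j b q.1.1 - Function.update a j b q.1.2)) := by
    intro x b
    have e1 : pd P (Function.update (Function.update a i x) j b) =
        (x - b) * ((∏ q ∈ A, (Function.update a i x q.1.1 - Function.update a i x q.1.2)) *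
          ∏ q ∈ B, (Function.update a j b q.1.1 - Function.update a j b q.1.2)) := by
      unfold pd
      rw [← Finset.mul_prod_erase P _ hp, ← hi, ← hj, Function.update_self,
        Function.update_of_ne hij, Function.update_self]
      congr 1
      rw [← Finset.prod_filter_mul_prod_filter_not (P.erase p)
        (fun q => j ≠ q.1.1 ∧ j ≠ q.1.2), ← hA, ← hB]
      congr 1
      · refine Finset.prod_congr rfl fun q hq => ?_
        rw [hA, Finset.mem_filter] at hq
        rw [Function.update_of_ne (Ne.symm hq.2.1), Function.update_of_ne (Ne.symm hq.2.2)]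
      · refine Finset.prod_congr rfl fun q hq => ?_
        rw [hB, Finset.mem_filter, Finset.mem_erase] at hq
        obtain ⟨⟨hqp, hqP⟩, hq2⟩ := hq
        have hlt := q.2
        have hplt := p.2
        have hne : ¬ (q.1.1 = i ∧ q.1.2 = j) := by
          rintro ⟨h1, h3⟩
          apply hqp
          apply Subtype.ext
          exact Prod.ext (h1.trans hi) (h3.trans hj)
        have hiq : i ≠ q.1.1 ∧ i ≠ q.1.2 := by
          by_cases h1 : j = q.1.1
          · rw [← hi, ← hj] at hplt
            rw [← h1] at hlt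
            exact ⟨by rw [← h1]; exact hij, (hplt.trans hlt).ne⟩
          · have h3 : j = q.1.2 := by
              by_contra h3
              exact hq2 ⟨h1, h3⟩
            refine ⟨fun h4 => hne ⟨h4.symm, h3.symm⟩, ?_⟩
            rw [← h3]
            exact hij
        rw [Function.update_comm hij, Function.update_of_ne (Ne.symm hiq.1),
          Function.update_of_ne (Ne.symm hiq.2)]
    rw [e1, ← map_mul, ← map_mul]
    congr 1
    ring
  rw [← hi, ← hj, Finset.sum_congr rfl fun x _ => Finset.sum_congr rfl fun b _ => hfac x b]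
  exact bilin h2 _ _ (fun x => chi_sq_le _) (fun x => chi_sq_le _)

/-- the tuples with two equal coordinates -/
theorem card_eq_pair {i j : Fin n} (hij : i ≠ j) :
    Fintype.card F * (univ.filter fun a : Fin n → F => a i = a j).card =
      Fintype.card F ^ n := by
  have h1 := sum_update (F := F) (A := ℕ) (fun a : Fin n → F => if a i = a j then 1 else 0) i
  rw [← Finset.card_filter, smul_eq_mul] at h1
  rw [← h1]
  have h3 : ∀ a : Fin n → F, ∑ x : F, (if Function.update a i x i = Function.update a i x j then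
      1 else 0) = 1 := by
    intro a
    rw [Finset.sum_congr rfl fun x _ => by
      rw [Function.update_self, Function.update_of_ne (Ne.symm hij)]]
    rw [Finset.sum_ite_eq' univ (a j), if_pos (Finset.mem_univ _)]
  rw [Finset.sum_congr rfl fun a _ => h3 a]
  simp

theorem card_zero (P : Finset {p : Fin n × Fin n // p.1 < p.2}) :
    Fintype.card F * (univ.filter fun a : Fin n → F => pd P a = 0).card ≤
      n ^ 2 * Fintype.card F ^ n := by
  have h1 : (univ.filter fun a : Fin n → F => pd P a = 0) ⊆
      P.biUnion fun p => univ.filter fun a : Fin n → F => a p.1.1 = a p.1.2 := by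
    intro a ha
    rw [Finset.mem_filter] at ha
    obtain ⟨p, hp, h3⟩ := Finset.prod_eq_zero_iff.1 ha.2
    rw [Finset.mem_biUnion]
    exact ⟨p, hp, Finset.mem_filter.2 ⟨Finset.mem_univ _, sub_eq_zero.1 h3⟩⟩
  calc Fintype.card F * (univ.filter fun a : Fin n → F => pd P a = 0).card
      ≤ Fintype.card F * ∑ p ∈ P, (univ.filter fun a : Fin n → F => a p.1.1 = a p.1.2).card :=
        Nat.mul_le_mul_left _ ((Finset.card_le_card h1).trans Finset.card_biUnion_le)
    _ = ∑ p ∈ P, Fintype.card F ^ n := by
        rw [Finset.mul_sum]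
        exact Finset.sum_congr rfl fun p _ => card_eq_pair p.2.ne
    _ = P.card * Fintype.card F ^ n := by rw [Finset.sum_const, smul_eq_mul]
    _ ≤ _ := by
        apply Nat.mul_le_mul_right
        have h3 : P.card ≤ Fintype.card {p : Fin n × Fin n // p.1 < p.2} := Finset.card_le_univ P
        have h4 : Fintype.card {p : Fin n × Fin n // p.1 < p.2} ≤ Fintype.card (Fin n × Fin n) :=
          Fintype.card_subtype_le _
        rw [Fintype.card_prod, Fintype.card_fin, ← sq] at h4
        exact h3.trans h4

/-- **the count** -/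
theorem count (h2 : ringChar F ≠ 2) (hq : 16 * n ^ 2 + 16 ≤ Fintype.card F)
    {P : Finset {p : Fin n × Fin n // p.1 < p.2}} (hP : P.Nonempty) (u : F) (hu : u ≠ 0) :
    (1 / 4 : ℝ) * (Fintype.card F : ℝ) ^ n ≤
      ((univ.filter fun a : Fin n → F => ¬ IsSquare (u * pd P a)).card : ℝ) := by
  obtain ⟨p, hp⟩ := hP
  obtain ⟨q, hqd⟩ : ∃ q : ℝ, q = Fintype.card F := ⟨_, rfl⟩
  have hq1 : (16 : ℝ) * n ^ 2 + 16 ≤ q := by rw [hqd]; exact_mod_cast hq
  have hq0 : 0 < q := by nlinarith [sq_nonneg (n : ℝ)]
  obtain ⟨g, hg⟩ : ∃ g : (Fin n → F) → ℤ, g = fun a => quadraticChar F (u * pd P a) := ⟨_, rfl⟩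
  -- the sum of all values
  have hsum : q ^ 2 * |((∑ a : Fin n → F, g a : ℤ) : ℝ)| ≤ q ^ n * Real.sqrt (q ^ 3) := by
    have h1 := sum_update (F := F) (A := ℤ) g p.1.1
    have h3 := sum_update (F := F) (A := ℤ)
      (fun a => ∑ x : F, g (Function.update (Function.update a p.1.1 x) p.1.2 x)) p.1.1
    have h4 : ∑ a : Fin n → F, ∑ x : F, ∑ b : F,
        g (Function.update (Function.update a p.1.1 x) p.1.2 b) =
        (Fintype.card F : ℤ) * ((Fintype.card F : ℤ) * ∑ a : Fin n → F, g a) := by
      have e1 := sum_update (F := F) (A := ℤ)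
        (fun a => ∑ b : F, g (Function.update a p.1.2 b)) p.1.1
      have e2 := sum_update (F := F) (A := ℤ) g p.1.2
      rw [e1, e2, nsmul_eq_mul, nsmul_eq_mul]
    have h5 : ∀ a : Fin n → F, |((∑ x : F, ∑ b : F,
        g (Function.update (Function.update a p.1.1 x) p.1.2 b) : ℤ) : ℝ)| ≤
        Real.sqrt (q ^ 3) := by
      intro a
      apply Real.abs_le_sqrt
      have h6 := fibre h2 hp u a
      rw [hg, hqd]
      exact_mod_cast h6
    have h7 : q ^ 2 * ((∑ a : Fin n → F, g a : ℤ) : ℝ) = ∑ a : Fin n → F,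
        ((∑ x : F, ∑ b : F, g (Function.update (Function.update a p.1.1 x) p.1.2 b) : ℤ) : ℝ) := by
      rw [← Int.cast_sum, h4, hqd]
      push_cast
      ring
    have h8 : q ^ 2 * |((∑ a : Fin n → F, g a : ℤ) : ℝ)| =
        |q ^ 2 * ((∑ a : Fin n → F, g a : ℤ) : ℝ)| := by
      rw [abs_mul, abs_of_pos (pow_pos hq0 2)]
    rw [h8, h7]
    refine (Finset.abs_sum_le_sum_abs _ _).trans ((Finset.sum_le_sum fun a _ => h5 a).trans ?_)
    rw [Finset.sum_const, Finset.card_univ, Fintype.card_fun, Fintype.card_fin, nsmul_eq_mul, hqd]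
    push_cast
    exact le_refl _
  have hsq : Real.sqrt (q ^ 3) ≤ q ^ 2 / 4 := by
    rw [Real.sqrt_le_left (by positivity)]
    have h16 : 16 ≤ q := by nlinarith [sq_nonneg (n : ℝ)]
    have : q ^ 3 * 16 ≤ q ^ 3 * q := mul_le_mul_of_nonneg_left h16 (by positivity)
    nlinarith
  have hsum' : |((∑ a : Fin n → F, g a : ℤ) : ℝ)| ≤ q ^ n / 4 := by
    have h1 : q ^ n * Real.sqrt (q ^ 3) ≤ q ^ n * (q ^ 2 / 4) :=
      mul_le_mul_of_nonneg_left hsq (by positivity)
    have h3 : q ^ 2 * |((∑ a : Fin n → F, g a : ℤ) : ℝ)| ≤ q ^ 2 * (q ^ n / 4) := by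
      refine hsum.trans (h1.trans (le_of_eq ?_))
      ring
    exact le_of_mul_le_mul_left h3 (by positivity)
  -- the zeros
  have hz : ((univ.filter fun a : Fin n → F => pd P a = 0).card : ℝ) ≤ q ^ n / 16 := by
    have h1 : q * ((univ.filter fun a : Fin n → F => pd P a = 0).card : ℝ) ≤ n ^ 2 * q ^ n := by
      rw [hqd]; exact_mod_cast card_zero (F := F) P
    have h3 : (n : ℝ) ^ 2 * q ^ n ≤ q / 16 * q ^ n :=
      mul_le_mul_of_nonneg_right (by linarith) (by positivity)
    have h4 : q * ((univ.filter fun a : Fin n → F => pd P a = 0).card : ℝ) ≤ q * (q ^ n / 16) := by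
      refine h1.trans (h3.trans (le_of_eq ?_))
      ring
    exact le_of_mul_le_mul_left h4 hq0
  -- the values
  have hval : ∀ a : Fin n → F, (1 : ℤ) ≤ g a + 2 * (if ¬ IsSquare (u * pd P a) then 1 else 0) +
      (if pd P a = 0 then 1 else 0) := by
    intro a
    rw [hg]
    show (1 : ℤ) ≤ quadraticChar F (u * pd P a) + 2 * (if ¬ IsSquare (u * pd P a) then 1 else 0) +
      (if pd P a = 0 then 1 else 0)
    by_cases h0 : pd P a = 0
    · rw [if_pos h0, h0, mul_zero, MulChar.map_zero, if_neg (not_not.2 (IsSquare.zero))]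
      norm_num
    · have h1 : u * pd P a ≠ 0 := mul_ne_zero hu h0
      rw [if_neg h0]
      by_cases h3 : IsSquare (u * pd P a)
      · rw [if_neg (not_not.2 h3), (quadraticChar_one_iff_isSquare h1).2 h3]
        norm_num
      · rw [if_pos h3, (quadraticChar_neg_one_iff_not_isSquare).2 h3]
        norm_num
  have hall : (q : ℝ) ^ n ≤ ((∑ a : Fin n → F, g a : ℤ) : ℝ) +
      2 * ((univ.filter fun a : Fin n → F => ¬ IsSquare (u * pd P a)).card : ℝ) +
      ((univ.filter fun a : Fin n → F => pd P a = 0).card : ℝ) := by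
    have h1 : ∑ a : Fin n → F, (1 : ℤ) ≤ ∑ a : Fin n → F, (g a +
        2 * (if ¬ IsSquare (u * pd P a) then 1 else 0) + (if pd P a = 0 then 1 else 0)) :=
      Finset.sum_le_sum fun a _ => hval a
    rw [Finset.sum_add_distrib, Finset.sum_add_distrib, ← Finset.mul_sum, Finset.sum_boole,
      Finset.sum_boole, Finset.sum_const, Finset.card_univ, Fintype.card_fun, Fintype.card_fin,
      nsmul_eq_mul, mul_one] at h1
    rw [hqd]
    exact_mod_cast h1
  have h9 := abs_le.1 hsum'
  rw [← hqd]
  have h10 : 0 < q ^ n := by positivity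
  linarith [h9.1, h9.2]

end count

end

end Run7.h870.TE
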