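import Pool.Agent.N197.Htj.Lim
import Pool.Agent.Run7.h870.TE.Cnt

/-!
# Square classes which become trivial in the field `L (ζ_8, lattice modulo 4)`, and the sieve
-/

set_option autoImplicit false
set_option linter.all false

namespace Run7.h870.TE

open Polynomial Filter Topology
open Pool.Agent.X243.Gen (tendsto_of_dens densityU Zc Zc_inf)
open Pool.Agent.N197.Htj (classes_finite fixed_mem exists_M diag countable_units exists_UR sep_root)
open scoped Classical

noncomputable section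

section cls

variable {k L F : Type} [Field k] [Field L] [Field F] [Algebra k L] [Algebra L F] [Algebra k F]
  [IsScalarTower k L F] [IsAlgClosure L F]

/-- The classes which become trivial in the extension defined by a set `H` of automorphisms which
contains all quotients of automorphisms with the same value of `θ`. -/
theorem classes_T (h2 : (2 : F) ≠ 0) {U : Finset kˣ}
    (hU : ∀ c : kˣ, (∃ r : L, r ^ 2 = algebraMap k L c) → ∃ u ∈ U, IsSquare (c * u))
    (H : (F ≃ₐ[L] F) → Prop) {X : Type} [Finite X] (θ : (F ≃ₐ[L] F) → X)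
    (hθ : ∀ s s', θ s = θ s' → H (s⁻¹ * s')) :
    ∃ V : Finset kˣ, ∀ c : kˣ,
      (∀ δ : F, δ ^ 2 = algebraMap k F c → ∀ s, H s → s δ = δ) →
        ∃ u ∈ V, IsSquare (c * u) := by
  haveI : IsAlgClosed F := IsAlgClosure.isAlgClosed L
  refine classes_finite (X := X → Prop) _
    (fun c A => ∃ s : F ≃ₐ[L] F, θ s = A ∧
      ∀ δ : F, δ ^ 2 = algebraMap k F c → s δ = δ) U ?_
  intro c c' hP hP' hΦ
  obtain ⟨δ, hδ⟩ := IsAlgClosed.exists_pow_nat_eq (algebraMap k F c) (n := 2) two_pos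
  obtain ⟨δ', hδ'⟩ := IsAlgClosed.exists_pow_nat_eq (algebraMap k F c') (n := 2) two_pos
  have hs : ∀ (σ : F ≃ₐ[L] F) (c : kˣ) (δ : F), δ ^ 2 = algebraMap k F c → σ δ = δ ∨ σ δ = -δ := by
    intro σ c δ h
    apply sq_eq_sq_iff_eq_or_eq_neg.1
    rw [← map_pow, h, IsScalarTower.algebraMap_apply k L F, σ.commutes]
  have hfix : ∀ (σ : F ≃ₐ[L] F) (c : kˣ) (δ : F), δ ^ 2 = algebraMap k F c →
      ((∀ δ : F, δ ^ 2 = algebraMap k F c → σ δ = δ) ↔ σ δ = δ) := by
    intro σ c δ h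
    refine ⟨fun h1 => h1 δ h, fun h1 δ' h2 => ?_⟩
    rw [← h] at h2
    rcases sq_eq_sq_iff_eq_or_eq_neg.1 h2 with h3 | h3
    · rw [h3, h1]
    · rw [h3, map_neg, h1]
  have hstep : ∀ (c c' : kˣ) (δ δ' : F), δ ^ 2 = algebraMap k F c → δ' ^ 2 = algebraMap k F c' →
      (∀ δ : F, δ ^ 2 = algebraMap k F c' → ∀ s, H s → s δ = δ) →
      ((fun A => ∃ s : F ≃ₐ[L] F, θ s = A ∧
        ∀ δ : F, δ ^ 2 = algebraMap k F c → s δ = δ) =
       (fun A => ∃ s : F ≃ₐ[L] F, θ s = A ∧
        ∀ δ : F, δ ^ 2 = algebraMap k F c' → s δ = δ)) →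
      ∀ s : F ≃ₐ[L] F, s δ = δ → s δ' = δ' := by
    intro c c' δ δ' h h' hP' hΦ s h3
    have h4 := congrFun hΦ (θ s)
    simp only [eq_iff_iff] at h4
    obtain ⟨s', h5, h6⟩ := h4.1 ⟨s, rfl, (hfix s c δ h).2 h3⟩
    have h7 : H (s⁻¹ * s') := hθ s s' h5.symm
    have h8 := hP' δ' h' _ h7
    have h9 := congrArg s h8
    rw [AlgEquiv.mul_apply] at h9
    have h10 : s (s⁻¹ (s' δ')) = s' δ' := s.apply_symm_apply _
    rw [h10, h6 δ' h'] at h9
    exact h9.symm
  have hc0 : δ ≠ 0 := by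
    rintro rfl
    rw [zero_pow two_ne_zero] at hδ
    exact c.ne_zero ((map_eq_zero _).1 hδ.symm)
  have hc0' : δ' ≠ 0 := by
    rintro rfl
    rw [zero_pow two_ne_zero] at hδ'
    exact c'.ne_zero ((map_eq_zero _).1 hδ'.symm)
  have hprod : (δ * δ') ^ 2 = algebraMap L F (algebraMap k L (c * c' : k)) := by
    rw [← IsScalarTower.algebraMap_apply, map_mul, mul_pow, hδ, hδ']
  obtain ⟨r, hr⟩ := fixed_mem (L := L) h2 (mul_ne_zero hc0 hc0') hprod (fun s => by
    rw [map_mul]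
    by_cases h3 : s δ = δ
    · rw [h3, hstep c c' δ δ' hδ hδ' hP' hΦ s h3]
    · have h4 : s δ' ≠ δ' := fun h5 => h3 (hstep c' c δ' δ hδ' hδ hP hΦ.symm s h5)
      rw [(hs s c δ hδ).resolve_left h3, (hs s c' δ' hδ').resolve_left h4, neg_mul_neg])
  apply hU (c * c')
  refine ⟨r, ?_⟩
  apply (algebraMap L F).injective
  rw [map_pow, hr, hprod]
  rfl

/-- The classes which become trivial in a finite extension `L` of `k` and, more generally, in the extension
`L (ζ_8, lattice modulo 4)`. -/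
theorem classes_four [FiniteDimensional k (separableClosure k L)] (h2 : (2 : k) ≠ 0)
    {d : ℕ} (t : (F ≃ₐ[L] F) →* Matrix (Fin d) (Fin d) ℤ_[2]) :
    ∃ V : Finset kˣ, ∀ c : kˣ,
      (∀ δ : F, δ ^ 2 = algebraMap k F c → ∀ s : F ≃ₐ[L] F, (∀ x : F, x ^ 8 = 1 → s x = x) →
        (t s).map (PadicInt.toZModPow (p := 2) 2) = 1 → s δ = δ) →
        ∃ u ∈ V, IsSquare (c * u) := by
  obtain ⟨U, M, hM1, hM2, hM3⟩ := exists_M (k := k) (L := L) (F := F)
  have h2F : (2 : F) ≠ 0 := by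
    rw [← map_ofNat (algebraMap k F) 2]
    exact (map_ne_zero_iff _ (algebraMap k F).injective).2 h2
  haveI hfin : Finite {x : F // x ^ 8 = 1} := by
    have h1 : ((X ^ 8 - 1 : F[X]).rootSet F).Finite := Polynomial.rootSet_finite _ _
    refine Finite.of_injective (β := (X ^ 8 - 1 : F[X]).rootSet F)
      (fun x => ⟨x.1, ?_⟩) ?_
    · rw [Polynomial.mem_rootSet]
      refine ⟨?_, ?_⟩
      · exact (Polynomial.monic_X_pow_sub_C (1 : F) (by norm_num : (8 : ℕ) ≠ 0)).ne_zero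
      · rw [map_sub, map_pow, aeval_X, map_one, x.2, sub_self]
    · intro x y hxy
      exact Subtype.ext (congrArg (fun z => (z.1 : F)) hxy)
  obtain ⟨V, hV⟩ := classes_T (k := k) (L := L) (F := F) h2F (U := U) (fun c hc => by
    obtain ⟨r, hr⟩ := hc
    refine hM3 c ⟨algebraMap L F r, hM2 r ?_, ?_⟩
    · have hsep : (X ^ 2 - C (c : k) : k[X]).Separable :=
        separable_X_pow_sub_C _ (by exact_mod_cast h2) c.ne_zero
      exact sep_root hsep (by rw [map_sub, map_pow, aeval_X, aeval_C, hr, sub_self])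
    · rw [← map_pow, hr, ← IsScalarTower.algebraMap_apply])
    (fun s => (∀ x : F, x ^ 8 = 1 → s x = x) ∧ (t s).map (PadicInt.toZModPow (p := 2) 2) = 1)
    (X := Matrix (Fin d) (Fin d) (ZMod (2 ^ 2)) × ({x : F // x ^ 8 = 1} → {x : F // x ^ 8 = 1}))
    (fun s => ((t s).map (PadicInt.toZModPow (p := 2) 2), fun x => ⟨s x.1, by
      rw [← map_pow, x.2, map_one]⟩)) (fun s s' h => by
      have h3 := congrArg Prod.fst h
      have h4 := congrArg Prod.snd h
      dsimp only at h3 h4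
      refine ⟨fun x hx => ?_, ?_⟩
      · have h5 := congrArg Subtype.val (congrFun h4 ⟨x, hx⟩)
        dsimp only at h5
        show s⁻¹ (s' x) = x
        rw [← h5]
        exact s.symm_apply_apply x
      · have e1 : ∀ A B : Matrix (Fin d) (Fin d) ℤ_[2],
            (A * B).map (PadicInt.toZModPow (p := 2) 2) =
            A.map (PadicInt.toZModPow (p := 2) 2) * B.map (PadicInt.toZModPow (p := 2) 2) :=
          fun A B => (PadicInt.toZModPow (p := 2) 2).mapMatrix.map_mul A B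
        rw [map_mul, e1, ← h3, ← e1, ← map_mul, inv_mul_cancel, map_one]
        exact (PadicInt.toZModPow (p := 2) 2).mapMatrix.map_one)
  exact ⟨V, fun c hc => hV c fun δ hδ s hs => hc δ hδ s hs.1 hs.2⟩

end cls

section sieve

/-- The tuples such that no product of differences, times an element of `U`, is a square modulo all
large primes. -/
def Dt {R : Type} [CommRing R] {n : ℕ} (U : Finset R) (a : Fin n → R) : Prop :=
  ∀ P : Finset {p : Fin n × Fin n // p.1 < p.2}, P.Nonempty → ∀ u ∈ U,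
    ∃ p ∈ Zc R (16 * n ^ 2 + 16) (∏ u ∈ U, u), ¬ IsSquare (Ideal.Quotient.mk p (u * pd P a))

theorem pd_map {R R' : Type} [CommRing R] [CommRing R'] (g : R →+* R') {n : ℕ}
    (P : Finset {p : Fin n × Fin n // p.1 < p.2}) (a : Fin n → R) :
    g (pd P a) = pd P (fun i => g (a i)) := by
  unfold pd
  rw [map_prod]
  exact Finset.prod_congr rfl fun p _ => map_sub g _ _

theorem dens_Dt (R : Type) [CommRing R] [IsDomain R] [Algebra.FiniteType ℤ R] (hR : ¬ IsField R)
    (h2 : (2 : R) ≠ 0) (n : ℕ) (U : Finset R) (hU : ∀ u ∈ U, u ≠ 0) (η : ℝ) (hη : 0 < η) :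
    ∃ M : Ideal R, Finite (R ⧸ M) ∧
      (1 - η) * (Nat.card (R ⧸ M) : ℝ) ^ (Fintype.card (Fin n)) ≤
      (({x : Fin n → R ⧸ M | ∀ y : Fin n → R,
        (∀ j, Ideal.Quotient.mk M (y j) = x j) → Dt U y}).ncard : ℝ) := by
  have hc : ∏ u ∈ U, u ≠ 0 := Finset.prod_ne_zero_iff.2 hU
  obtain ⟨M, hM, h⟩ := densityU (R := R) (Fin n)
    ({P : Finset {p : Fin n × Fin n // p.1 < p.2} // P.Nonempty} × U)
    (Zc R (16 * n ^ 2 + 16) (∏ u ∈ U, u)) (Zc_inf R hR h2 _ hc) (fun p hp => hp.1.1)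
    (fun p hp => hp.1.2.1) (c := 1 / 4) (by norm_num) η hη
  refine ⟨M, hM, (h (fun s p => {x | ¬ IsSquare (Ideal.Quotient.mk p (s.2 : R) * pd s.1.1 x)})
    ?_).trans ?_⟩
  · intro s p hp
    haveI := hp.1.1
    haveI : p.IsPrime := hp.1.1.isPrime
    letI : Field (R ⧸ p) := Ideal.Quotient.field p
    haveI : Finite (R ⧸ p) := hp.1.2.1
    letI : Fintype (R ⧸ p) := Fintype.ofFinite _
    have hch : ringChar (R ⧸ p) ≠ 2 := by
      intro h1
      apply hp.1.2.2.2
      have h3 : ((ringChar (R ⧸ p) : ℕ) : R ⧸ p) = 0 := ringChar.Nat.cast_ringChar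
      rw [h1] at h3
      rw [← Ideal.Quotient.eq_zero_iff_mem, map_ofNat]
      exact_mod_cast h3
    have hu : Ideal.Quotient.mk p (s.2 : R) ≠ 0 := by
      intro h1
      apply hp.2
      rw [Ideal.Quotient.eq_zero_iff_mem] at h1
      exact Ideal.mem_of_dvd p (Finset.dvd_prod_of_mem _ s.2.2) h1
    have h1 := count (F := R ⧸ p) (n := n) hch (by
      rw [← Nat.card_eq_fintype_card]; exact hp.1.2.2.1) s.1.2 _ hu
    rw [Set.ncard_eq_toFinset_card', Nat.card_eq_fintype_card, Fintype.card_fin]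
    refine h1.trans (le_of_eq ?_)
    congr 2
    ext x
    simp
  · have hsub : {x : Fin n → R ⧸ M |
        ∀ s : {P : Finset {p : Fin n × Fin n // p.1 < p.2} // P.Nonempty} × U,
        ∃ p ∈ Zc R (16 * n ^ 2 + 16) (∏ u ∈ U, u), ∀ y : Fin n → R,
          (∀ j, Ideal.Quotient.mk M (y j) = x j) →
          (fun j => Ideal.Quotient.mk p (y j)) ∈
            {x | ¬ IsSquare (Ideal.Quotient.mk p (s.2 : R) * pd s.1.1 x)}} ⊆
        {x : Fin n → R ⧸ M | ∀ y : Fin n → R,
          (∀ j, Ideal.Quotient.mk M (y j) = x j) → Dt U y} := by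
      intro x hx y hy P hP u hu
      obtain ⟨p, hp, h4⟩ := hx (⟨P, hP⟩, ⟨u, hu⟩)
      refine ⟨p, hp, ?_⟩
      have h5 := h4 y hy
      rw [Set.mem_setOf_eq] at h5
      rw [map_mul, pd_map]
      exact h5
    exact_mod_cast Set.ncard_le_ncard hsub (Set.toFinite _)

theorem Dt_inj {R : Type} [CommRing R] {n : ℕ} {U : Finset R} {a : Fin n → R}
    (h : Dt U a) {u : R} (hu : u ∈ U) : Function.Injective a := by
  have key : ∀ i j : Fin n, i < j → a i ≠ a j := by
    intro i j hij he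
    obtain ⟨p, -, hp⟩ := h {⟨(i, j), hij⟩} (Finset.singleton_nonempty _) u hu
    apply hp
    have h1 : pd {(⟨(i, j), hij⟩ : {p : Fin n × Fin n // p.1 < p.2})} a = 0 := by
      unfold pd
      rw [Finset.prod_singleton]
      exact sub_eq_zero.2 he
    rw [h1, mul_zero, map_zero]
    exact IsSquare.zero
  intro i j hij
  by_contra hne
  rcases lt_or_gt_of_ne hne with h1 | h1
  · exact key i j h1 hij
  · exact key j i h1 hij.symm

theorem Dt_not_square {R k : Type} [CommRing R] [IsDomain R] [IsIntegrallyClosed R] [Field k]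
    [Algebra R k] [IsFractionRing R k] {n : ℕ} {U : Finset R} {a : Fin n → R} (h : Dt U a)
    {P : Finset {p : Fin n × Fin n // p.1 < p.2}} (hP : P.Nonempty) {u : R} (hu : u ∈ U) :
    ¬ IsSquare (algebraMap R k (u * pd P a)) := by
  rintro ⟨r, hr⟩
  have h1 : IsIntegral R (r ^ 2) := by
    rw [sq, ← hr]
    exact isIntegral_algebraMap
  have h3 : IsIntegral R r := IsIntegral.of_pow two_pos h1
  obtain ⟨r', rfl⟩ := IsIntegrallyClosed.isIntegral_iff.1 h3
  obtain ⟨p, -, hp⟩ := h P hP u hu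
  apply hp
  refine ⟨Ideal.Quotient.mk p r', ?_⟩
  rw [← map_mul]
  congr 1
  apply IsFractionRing.injective R k
  rw [hr, map_mul]

end sieve

end

end Run7.h870.TE
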