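import Mathlib
import Pool.Agent.N171.TG.Tn7
import Pool.Agent.N171.LW2

/-!
# Lie lattices in products of symplectic Lie algebras over the 2-adic integers

`G` is a saturated Lie sublattice of `(∏ i, End (T i)) × A` whose components are symplectic, and it
contains simultaneous reflections modulo two, with even values.  Then `G` contains all the products of
the symplectic Lie algebras, with the value zero.
-/

set_option linter.unusedSectionVars false
set_option autoImplicit false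

namespace Run7.h870.TE

open PadicInt Module Pool.Agent.N171 Pool.Agent.N171.Al Pool.Agent.N171.Bg Pool.Agent.N171.TG

noncomputable section

/-! ### closed and saturated submodules -/

section closed

variable {M : Type*} [AddCommGroup M] [Module ℤ_[2] M] [Module.Finite ℤ_[2] M]

/-- Submodules of finitely generated modules are closed. -/
theorem mem_of_near (N : Submodule ℤ_[2] M) {v : M}
    (h : ∀ b : ℕ, ∃ W : M, v + (2 : ℤ_[2]) ^ b • W ∈ N) : v ∈ N := by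
  have h1 : (Ideal.span {(2 : ℤ_[2])} : Ideal ℤ_[2]) ≠ ⊤ := by
    rw [Ne, Ideal.span_singleton_eq_top, isUnit_iff_toZModPow, not_not, map_ofNat]
    rfl
  have h2 := Ideal.iInf_pow_smul_eq_bot_of_isLocalRing (M := M ⧸ N)
    (Ideal.span {(2 : ℤ_[2])} : Ideal ℤ_[2]) h1
  have h3 : N.mkQ v ∈ (⨅ i : ℕ, (Ideal.span {(2 : ℤ_[2])} : Ideal ℤ_[2]) ^ i •
      (⊤ : Submodule ℤ_[2] (M ⧸ N))) := by
    rw [Submodule.mem_iInf]
    intro b
    obtain ⟨W, hW⟩ := h b
    have h4 : N.mkQ v = (2 : ℤ_[2]) ^ b • N.mkQ (-W) := by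
      rw [← map_smul, ← sub_eq_zero, ← map_sub]
      change Submodule.Quotient.mk (p := N) _ = 0
      rw [Submodule.Quotient.mk_eq_zero]
      convert! hW using 1
      module
    rw [h4]
    refine Submodule.smul_mem_smul ?_ Submodule.mem_top
    rw [Ideal.span_singleton_pow]
    exact Ideal.mem_span_singleton_self _
  rw [h2, Submodule.mem_bot] at h3
  have h5 : Submodule.Quotient.mk (p := N) v = 0 := h3
  rwa [Submodule.Quotient.mk_eq_zero] at h5

theorem unit_pow {c : ℤ_[2]} (hc : c ≠ 0) : ∃ (u : ℤ_[2]ˣ) (m : ℕ), c = (u : ℤ_[2]) * 2 ^ m := by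
  refine ⟨unitCoeff hc, c.valuation, ?_⟩
  have h := unitCoeff_spec hc
  exact_mod_cast h

theorem sat_pow {N : Submodule ℤ_[2] M} (hs : ∀ x, (2 : ℤ_[2]) • x ∈ N → x ∈ N) (m : ℕ) {x : M}
    (h : (2 : ℤ_[2]) ^ m • x ∈ N) : x ∈ N := by
  induction m with
  | zero => rwa [pow_zero, one_smul] at h
  | succ m ih =>
    rw [pow_succ', mul_smul] at h
    exact ih (hs _ h)

theorem sat_smul {N : Submodule ℤ_[2] M} (hs : ∀ x, (2 : ℤ_[2]) • x ∈ N → x ∈ N) {c : ℤ_[2]}
    (hc : c ≠ 0) {x : M} (h : c • x ∈ N) : x ∈ N := by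
  obtain ⟨u, m, rfl⟩ := unit_pow hc
  refine sat_pow hs m ?_
  have h1 := N.smul_mem ((u⁻¹ : ℤ_[2]ˣ) : ℤ_[2]) h
  rwa [mul_smul, smul_smul, Units.inv_mul, one_smul] at h1

end closed

/-! ### one lattice -/

section one

variable {T : Type*} [AddCommGroup T] [Module ℤ_[2] T] [Module.Finite ℤ_[2] T]
  [Module.Free ℤ_[2] T] {B : T →ₗ[ℤ_[2]] T →ₗ[ℤ_[2]] ℤ_[2]}
  (halt : ∀ x, B x x = 0) (hnd : ∀ v, (∀ w, ¬ IsUnit (B v w)) → ∃ u, (2 : ℤ_[2]) • u = v)

/-- The symplectic Lie algebra. -/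
abbrev sp (B : T →ₗ[ℤ_[2]] T →ₗ[ℤ_[2]] ℤ_[2]) : Submodule ℤ_[2] (Module.End ℤ_[2] T) :=
  spQ B (p1 T)

theorem mem_sp {X : Module.End ℤ_[2] T} : X ∈ sp B ↔ ∀ x y, B (X x) y + B x (X y) = 0 :=
  ⟨fun h => h.1, fun h => ⟨h, fun _ _ => rfl⟩⟩

include halt in
theorem E_sp (u : T) : Eo B u u ∈ sp B :=
  Eo_spQ B halt (p1 T) (fun _ _ => rfl) (fun _ _ _ h => absurd rfl h) (fun _ _ _ => rfl) () u

theorem sp_bracket {X Y : Module.End ℤ_[2] T} (hX : X ∈ sp B) (hY : Y ∈ sp B) :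
    X * Y - Y * X ∈ sp B := spQ_bracket B (p1 T) hX hY

include halt in
theorem so_E (u w : T) : so B u w = Eo B (u + w) (u + w) - Eo B u u - Eo B w w := by
  rw [Eo_add]
  abel

include halt hnd in
/-- The symplectic Lie algebra is generated by the operators of rank one. -/
theorem sp_le {S : Submodule ℤ_[2] (Module.End ℤ_[2] T)} (hE : ∀ u, Eo B u u ∈ S) : sp B ≤ S := by
  let n := Fintype.card (Module.Free.ChooseBasisIndex ℤ_[2] T)
  let b₀ : Module.Basis (Fin n) ℤ_[2] T :=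
    (Module.Free.chooseBasis ℤ_[2] T).reindex (Fintype.equivFin _)
  refine spQ_le B hnd (p1 T) halt (fun x => by simp) (fun _ _ => rfl) (fun _ _ _ => rfl) b₀ S
    (fun _ u => hE u) (fun _ u w => ?_)
  change so B u w ∈ S
  rw [so_E halt]
  exact S.sub_mem (S.sub_mem (hE _) (hE _)) (hE _)

include halt hnd in
/-- Nakayama's lemma: it is enough to have the operators for the vectors with a unit pairing. -/
theorem sp_le_of_unit {S : Submodule ℤ_[2] (Module.End ℤ_[2] T)} (hS : S ≤ sp B)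
    (hE : ∀ u, (∃ w, IsUnit (B u w)) → Eo B u u ∈ nn S) : sp B ≤ S := by
  refine nakayama_sp B (p1 T) hS (sp_le halt hnd fun u => ?_)
  by_cases hu : ∃ w, IsUnit (B u w)
  · exact hE u hu
  · obtain ⟨y, hy⟩ := hnd u (fun w hw => hu ⟨w, hw⟩)
    rw [← hy, Eo_smul, mul_smul]
    exact ⟨0, S.zero_mem, _, by rw [zero_add]⟩

include halt hnd in
/-- The form does not vanish. -/
theorem exists_B_ne {X : Module.End ℤ_[2] T} (hX : X ≠ 0) : ∃ u m, B u m ≠ 0 := by
  by_contra h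
  push Not at h
  apply hX
  let n := Fintype.card (Module.Free.ChooseBasisIndex ℤ_[2] T)
  let b₀ : Module.Basis (Fin n) ℤ_[2] T :=
    (Module.Free.chooseBasis ℤ_[2] T).reindex (Fintype.equivFin _)
  ext x
  rw [LinearMap.zero_apply]
  exact (exists_dual B hnd b₀).2 _ fun j => h _ _

include halt hnd in
theorem eq_zero_of_B {x : T} (h : ∀ y, B x y = 0) : x = 0 := by
  let n := Fintype.card (Module.Free.ChooseBasisIndex ℤ_[2] T)
  let b₀ : Module.Basis (Fin n) ℤ_[2] T :=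
    (Module.Free.chooseBasis ℤ_[2] T).reindex (Fintype.equivFin _)
  exact (exists_dual B hnd b₀).2 _ fun j => h _

include halt hnd in
/-- A symplectic operator which is not zero has a vector with `B (a, X a) ≠ 0`. -/
theorem exists_a {X : Module.End ℤ_[2] T} (hX : X ∈ sp B) (h0 : X ≠ 0) : ∃ a, B a (X a) ≠ 0 := by
  by_contra h
  push Not at h
  apply h0
  ext x
  rw [LinearMap.zero_apply]
  refine eq_zero_of_B halt hnd fun y => ?_
  have h1 := h (x + y)
  simp only [map_add, LinearMap.add_apply, h, zero_add, add_zero] at h1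
  have h2 := mem_sp.1 hX x y
  have h3 := B_anti B halt (X x) y
  have h4 : (2 : ℤ_[2]) * B (X x) y = 0 := by linear_combination h2 + h3 - h1
  exact (mul_eq_zero.1 h4).resolve_left (by norm_num)

include halt hnd in
/-- **Ideals.** A saturated submodule which is stable under the brackets with the symplectic Lie algebra
and not zero is everything. -/
theorem ideal_sp {S : Submodule ℤ_[2] (Module.End ℤ_[2] T)} (hS : S ≤ sp B)
    (hs : ∀ x, (2 : ℤ_[2]) • x ∈ S → x ∈ S)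
    (hbr : ∀ X ∈ S, ∀ Y ∈ sp B, X * Y - Y * X ∈ S) {X : Module.End ℤ_[2] T} (hX : X ∈ S)
    (h0 : X ≠ 0) : sp B ≤ S := by
  have hc : ∀ X ∈ sp B, ∀ y, X * Eo B y y - Eo B y y * X = so B (X y) y := by
    intro X hX y
    ext x
    simp only [LinearMap.sub_apply, Module.End.mul_apply, Eo_apply, so_apply, map_smul]
    have h1 := mem_sp.1 hX y x
    rw [eq_neg_of_add_eq_zero_right h1]
    module
  have hbr' : ∀ X ∈ S, ∀ y, so B (X y) y ∈ S := by
    intro X hX y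
    rw [← hc X (hS hX) y]
    exact hbr X hX _ (E_sp halt y)
  obtain ⟨a, ha⟩ := exists_a halt hnd (hS hX) h0
  set b := X a with hb
  have h1 : so B b a ∈ S := hbr' X hX a
  have h2 : Eo B b b ∈ S := by
    have h3 := hbr' _ h1 b
    rw [so_apply, halt, zero_smul, zero_add, so_smul_left, so_self, smul_smul] at h3
    exact sat_smul hs (mul_ne_zero ha (by norm_num)) h3
  have h3 : ∀ w, B b w ≠ 0 → Eo B w w ∈ S := by
    intro w hbw
    have h4 := hbr' _ h2 w
    rw [Eo_apply, so_smul_left] at h4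
    have h5 : so B b w ∈ S := sat_smul hs hbw h4
    have h7 := hbr' _ h5 w
    rw [so_apply, halt, zero_smul, add_zero, so_smul_left, so_self, smul_smul] at h7
    exact sat_smul hs (mul_ne_zero hbw (by norm_num)) h7
  have hba : B b a ≠ 0 := by
    rw [B_anti B halt]
    exact neg_ne_zero.2 ha
  refine sp_le halt hnd fun w => ?_
  by_cases hbw : B b w = 0
  · have e1 := h3 (w + a) (by rw [map_add, hbw, zero_add]; exact hba)
    have e2 := h3 (w - a) (by rw [map_sub, hbw, zero_sub]; exact neg_ne_zero.2 hba)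
    have e3 := h3 a hba
    have e4 : Eo B (w + a) (w + a) + Eo B (w - a) (w - a) - (2 : ℤ_[2]) • Eo B a a =
        (2 : ℤ_[2]) • Eo B w w := by
      ext x
      simp only [LinearMap.sub_apply, LinearMap.add_apply, LinearMap.smul_apply, Eo_apply, map_add,
        map_sub]
      module
    refine hs _ ?_
    rw [← e4]
    exact S.sub_mem (S.add_mem e1 e2) (S.smul_mem 2 e3)
  · exact h3 w hbw

variable {A : Type*} [Ring A] [Algebra ℤ_[2] A] [Module.Finite ℤ_[2] A]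

/-- The symplectic operators with values divisible by `2 ^ b`. -/
def Pb (B : T →ₗ[ℤ_[2]] T →ₗ[ℤ_[2]] ℤ_[2]) (N : Submodule ℤ_[2] (Module.End ℤ_[2] T × A))
    (b : ℕ) : Submodule ℤ_[2] (Module.End ℤ_[2] T) where
  carrier := {X | X ∈ sp B ∧ ∃ Y, (X, (2 : ℤ_[2]) ^ b • Y) ∈ N}
  zero_mem' := ⟨Submodule.zero_mem _, 0, by rw [smul_zero]; exact N.zero_mem⟩
  add_mem' := by
    rintro X X' ⟨h, Y, hY⟩ ⟨h', Y', hY'⟩
    refine ⟨Submodule.add_mem _ h h', Y + Y', ?_⟩
    rw [smul_add, ← Prod.mk_add_mk]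
    exact N.add_mem hY hY'
  smul_mem' := by
    rintro c X ⟨h, Y, hY⟩
    refine ⟨Submodule.smul_mem _ c h, c • Y, ?_⟩
    rw [smul_comm, ← Prod.smul_mk]
    exact N.smul_mem c hY

variable {N : Submodule ℤ_[2] (Module.End ℤ_[2] T × A)}
  (hbr : ∀ x ∈ N, ∀ y ∈ N, x * y - y * x ∈ N) (hs : ∀ x, (2 : ℤ_[2]) • x ∈ N → x ∈ N)

include hbr in
theorem N_br {X X' : Module.End ℤ_[2] T} {Y Y' : A} (h : (X, Y) ∈ N) (h' : (X', Y') ∈ N) :
    (X * X' - X' * X, Y * Y' - Y' * Y) ∈ N := by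
  have h1 := hbr _ h _ h'
  rwa [Prod.mk_mul_mk, Prod.mk_mul_mk, Prod.mk_sub_mk] at h1

include halt hnd hbr hs in
/-- The bootstrapping step. -/
theorem Pb_succ {b : ℕ} (hb : 1 ≤ b) (h : sp B ≤ Pb B N b) : sp B ≤ Pb B N (b + 1) := by
  refine sp_le_of_unit halt hnd (fun X hX => hX.1) fun x hx => ?_
  obtain ⟨w, c, hc⟩ := hx
  set m := ((c⁻¹ : ℤ_[2]ˣ) : ℤ_[2]) • w with hm
  have hxm : B x m = 1 := by
    rw [hm, map_smul, ← hc, smul_eq_mul, Units.inv_mul]
  obtain ⟨-, Y, hY⟩ := h (E_sp halt x)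
  obtain ⟨-, Y', hY'⟩ := h (E_sp halt m)
  have h3 := N_br hbr hY hY'
  rw [bracket_Eo B halt, hxm, one_smul] at h3
  have h4 := N_br hbr hY h3
  rw [bracket_so B halt, hxm, one_smul, halt, zero_smul, add_zero, so_self] at h4
  obtain ⟨k, rfl⟩ : ∃ k, b = k + 1 := ⟨b - 1, by omega⟩
  have h5 : (2 : ℤ_[2]) ^ (k + 1) • Y * ((2 : ℤ_[2]) ^ (k + 1) • Y * (2 : ℤ_[2]) ^ (k + 1) • Y' -
      (2 : ℤ_[2]) ^ (k + 1) • Y' * (2 : ℤ_[2]) ^ (k + 1) • Y) -
      ((2 : ℤ_[2]) ^ (k + 1) • Y * (2 : ℤ_[2]) ^ (k + 1) • Y' -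
      (2 : ℤ_[2]) ^ (k + 1) • Y' * (2 : ℤ_[2]) ^ (k + 1) • Y) * (2 : ℤ_[2]) ^ (k + 1) • Y =
      (2 : ℤ_[2]) • ((2 : ℤ_[2]) ^ (k + 1 + 1) • ((2 : ℤ_[2]) ^ (2 * k) •
        (Y * (Y * Y' - Y' * Y) - (Y * Y' - Y' * Y) * Y))) := by
    simp only [smul_mul_assoc, mul_smul_comm, mul_sub, sub_mul, smul_sub, smul_smul]
    have e1 : (2 : ℤ_[2]) ^ (k + 1) * (2 ^ (k + 1) * 2 ^ (k + 1)) =
        2 * (2 ^ (k + 1 + 1) * 2 ^ (2 * k)) := by ring
    simp only [e1, mul_assoc]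
  rw [h5, ← Prod.smul_mk] at h4
  exact ⟨Eo B x x, ⟨E_sp halt x, _, hs _ h4⟩, 0, by rw [smul_zero, add_zero]⟩

include halt hnd hbr hs in
/-- **The values vanish.** -/
theorem values_zero (h : ∀ X ∈ sp B, ∃ Y, (X, (2 : ℤ_[2]) • Y) ∈ N) {X : Module.End ℤ_[2] T}
    (hX : X ∈ sp B) : (X, 0) ∈ N := by
  have key : ∀ b, sp B ≤ Pb B N (b + 1) := by
    intro b
    induction b with
    | zero =>
      intro X hX
      obtain ⟨Y, hY⟩ := h X hX
      exact ⟨hX, Y, by rwa [zero_add, pow_one]⟩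
    | succ b ih => exact Pb_succ halt hnd hbr hs (Nat.succ_pos b) ih
  refine mem_of_near N fun b => ?_
  obtain ⟨-, Y, hY⟩ := key b hX
  refine ⟨(0, (2 : ℤ_[2]) • Y), ?_⟩
  rw [Prod.smul_mk, Prod.mk_add_mk, smul_zero, add_zero, zero_add, smul_smul, ← pow_succ]
  exact hY

end one

end

end Run7.h870.TE
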