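import Mathlib
import Pool.Agent.Run7.h870.TE.Lie

/-!
# Simultaneous reflections generate the product of the symplectic Lie algebras
-/

set_option linter.unusedSectionVars false
set_option autoImplicit false

namespace Run7.h870.TE

open PadicInt Module Pool.Agent.N171 Pool.Agent.N171.Al Pool.Agent.N171.Bg Pool.Agent.N171.TG

noncomputable section

variable {ι : Type*} [Fintype ι] [DecidableEq ι] {T : ι → Type*} [∀ i, AddCommGroup (T i)]
  [∀ i, Module ℤ_[2] (T i)] [∀ i, Module.Finite ℤ_[2] (T i)] [∀ i, Module.Free ℤ_[2] (T i)]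
  (B : ∀ i, T i →ₗ[ℤ_[2]] T i →ₗ[ℤ_[2]] ℤ_[2])
  {A : Type*} [Ring A] [Algebra ℤ_[2] A]

/-- A saturated Lie lattice with symplectic components. -/
structure LieLat (G : Submodule ℤ_[2] ((∀ i, Module.End ℤ_[2] (T i)) × A)) : Prop where
  sp : ∀ x ∈ G, ∀ i, x.1 i ∈ sp (B i)
  br : ∀ x ∈ G, ∀ y ∈ G, x * y - y * x ∈ G
  sat : ∀ x, (2 : ℤ_[2]) • x ∈ G → x ∈ G

variable {B} {G : Submodule ℤ_[2] ((∀ i, Module.End ℤ_[2] (T i)) × A)} (hG : LieLat B G)
  (halt : ∀ i x, B i x x = 0)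
  (hnd : ∀ i v, (∀ w, ¬ IsUnit (B i v w)) → ∃ u, (2 : ℤ_[2]) • u = v)

/-! ### ideals -/

/-- The operators whose multiple by a power of two is a component of an element. -/
def Cm (J : Submodule ℤ_[2] ((∀ i, Module.End ℤ_[2] (T i)) × A)) (i : ι) :
    Submodule ℤ_[2] (Module.End ℤ_[2] (T i)) where
  carrier := {X | ∃ k : ℕ, ∃ x ∈ J, x.1 i = (2 : ℤ_[2]) ^ k • X}
  zero_mem' := ⟨0, 0, J.zero_mem, by rw [smul_zero]; rfl⟩
  add_mem' := by
    rintro X Y ⟨k, x, hx, h⟩ ⟨l, y, hy, h'⟩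
    refine ⟨k + l, (2 : ℤ_[2]) ^ l • x + (2 : ℤ_[2]) ^ k • y,
      J.add_mem (J.smul_mem _ hx) (J.smul_mem _ hy), ?_⟩
    change (2 : ℤ_[2]) ^ l • x.1 i + (2 : ℤ_[2]) ^ k • y.1 i = _
    rw [h, h', smul_add, smul_smul, smul_smul, ← pow_add, ← pow_add, add_comm l k]
  smul_mem' := by
    rintro c X ⟨k, x, hx, h⟩
    refine ⟨k, c • x, J.smul_mem c hx, ?_⟩
    change c • x.1 i = _
    rw [h, smul_comm]

include hG halt hnd in
/-- The components of an ideal with a nonzero component. -/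
theorem ideal_comp {J : Submodule ℤ_[2] ((∀ i, Module.End ℤ_[2] (T i)) × A)} (hJ : J ≤ G)
    (hbr : ∀ x ∈ J, ∀ y ∈ G, x * y - y * x ∈ J) {i : ι}
    (hall : ∀ X ∈ sp (B i), ∃ x ∈ G, x.1 i = X) {x : (∀ i, Module.End ℤ_[2] (T i)) × A}
    (hx : x ∈ J) (h0 : x.1 i ≠ 0) : sp (B i) ≤ Cm J i := by
  have key : sp (B i) ≤ Cm J i ⊓ sp (B i) := by
    refine ideal_sp (halt i) (hnd i) (S := Cm J i ⊓ sp (B i)) inf_le_right ?_ ?_
      (X := x.1 i) ⟨⟨0, x, hx, by rw [pow_zero, one_smul]⟩, hG.sp x (hJ hx) i⟩ h0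
    · rintro X ⟨⟨k, y, hy, h⟩, hX⟩
      refine ⟨⟨k + 1, y, hy, by rw [h, pow_succ, mul_smul]⟩, ?_⟩
      exact sp_cancel 1 (by rw [pow_one]; exact hX)
    · rintro X ⟨⟨k, y, hy, h⟩, hX⟩ Y hY
      obtain ⟨z, hz, rfl⟩ := hall Y hY
      refine ⟨⟨k, y * z - z * y, hbr y hy z hz, ?_⟩, sp_bracket hX hY⟩
      change y.1 i * z.1 i - z.1 i * y.1 i = _
      rw [h, smul_mul_assoc, mul_smul_comm, smul_sub]
  exact key.trans inf_le_left

include hG halt hnd in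
/-- The intersection of two ideals with nonzero components. -/
theorem ideal_inf {J J' : Submodule ℤ_[2] ((∀ i, Module.End ℤ_[2] (T i)) × A)} (hJ : J ≤ G)
    (hJ' : J' ≤ G)
    (hbr : ∀ x ∈ J, ∀ y ∈ G, x * y - y * x ∈ J) (hbr' : ∀ x ∈ J', ∀ y ∈ G, x * y - y * x ∈ J')
    {i : ι} (hall : ∀ X ∈ sp (B i), ∃ x ∈ G, x.1 i = X)
    {x : (∀ i, Module.End ℤ_[2] (T i)) × A} (hx : x ∈ J) (h0 : x.1 i ≠ 0)
    {x' : (∀ i, Module.End ℤ_[2] (T i)) × A} (hx' : x' ∈ J') (h0' : x'.1 i ≠ 0) :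
    ∃ y ∈ J ⊓ J', y.1 i ≠ 0 := by
  obtain ⟨u, m, hum⟩ := exists_B_ne (halt i) (hnd i) h0
  obtain ⟨k, y, hy, h⟩ := ideal_comp hG halt hnd hJ hbr hall hx h0 (E_sp (halt i) u)
  obtain ⟨l, y', hy', h'⟩ := ideal_comp hG halt hnd hJ' hbr' hall hx' h0' (E_sp (halt i) m)
  refine ⟨y * y' - y' * y, ⟨hbr y hy y' (hJ' hy'), ?_⟩, ?_⟩
  · have h1 := J'.neg_mem (hbr' y' hy' y (hJ hy))
    rwa [neg_sub] at h1
  · change y.1 i * y'.1 i - y'.1 i * y.1 i ≠ 0
    rw [h, h', smul_mul_smul_comm, smul_mul_smul_comm, mul_comm ((2 : ℤ_[2]) ^ l), ← smul_sub,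
      bracket_Eo (B i) (halt i), smul_smul]
    intro h1
    have h2 := congrArg (fun f => B i (f u) m) h1
    simp only [LinearMap.smul_apply, so_apply, halt, zero_smul, zero_add, map_smul, smul_eq_mul,
      LinearMap.zero_apply, map_zero] at h2
    have h3 : B i m u ≠ 0 := by
      rw [B_anti (B i) (halt i)]
      exact neg_ne_zero.2 hum
    have h4 : (2 : ℤ_[2]) ^ k * 2 ^ l ≠ 0 :=
      mul_ne_zero (pow_ne_zero _ (by norm_num)) (pow_ne_zero _ (by norm_num))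
    exact (mul_ne_zero (mul_ne_zero h4 hum) (mul_ne_zero h3 hum)) h2

/-- The elements of `G` whose components in `R` vanish. -/
def JR (G : Submodule ℤ_[2] ((∀ i, Module.End ℤ_[2] (T i)) × A)) (R : Finset ι) :
    Submodule ℤ_[2] ((∀ i, Module.End ℤ_[2] (T i)) × A) where
  carrier := {x | x ∈ G ∧ ∀ r ∈ R, x.1 r = 0}
  zero_mem' := ⟨G.zero_mem, fun _ _ => rfl⟩
  add_mem' := by
    rintro x y ⟨h1, h2⟩ ⟨h3, h4⟩
    refine ⟨G.add_mem h1 h3, fun r hr => ?_⟩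
    change x.1 r + y.1 r = 0
    rw [h2 r hr, h4 r hr, add_zero]
  smul_mem' := by
    rintro c x ⟨h1, h2⟩
    refine ⟨G.smul_mem c h1, fun r hr => ?_⟩
    change c • x.1 r = 0
    rw [h2 r hr, smul_zero]

/-- The elements of `G` with the value zero. -/
def Jt (G : Submodule ℤ_[2] ((∀ i, Module.End ℤ_[2] (T i)) × A)) :
    Submodule ℤ_[2] ((∀ i, Module.End ℤ_[2] (T i)) × A) where
  carrier := {x | x ∈ G ∧ x.2 = 0}
  zero_mem' := ⟨G.zero_mem, rfl⟩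
  add_mem' := by
    rintro x y ⟨h1, h2⟩ ⟨h3, h4⟩
    refine ⟨G.add_mem h1 h3, ?_⟩
    change x.2 + y.2 = 0
    rw [h2, h4, add_zero]
  smul_mem' := by
    rintro c x ⟨h1, h2⟩
    refine ⟨G.smul_mem c h1, ?_⟩
    change c • x.2 = 0
    rw [h2, smul_zero]

include hG in
theorem JR_br (R : Finset ι) : ∀ x ∈ JR G R, ∀ y ∈ G, x * y - y * x ∈ JR G R := by
  rintro x ⟨hx, h⟩ y hy
  refine ⟨hG.br x hx y hy, fun r hr => ?_⟩
  change x.1 r * y.1 r - y.1 r * x.1 r = 0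
  rw [h r hr, zero_mul, mul_zero, sub_zero]

include hG in
theorem Jt_br : ∀ x ∈ Jt G, ∀ y ∈ G, x * y - y * x ∈ Jt G := by
  rintro x ⟨hx, h⟩ y hy
  refine ⟨hG.br x hx y hy, ?_⟩
  change x.2 * y.2 - y.2 * x.2 = 0
  rw [h, zero_mul, mul_zero, sub_zero]

include hG halt hnd in
/-- **Goursat's lemma.** -/
theorem goursat_all (hall : ∀ i, ∀ X ∈ sp (B i), ∃ x ∈ G, x.1 i = X)
    (hval : ∀ i, ∀ X ∈ sp (B i), ∃ k : ℕ, ∃ x ∈ G, x.1 i = (2 : ℤ_[2]) ^ k • X ∧ x.2 = 0)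
    (hsep : ∀ i j, i ≠ j → sp (B i) ≠ ⊥ → ∃ x ∈ G, x.1 j = 0 ∧ x.1 i ≠ 0)
    (i : ι) {X : Module.End ℤ_[2] (T i)} (hX : X ∈ sp (B i)) : (Pi.single i X, 0) ∈ G := by
  by_cases h0 : X = 0
  · rw [h0, Pi.single_zero]
    exact G.zero_mem
  have hb : sp (B i) ≠ ⊥ := by
    intro h
    rw [h, Submodule.mem_bot] at hX
    exact h0 hX
  have key : ∀ R : Finset ι, i ∉ R → ∃ x ∈ JR G R, x.1 i ≠ 0 := by
    intro R
    induction R using Finset.induction_on with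
    | empty =>
      intro _
      obtain ⟨x, hx, h⟩ := hall i X hX
      exact ⟨x, ⟨hx, fun r hr => absurd hr (Finset.notMem_empty r)⟩, by rwa [h]⟩
    | insert s R hs ih =>
      intro hi
      rw [Finset.mem_insert, not_or] at hi
      obtain ⟨x, hx, hx0⟩ := ih hi.2
      obtain ⟨y, hy, hys, hy0⟩ := hsep i s hi.1 hb
      obtain ⟨z, ⟨hz, hz'⟩, hz0⟩ := ideal_inf hG halt hnd (J := JR G R) (J' := JR G {s})
        (fun x hx => hx.1) (fun x hx => hx.1) (JR_br hG R) (JR_br hG {s}) (hall i) hx hx0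
        (x' := y) ⟨hy, fun r hr => by rw [Finset.mem_singleton.1 hr]; exact hys⟩ hy0
      refine ⟨z, ⟨hz.1, fun r hr => ?_⟩, hz0⟩
      rcases Finset.mem_insert.1 hr with rfl | hr
      · exact hz'.2 r (Finset.mem_singleton_self r)
      · exact hz.2 r hr
  obtain ⟨x, hx, hx0⟩ := key (Finset.univ.erase i) (Finset.notMem_erase i _)
  obtain ⟨k, y, hy, hyi, hyt⟩ := hval i X hX
  have hy0 : y.1 i ≠ 0 := by
    rw [hyi]
    intro h
    apply h0
    ext v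
    have h1 := congrArg (fun f => f v) h
    simp only [LinearMap.smul_apply, LinearMap.zero_apply] at h1
    rw [LinearMap.zero_apply]
    have h2 : ∀ k : ℕ, (2 : ℤ_[2]) ^ k • X v = 0 → X v = 0 := by
      intro k
      induction k with
      | zero => intro h; rwa [pow_zero, one_smul] at h
      | succ k ih =>
        intro h
        rw [pow_succ', mul_smul] at h
        exact ih (two_smul_cancel h)
    exact h2 k h1
  obtain ⟨z, hz, hz0⟩ := ideal_inf hG halt hnd (J := JR G (Finset.univ.erase i)) (J' := Jt G)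
    (fun x hx => hx.1) (fun x hx => hx.1) (JR_br hG _) (Jt_br hG) (hall i) hx hx0
    (x' := y) ⟨hy, hyt⟩ hy0
  have hle : JR G (Finset.univ.erase i) ⊓ Jt G ≤ G := fun x hx => hx.1.1
  obtain ⟨l, v, hv, hvi⟩ := ideal_comp hG halt hnd hle (fun x hx y hy =>
    ⟨JR_br hG _ x hx.1 y hy, Jt_br hG x hx.2 y hy⟩) (hall i) hz hz0 hX
  have h1 : v = (2 : ℤ_[2]) ^ l • ((Pi.single i X, 0) : (∀ i, Module.End ℤ_[2] (T i)) × A) := by
    refine Prod.ext (funext fun j => ?_) ?_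
    · by_cases hj : j = i
      · subst hj
        change v.1 j = (2 : ℤ_[2]) ^ l • (Pi.single j X : ∀ i, Module.End ℤ_[2] (T i)) j
        rw [hvi, Pi.single_eq_same]
      · change v.1 j = (2 : ℤ_[2]) ^ l • (Pi.single i X : ∀ i, Module.End ℤ_[2] (T i)) j
        rw [Pi.single_eq_of_ne hj, smul_zero]
        exact hv.1.2 j (Finset.mem_erase.2 ⟨hj, Finset.mem_univ j⟩)
    · change v.2 = (2 : ℤ_[2]) ^ l • (0 : A)
      rw [smul_zero]
      exact hv.2.2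
  have h2 : v ∈ G := hle hv
  rw [h1] at h2
  have h3 : ∀ l : ℕ, (2 : ℤ_[2]) ^ l • ((Pi.single i X, 0) : (∀ i, Module.End ℤ_[2] (T i)) × A)
      ∈ G → ((Pi.single i X, 0) : (∀ i, Module.End ℤ_[2] (T i)) × A) ∈ G := by
    intro l
    induction l with
    | zero => intro h; rwa [pow_zero, one_smul] at h
    | succ l ih =>
      intro h
      rw [pow_succ', mul_smul] at h
      exact ih (hG.sat _ h)
  exact h3 l h2

/-! ### reflections -/

variable {Λ : Type*} (w : Λ → ∀ i, T i) (P : ι → Λ → Prop)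
  (hrefl : ∀ l, ∃ x ∈ G, (∀ i, ∃ Z, x.1 i = Eo (B i) (w l i) (w l i) + (2 : ℤ_[2]) • Z) ∧
    ∃ Y, x.2 = (2 : ℤ_[2]) • Y)
  (hconn : ∀ i l l', P i l → P i l' → Relation.ReflTransGen
    (fun l l' => P i l ∧ P i l' ∧ IsUnit (B i (w l i) (w l' i))) l l')
  (hspan : ∀ i x, x ∈ Submodule.span ℤ_[2]
    ({x | ∃ l, P i l ∧ w l i = x} ∪ {x : T i | ∃ y, (2 : ℤ_[2]) • y = x}))
  (hsp : ∀ i j, i ≠ j → (∀ x : T i, x = 0) ∨
      (∃ l, (¬ ∃ u, (2 : ℤ_[2]) • u = w l i) ∧ ∃ u, (2 : ℤ_[2]) • u = w l j) ∨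
      (∃ l, (¬ ∃ u, (2 : ℤ_[2]) • u = w l j) ∧ ∃ u, (2 : ℤ_[2]) • u = w l i))

/-- The components of the elements with even values. -/
def Ev (G : Submodule ℤ_[2] ((∀ i, Module.End ℤ_[2] (T i)) × A)) (i : ι) :
    Submodule ℤ_[2] (Module.End ℤ_[2] (T i)) where
  carrier := {X | ∃ x ∈ G, x.1 i = X ∧ ∃ Y, x.2 = (2 : ℤ_[2]) • Y}
  zero_mem' := ⟨0, G.zero_mem, rfl, 0, by rw [smul_zero]; rfl⟩
  add_mem' := by
    rintro X Y ⟨x, hx, rfl, Z, hZ⟩ ⟨y, hy, rfl, Z', hZ'⟩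
    refine ⟨x + y, G.add_mem hx hy, rfl, Z + Z', ?_⟩
    change x.2 + y.2 = _
    rw [hZ, hZ', smul_add]
  smul_mem' := by
    rintro c X ⟨x, hx, rfl, Z, hZ⟩
    refine ⟨c • x, G.smul_mem c hx, rfl, c • Z, ?_⟩
    change c • x.2 = _
    rw [hZ, smul_comm]

include hG halt hnd hrefl hconn hspan in
/-- All symplectic operators are components of elements with even values. -/
theorem even_all (i : ι) : sp (B i) ≤ Ev G i := by
  classical
  have hle : Ev G i ≤ sp (B i) := by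
    rintro X ⟨x, hx, rfl, -⟩
    exact hG.sp x hx i
  have h2 : ∀ X, (2 : ℤ_[2]) • X ∈ nn (Ev G i) := fun X =>
    ⟨0, Submodule.zero_mem _, X, by rw [zero_add]⟩
  have hbr : ∀ X ∈ nn (Ev G i), ∀ Y ∈ nn (Ev G i), X * Y - Y * X ∈ nn (Ev G i) := by
    rintro _ ⟨X, ⟨x, hx, rfl, U, hU⟩, Z, rfl⟩ _ ⟨X', ⟨x', hx', rfl, U', hU'⟩, Z', rfl⟩
    refine ⟨x.1 i * x'.1 i - x'.1 i * x.1 i, ⟨x * x' - x' * x, hG.br x hx x' hx', rfl,
      (2 : ℤ_[2]) • (U * U' - U' * U), ?_⟩, x.1 i * Z' + Z * x'.1 i + (2 : ℤ_[2]) • (Z * Z') -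
      (x'.1 i * Z + Z' * x.1 i + (2 : ℤ_[2]) • (Z' * Z)), ?_⟩
    · change x.2 * x'.2 - x'.2 * x.2 = _
      rw [hU, hU']
      simp only [smul_mul_assoc, mul_smul_comm, smul_sub]
    · simp only [mul_add, add_mul, smul_mul_assoc, mul_smul_comm]
      module
  have hv : ∀ l : {l // P i l}, Eo (B i) (w l i) (w l i) ∈ nn (Ev G i) := by
    rintro ⟨l, -⟩
    obtain ⟨x, hx, hE, Y, hY⟩ := hrefl l
    obtain ⟨Z, hZ⟩ := hE i
    exact ⟨x.1 i, ⟨x, hx, rfl, Y, hY⟩, -Z, by rw [hZ]; module⟩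
  have hcn : ∀ k l : {l // P i l}, (fun _ : {l // P i l} => ()) k = (fun _ => ()) l →
      Relation.ReflTransGen (Adj (B i) (fun l : {l // P i l} => w l i) (fun _ => ())) k l := by
    rintro ⟨k, hk⟩ ⟨l, hl⟩ -
    have h3 := hconn i k l hk hl
    have key : ∀ l, Relation.ReflTransGen (fun l l' => P i l ∧ P i l' ∧
        IsUnit (B i (w l i) (w l' i))) k l → ∀ hl : P i l,
        Relation.ReflTransGen (Adj (B i) (fun l : {l // P i l} => w l i) (fun _ => ()))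
          (⟨k, hk⟩ : {l // P i l}) ⟨l, hl⟩ := by
      intro l hkl
      induction hkl with
      | refl => exact fun _ => Relation.ReflTransGen.refl
      | tail _ hbc ih =>
        intro hl
        exact (ih hbc.1).tail ⟨rfl, hbc.2.2⟩
    exact key l h3 hl
  have hsp' : ∀ x, x ∈ Wq (fun l : {l // P i l} => w l i) (fun _ => ()) () := by
    intro x
    refine Submodule.span_mono ?_ (hspan i x)
    rintro y (⟨l, hl, rfl⟩ | ⟨y, rfl⟩)
    · exact Or.inl ⟨⟨l, hl⟩, rfl, rfl⟩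
    · exact Or.inr ⟨y, rfl⟩
  refine sp_le_of_unit (halt i) (hnd i) hle fun u _ => ?_
  exact Eo_mem (B i) (halt i) (fun l : {l // P i l} => w l i) (fun _ => ()) _ h2 hbr hv hcn
    (hsp' u)

include hG halt hnd hrefl hconn hspan in
/-- The symplectic operators with value zero, up to powers of two. -/
theorem value_all [Module.Finite ℤ_[2] A] (i : ι) {X : Module.End ℤ_[2] (T i)}
    (hX : X ∈ sp (B i)) : ∃ k : ℕ, ∃ x ∈ G, x.1 i = (2 : ℤ_[2]) ^ k • X ∧ x.2 = 0 := by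
  let N : Submodule ℤ_[2] (Module.End ℤ_[2] (T i) × A) :=
    { carrier := {y | y.1 ∈ sp (B i) ∧ ∃ k : ℕ, ∃ x ∈ G, x.1 i = (2 : ℤ_[2]) ^ k • y.1 ∧
        x.2 = (2 : ℤ_[2]) ^ k • y.2}
      zero_mem' := ⟨Submodule.zero_mem _, 0, 0, G.zero_mem, by rw [pow_zero, one_smul]; rfl,
        by rw [pow_zero, one_smul]; rfl⟩
      add_mem' := by
        rintro y z ⟨hy, k, x, hx, h1, h2⟩ ⟨hz, l, x', hx', h3, h4⟩
        refine ⟨Submodule.add_mem _ hy hz, k + l, (2 : ℤ_[2]) ^ l • x + (2 : ℤ_[2]) ^ k • x',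
          G.add_mem (G.smul_mem _ hx) (G.smul_mem _ hx'), ?_, ?_⟩
        · change (2 : ℤ_[2]) ^ l • x.1 i + (2 : ℤ_[2]) ^ k • x'.1 i = _ • (y.1 + z.1)
          rw [h1, h3, smul_add, smul_smul, smul_smul, ← pow_add, ← pow_add, add_comm l k]
        · change (2 : ℤ_[2]) ^ l • x.2 + (2 : ℤ_[2]) ^ k • x'.2 = _ • (y.2 + z.2)
          rw [h2, h4, smul_add, smul_smul, smul_smul, ← pow_add, ← pow_add, add_comm l k]
      smul_mem' := by
        rintro c y ⟨hy, k, x, hx, h1, h2⟩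
        refine ⟨Submodule.smul_mem _ c hy, k, c • x, G.smul_mem c hx, ?_, ?_⟩
        · change c • x.1 i = _ • (c • y.1)
          rw [h1, smul_comm]
        · change c • x.2 = _ • (c • y.2)
          rw [h2, smul_comm] }
  have hN : ∀ y : Module.End ℤ_[2] (T i) × A, y ∈ N ↔ y.1 ∈ sp (B i) ∧ ∃ k : ℕ, ∃ x ∈ G,
      x.1 i = (2 : ℤ_[2]) ^ k • y.1 ∧ x.2 = (2 : ℤ_[2]) ^ k • y.2 := fun y => Iff.rfl
  have hbr : ∀ x ∈ N, ∀ y ∈ N, x * y - y * x ∈ N := by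
    rintro y ⟨hy, k, x, hx, h1, h2⟩ z ⟨hz, l, x', hx', h3, h4⟩
    refine ⟨sp_bracket hy hz, k + l, x * x' - x' * x, hG.br x hx x' hx', ?_, ?_⟩
    · change x.1 i * x'.1 i - x'.1 i * x.1 i = _ • (y.1 * z.1 - z.1 * y.1)
      rw [h1, h3, smul_mul_smul_comm, smul_mul_smul_comm, mul_comm ((2 : ℤ_[2]) ^ l), ← smul_sub,
        ← pow_add]
    · change x.2 * x'.2 - x'.2 * x.2 = _ • (y.2 * z.2 - z.2 * y.2)
      rw [h2, h4, smul_mul_smul_comm, smul_mul_smul_comm, mul_comm ((2 : ℤ_[2]) ^ l), ← smul_sub,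
        ← pow_add]
  have hs : ∀ x, (2 : ℤ_[2]) • x ∈ N → x ∈ N := by
    rintro y ⟨hy, k, x, hx, h1, h2⟩
    refine ⟨sp_cancel 1 (by rw [pow_one]; exact hy), k + 1, x, hx, ?_, ?_⟩
    · rw [h1, pow_succ, mul_smul]
      rfl
    · rw [h2, pow_succ, mul_smul]
      rfl
  have h1 := values_zero (halt i) (hnd i) hbr hs (fun X hX => by
    obtain ⟨x, hx, h1, Y, hY⟩ := even_all hG halt hnd w P hrefl hconn hspan i hX
    exact ⟨Y, hX, 0, x, hx, by rw [h1, pow_zero, one_smul], by rw [hY, pow_zero, one_smul]⟩) hX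
  obtain ⟨-, k, x, hx, h2, h3⟩ := h1
  exact ⟨k, x, hx, h2, by rw [h3]; exact smul_zero _⟩

include hG halt hnd hrefl hconn hspan in
theorem sep_one {i j : ι} (h : ∃ l, (¬ ∃ u, (2 : ℤ_[2]) • u = w l i) ∧
    ∃ u, (2 : ℤ_[2]) • u = w l j) : ∃ x ∈ G, x.1 j = 0 ∧ x.1 i ≠ 0 := by
  obtain ⟨l, h1, u₀, hu₀⟩ := h
  obtain ⟨x, hx, hE, -⟩ := hrefl l
  obtain ⟨Z, hZ⟩ := hE j
  obtain ⟨Z', hZ'⟩ := hE i
  have e1 : x.1 j = (2 : ℤ_[2]) • ((2 : ℤ_[2]) • Eo (B j) u₀ u₀ + Z) := by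
    rw [hZ, ← hu₀, Eo_smul]
    module
  have e2 : (2 : ℤ_[2]) • Eo (B j) u₀ u₀ + Z ∈ sp (B j) := by
    refine sp_cancel 1 ?_
    rw [pow_one, ← e1]
    exact hG.sp x hx j
  obtain ⟨y, hy, hyj, -⟩ := even_all hG halt hnd w P hrefl hconn hspan j e2
  refine ⟨x - (2 : ℤ_[2]) • y, G.sub_mem hx (G.smul_mem _ hy), ?_, ?_⟩
  · change x.1 j - (2 : ℤ_[2]) • y.1 j = 0
    rw [hyj, e1, sub_self]
  · change x.1 i - (2 : ℤ_[2]) • y.1 i ≠ 0
    rw [hZ']
    intro h3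
    apply h1
    by_contra h4
    have h5 : ∃ v, IsUnit (B i (w l i) v) := by
      by_contra h5
      exact h4 (hnd i _ fun v hv => h5 ⟨v, hv⟩)
    obtain ⟨v, c, hc⟩ := h5
    apply h4
    have h6 := congrArg (fun f => f v) h3
    simp only [LinearMap.sub_apply, LinearMap.add_apply, LinearMap.smul_apply, Eo_apply,
      LinearMap.zero_apply] at h6
    rw [← hc] at h6
    refine ⟨((c⁻¹ : ℤ_[2]ˣ) : ℤ_[2]) • (y.1 i v - Z' v), ?_⟩
    have h7 : (c : ℤ_[2]) • w l i = (2 : ℤ_[2]) • (y.1 i v - Z' v) := by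
      rw [smul_sub, ← sub_eq_zero, ← h6]
      abel
    rw [smul_comm, ← h7, smul_smul, Units.inv_mul, one_smul]

include hG halt hnd hrefl hconn hspan hsp in
theorem sep_all {i j : ι} (hij : i ≠ j) (hb : sp (B i) ≠ ⊥) : ∃ x ∈ G, x.1 j = 0 ∧ x.1 i ≠ 0 := by
  rcases hsp i j hij with h | h | h
  · exfalso
    apply hb
    rw [eq_bot_iff]
    intro X _
    rw [Submodule.mem_bot]
    ext x
    rw [h x, map_zero, map_zero]
  · exact sep_one hG halt hnd w P hrefl hconn hspan h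
  · -- the ideal without component in `i` is everything in `j`
    obtain ⟨x, hx, hxi, hxj⟩ := sep_one hG halt hnd w P hrefl hconn hspan h
    have hall : ∀ i, ∀ X ∈ sp (B i), ∃ x ∈ G, x.1 i = X := by
      intro i X hX
      obtain ⟨x, hx, h1, -⟩ := even_all hG halt hnd w P hrefl hconn hspan i hX
      exact ⟨x, hx, h1⟩
    obtain ⟨X, hX, hX0⟩ := (Submodule.ne_bot_iff _).1 hb
    obtain ⟨y, hy, hyi⟩ := hall i X hX
    obtain ⟨k, z, ⟨hz, hzi⟩, hzj⟩ := ideal_comp hG halt hnd (J := JR G {i}) (fun x hx => hx.1)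
      (JR_br hG {i}) (hall j) (x := x) ⟨hx, fun r hr => by
        rw [Finset.mem_singleton.1 hr]; exact hxi⟩ hxj (hG.sp y hy j)
    refine ⟨(2 : ℤ_[2]) ^ k • y - z, G.sub_mem (G.smul_mem _ hy) hz, ?_, ?_⟩
    · change (2 : ℤ_[2]) ^ k • y.1 j - z.1 j = 0
      rw [hzj, sub_self]
    · change (2 : ℤ_[2]) ^ k • y.1 i - z.1 i ≠ 0
      rw [hzi i (Finset.mem_singleton_self i), sub_zero, hyi]
      intro h
      apply hX0
      ext v
      have h1 := congrArg (fun f => f v) h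
      simp only [LinearMap.smul_apply, LinearMap.zero_apply] at h1
      rw [LinearMap.zero_apply]
      have h2 : ∀ k : ℕ, (2 : ℤ_[2]) ^ k • X v = 0 → X v = 0 := by
        intro k
        induction k with
        | zero => intro h; rwa [pow_zero, one_smul] at h
        | succ k ih =>
          intro h
          rw [pow_succ', mul_smul] at h
          exact ih (two_smul_cancel h)
      exact h2 k h1

include hG halt hnd hrefl hconn hspan hsp in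
/-- **All the products of the symplectic Lie algebras, with the value zero.** -/
theorem lat_all [Module.Finite ℤ_[2] A] (i : ι) {X : Module.End ℤ_[2] (T i)}
    (hX : X ∈ sp (B i)) : (Pi.single i X, 0) ∈ G :=
  goursat_all hG halt hnd (fun i X hX => by
      obtain ⟨x, hx, h1, -⟩ := even_all hG halt hnd w P hrefl hconn hspan i hX
      exact ⟨x, hx, h1⟩)
    (fun i X hX => value_all hG halt hnd w P hrefl hconn hspan i hX)
    (fun i j hij hb => sep_all hG halt hnd w P hrefl hconn hspan hsp hij hb) i hX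

end

end Run7.h870.TE
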