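import Mathlib
import Pool.Agent.Run7.h870.TE.Joint

/-!
# Joint tangent vectors of 2-adic representations with simultaneous reflections modulo four
-/

set_option linter.unusedSectionVars false
set_option autoImplicit false

namespace Run7.h870.TE

open PadicInt Module Pool.Agent.N171 Pool.Agent.N171.Al Pool.Agent.N171.Bg Pool.Agent.N171.TG

noncomputable section

/-! ### logarithms -/

section log

variable {A₁ A₂ A₃ : Type*} [Ring A₁] [Algebra ℤ_[2] A₁] [Ring A₂] [Algebra ℤ_[2] A₂]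
  [Ring A₃] [Algebra ℤ_[2] A₃] {Γ : Type*} [Group Γ]

theorem TanA_comp {A A' : Type*} [Ring A] [Algebra ℤ_[2] A] [Ring A'] [Algebra ℤ_[2] A']
    {R : Γ →* A} (f : A →ₐ[ℤ_[2]] A') {X : A} (h : TanA R X) :
    TanA ((f : A →* A').comp R) (f X) := by
  intro m
  obtain ⟨n₀, h0⟩ := h m
  refine ⟨n₀, fun n hn => ?_⟩
  obtain ⟨σ, Z, hσ⟩ := h0 n hn
  refine ⟨σ, f Z, ?_⟩
  change f (R σ) = _
  rw [hσ, map_add, map_one, map_smul, map_add, map_smul]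

theorem TanA_log3 [Module.Finite ℤ_[2] A₁] [Module.Free ℤ_[2] A₁] [Module.Finite ℤ_[2] A₂]
    [Module.Free ℤ_[2] A₂] [Module.Finite ℤ_[2] A₃] [Module.Free ℤ_[2] A₃]
    {R : Γ →* (A₁ × A₂) × A₃} {s : Γ} {N₁ : A₁} {N₂ : A₂} {N₃ : A₃}
    (h : R s * R s = 1 + (4 : ℤ_[2]) • ((N₁, (2 : ℤ_[2]) • N₂), (4 : ℤ_[2]) • N₃)) :
    ∃ Z₁ Z₂ Z₃, TanA R ((N₁ + (2 : ℤ_[2]) • Z₁, (2 : ℤ_[2]) • (N₂ + (2 : ℤ_[2]) • Z₂)),
      (4 : ℤ_[2]) • (N₃ + (2 : ℤ_[2]) • Z₃)) := by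
  obtain ⟨Y₁, Z₁, e1, h1⟩ := exists_logr (A := A₁) 0 N₁
  obtain ⟨Y₂, Z₂, e2, h2⟩ := exists_logr (A := A₂) 1 N₂
  obtain ⟨Y₃, Z₃, e3, h3⟩ := exists_logr (A := A₃) 2 N₃
  refine ⟨Z₁, Z₂, Z₃, ?_⟩
  have e4 : ((2 : ℤ_[2]) ^ 2) = 4 := by norm_num
  rw [pow_zero, one_smul] at e1
  rw [pow_one] at e2
  rw [e4] at e3
  rw [← e1, ← e2, ← e3]
  refine TanA_log h fun n => ?_
  obtain ⟨W₁, hW₁⟩ := h1 n
  obtain ⟨W₂, hW₂⟩ := h2 n
  obtain ⟨W₃, hW₃⟩ := h3 n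
  refine ⟨((W₁, W₂), W₃), ?_⟩
  rw [Yr_prod, Yr_prod]
  rw [pow_zero, one_smul] at hW₁
  rw [pow_one] at hW₂
  rw [e4] at hW₃
  exact Prod.ext (Prod.ext hW₁ hW₂) hW₃

end log

/-! ### the tangent vectors -/

variable {ι : Type*} [Fintype ι] [DecidableEq ι] {T : ι → Type*} [∀ i, AddCommGroup (T i)]
  [∀ i, Module ℤ_[2] (T i)] [∀ i, Module.Finite ℤ_[2] (T i)] [∀ i, Module.Free ℤ_[2] (T i)]
  {B : ∀ i, T i →ₗ[ℤ_[2]] T i →ₗ[ℤ_[2]] ℤ_[2]} {Γ : Type*} [Group Γ]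
  (ρ : ∀ i, Representation ℤ_[2] Γ (T i)) (χ : Γ →* ℤ_[2]ˣ)
  {A : Type*} [Ring A] [Algebra ℤ_[2] A] (t : Γ →* A)

/-- The joint action on the lattices and the values. -/
abbrev RR2 : Γ →* (∀ i, Module.End ℤ_[2] (T i)) × A := (joint ρ).prod t

theorem sc_add (c d : ℤ_[2]) : (((c + d) • (1 : ∀ i, Module.End ℤ_[2] (T i)), (0 : A)) :
    (∀ i, Module.End ℤ_[2] (T i)) × A) = (c • 1, 0) + (d • 1, 0) := by
  rw [Prod.mk_add_mk, add_zero, add_smul]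

theorem sc_mul (a c : ℤ_[2]) : (((a * c) • (1 : ∀ i, Module.End ℤ_[2] (T i)), (0 : A)) :
    (∀ i, Module.End ℤ_[2] (T i)) × A) = a • (c • 1, 0) := by
  rw [Prod.smul_mk, smul_zero, mul_smul]

variable (B) in
/-- The tangent vectors of the joint action, up to scalars on the lattices, and powers of two. -/
def Gt : Submodule ℤ_[2] ((∀ i, Module.End ℤ_[2] (T i)) × A) where
  carrier := {x | (∀ i, x.1 i ∈ sp (B i)) ∧ ∃ (k : ℕ) (c : ℤ_[2]),
    TanA (RR2 ρ t) ((2 : ℤ_[2]) ^ k • x + (c • (1 : ∀ i, Module.End ℤ_[2] (T i)), 0))}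
  zero_mem' := ⟨fun i => Submodule.zero_mem _, 0, 0, by
    rw [smul_zero, zero_smul, Prod.mk_zero_zero, add_zero]
    exact TanA_zero⟩
  add_mem' := by
    rintro x y ⟨hx, k, c, h⟩ ⟨hy, l, d, h'⟩
    refine ⟨fun i => Submodule.add_mem _ (hx i) (hy i), k + l,
      (2 : ℤ_[2]) ^ l * c + (2 : ℤ_[2]) ^ k * d, ?_⟩
    have h1 := TanA_add (TanA_smul ((2 : ℤ_[2]) ^ l) h) (TanA_smul ((2 : ℤ_[2]) ^ k) h')
    convert! h1 using 1
    rw [sc_add, sc_mul, sc_mul, pow_add]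
    module
  smul_mem' := by
    rintro a x ⟨hx, k, c, h⟩
    refine ⟨fun i => Submodule.smul_mem _ a (hx i), k, a * c, ?_⟩
    have h1 := TanA_smul a h
    convert! h1 using 1
    rw [sc_mul]
    module

theorem TanA_pow {R : Γ →* A} (k : ℕ) {X : A} (h : TanA R ((2 : ℤ_[2]) ^ k • X)) : TanA R X := by
  induction k with
  | zero => rwa [pow_zero, one_smul] at h
  | succ k ih =>
    rw [pow_succ', mul_smul] at h
    exact ih (TanA_cancel h)

variable {ρ t}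

/-- The brackets of elements of `Gt` are tangent vectors. -/
theorem tan_br {x y : (∀ i, Module.End ℤ_[2] (T i)) × A} (hx : x ∈ Gt B ρ t)
    (hy : y ∈ Gt B ρ t) : TanA (RR2 ρ t) (x * y - y * x) := by
  obtain ⟨-, k, c, h⟩ := hx
  obtain ⟨-, l, d, h'⟩ := hy
  refine TanA_pow (k + l) ?_
  have h1 := TanA_bracket h h'
  convert! h1 using 1
  have hc : ∀ (c : ℤ_[2]) (z : (∀ i, Module.End ℤ_[2] (T i)) × A),
      (c • (1 : ∀ i, Module.End ℤ_[2] (T i)), (0 : A)) * z =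
        z * (c • (1 : ∀ i, Module.End ℤ_[2] (T i)), (0 : A)) := by
    intro c z
    refine Prod.ext ?_ ?_
    · change (c • (1 : ∀ i, Module.End ℤ_[2] (T i))) * z.1 =
        z.1 * (c • (1 : ∀ i, Module.End ℤ_[2] (T i)))
      rw [smul_mul_assoc, mul_smul_comm, one_mul, mul_one]
    · change (0 : A) * z.2 = z.2 * 0
      rw [zero_mul, mul_zero]
  have e1 := hc c ((2 : ℤ_[2]) ^ l • y)
  have e2 := hc d ((2 : ℤ_[2]) ^ k • x)
  have e3 := hc c (d • (1 : ∀ i, Module.End ℤ_[2] (T i)), (0 : A))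
  rw [add_mul, mul_add, mul_add, add_mul, mul_add, mul_add, e1, e2, e3, smul_mul_smul_comm,
    smul_mul_smul_comm, ← pow_add, ← pow_add, add_comm l k, smul_sub]
  abel

variable (B ρ t) in
theorem lieLat_Gt : LieLat B (Gt B ρ t) where
  sp := fun x hx => hx.1
  br := fun x hx y hy => by
    refine ⟨fun i => sp_bracket (hx.1 i) (hy.1 i), 0, 0, ?_⟩
    rw [pow_zero, one_smul, zero_smul, Prod.mk_zero_zero, add_zero]
    exact tan_br hx hy
  sat := fun x hx => by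
    obtain ⟨h, k, c, h'⟩ := hx
    refine ⟨fun i => sp_cancel 1 (by rw [pow_one]; exact h i), k + 1, c, ?_⟩
    rw [pow_succ, mul_smul]
    exact h'

variable (hinv : ∀ i s x y, B i (ρ i s x) (ρ i s y) = (χ s : ℤ_[2]) * B i x y)

/-- The character with values in `ℤ_2`. -/
def chi' : Γ →* ℤ_[2] := (Units.coeHom ℤ_[2]).comp χ

include hinv in
/-- The multiplier of a tangent vector. -/
theorem tan_mult {x : (∀ i, Module.End ℤ_[2] (T i)) × A} {μ : ℤ_[2]}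
    (h : TanA ((RR2 ρ t).prod (chi' χ)) (x, μ)) (i : ι) (u v : T i) :
    B i (x.1 i u) v + B i u (x.1 i v) = μ * B i u v := by
  have h1 : ∀ m : ℕ, ∃ z : ℤ_[2], B i (x.1 i u) v + B i u (x.1 i v) - μ * B i u v =
      2 ^ m * z := by
    intro m
    obtain ⟨n₀, h0⟩ := h m
    obtain ⟨σ, ⟨Z, ζ⟩, hσ⟩ := h0 (max n₀ m) (le_max_left _ _)
    obtain ⟨k, hk⟩ : ∃ k, max n₀ m = m + k := ⟨max n₀ m - m, by omega⟩
    rw [hk] at hσ
    have e1 : ρ i σ = 1 + (2 : ℤ_[2]) ^ (m + k) • (x.1 i + (2 : ℤ_[2]) ^ m • Z.1 i) := by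
      have h2 := congrArg Prod.fst (congrArg Prod.fst hσ)
      exact congrFun h2 i
    have e2 : (χ σ : ℤ_[2]) = 1 + (2 : ℤ_[2]) ^ (m + k) * (μ + (2 : ℤ_[2]) ^ m * ζ) :=
      congrArg Prod.snd hσ
    have h3 := hinv i σ u v
    rw [e1, e2] at h3
    set U := x.1 i + (2 : ℤ_[2]) ^ m • Z.1 i with hU
    simp only [LinearMap.add_apply, LinearMap.smul_apply, Module.End.one_apply, map_add, map_smul,
      smul_eq_mul] at h3
    have hU1 : U u = x.1 i u + (2 : ℤ_[2]) ^ m • Z.1 i u := by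
      rw [hU, LinearMap.add_apply, LinearMap.smul_apply]
    have hU2 : U v = x.1 i v + (2 : ℤ_[2]) ^ m • Z.1 i v := by
      rw [hU, LinearMap.add_apply, LinearMap.smul_apply]
    have hp : (2 : ℤ_[2]) ^ (m + k) ≠ 0 := pow_ne_zero _ (by norm_num)
    have h4 : B i (U u) v + B i u (U v) + (2 : ℤ_[2]) ^ (m + k) * B i (U u) (U v) =
        (μ + (2 : ℤ_[2]) ^ m * ζ) * B i u v := by
      apply mul_left_cancel₀ hp
      linear_combination h3
    have h5 : B i (U u) v = B i (x.1 i u) v + (2 : ℤ_[2]) ^ m * B i (Z.1 i u) v := by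
      rw [hU1, map_add, LinearMap.add_apply, map_smul, LinearMap.smul_apply, smul_eq_mul]
    have h6 : B i u (U v) = B i u (x.1 i v) + (2 : ℤ_[2]) ^ m * B i u (Z.1 i v) := by
      rw [hU2, map_add, map_smul, smul_eq_mul]
    refine ⟨ζ * B i u v - B i (Z.1 i u) v - B i u (Z.1 i v) -
      (2 : ℤ_[2]) ^ k * B i (U u) (U v), ?_⟩
    rw [h5, h6, pow_add] at h4
    linear_combination h4
  rw [← sub_eq_zero]
  by_contra h0
  obtain ⟨w, m, hw⟩ := unit_pow h0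
  obtain ⟨z, hz⟩ := h1 (m + 1)
  rw [hw] at hz
  have h2 : (w : ℤ_[2]) = 2 * z := by
    have hp : (2 : ℤ_[2]) ^ m ≠ 0 := pow_ne_zero _ (by norm_num)
    apply mul_right_cancel₀ hp
    rw [hz]
    ring
  have h3 : IsUnit ((2 : ℤ_[2]) * z) := by
    rw [← h2]
    exact w.isUnit
  have h4 := isUnit_of_mul_isUnit_left h3
  rw [isUnit_iff_toZModPow, map_ofNat] at h4
  exact h4 rfl

variable (halt : ∀ i x, B i x x = 0)
  (hnd : ∀ i v, (∀ w, ¬ IsUnit (B i v w)) → ∃ u, (2 : ℤ_[2]) • u = v)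

include hinv halt in
/-- The logarithm of a simultaneous reflection. -/
theorem refl_Gt [Module.Finite ℤ_[2] A] [Module.Free ℤ_[2] A] {s : Γ} (w : ∀ i, T i)
    (hs8 : ∃ z, (χ s : ℤ_[2]) = 1 + 8 * z) (ht : ∃ Z, t s = 1 + (4 : ℤ_[2]) • Z)
    (hs : ∀ i x, ∃ y, ρ i s x = x + (2 : ℤ_[2]) • (B i (w i) x • w i) + (4 : ℤ_[2]) • y) :
    ∃ x ∈ Gt B ρ t, (∀ i, ∃ Z, x.1 i = Eo (B i) (w i) (w i) + (2 : ℤ_[2]) • Z) ∧
      ∃ Y, x.2 = (2 : ℤ_[2]) • Y := by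
  classical
  have hW : ∀ i, ∃ W : Module.End ℤ_[2] (T i),
      ρ i s = 1 + (2 : ℤ_[2]) • Eo (B i) (w i) (w i) + (4 : ℤ_[2]) • W := by
    intro i
    let b := Module.Free.chooseBasis ℤ_[2] (T i)
    choose y hy using fun k => hs i (b k)
    refine ⟨b.constr ℤ_[2] y, b.ext fun k => ?_⟩
    rw [hy]
    simp only [LinearMap.add_apply, LinearMap.smul_apply, Module.Basis.constr_basis, Eo_apply]
    rfl
  choose W hW using hW
  obtain ⟨z, hz⟩ := hs8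
  obtain ⟨Z, hZ⟩ := ht
  set E : ∀ i, Module.End ℤ_[2] (T i) := fun i => Eo (B i) (w i) (w i) with hE
  have hEE : ∀ i, E i * E i = 0 := by
    intro i
    ext x
    simp only [hE]
    rw [Module.End.mul_apply, Eo_apply, Eo_apply, map_smul, halt, smul_zero, zero_smul]
    rfl
  set Y₁ : ∀ i, Module.End ℤ_[2] (T i) := fun i =>
    W i + E i * W i + W i * E i + (2 : ℤ_[2]) • (W i * W i) with hY₁
  have h1 : ∀ i, ρ i s * ρ i s = 1 + (4 : ℤ_[2]) • (E i + (2 : ℤ_[2]) • Y₁ i) := by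
    intro i
    rw [hW i, hY₁]
    have e0 := hEE i
    simp only [hE] at e0 ⊢
    simp only [mul_add, add_mul, one_mul, mul_one, smul_mul_assoc, mul_smul_comm, e0, smul_zero,
      add_zero]
    module
  have h2 : t s * t s = 1 + (4 : ℤ_[2]) • ((2 : ℤ_[2]) • (Z + (2 : ℤ_[2]) • (Z * Z))) := by
    rw [hZ]
    simp only [mul_add, add_mul, one_mul, mul_one, smul_mul_assoc, mul_smul_comm]
    module
  have h3 : (χ s : ℤ_[2]) * (χ s : ℤ_[2]) = 1 + 4 * (4 * (z + 4 * (z * z))) := by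
    rw [hz]
    ring
  obtain ⟨Z₁, Z₂, Z₃, h4⟩ := TanA_log3 (R := (RR2 ρ t).prod (chi' χ)) (s := s)
    (N₁ := fun i => E i + (2 : ℤ_[2]) • Y₁ i) (N₂ := Z + (2 : ℤ_[2]) • (Z * Z))
    (N₃ := z + 4 * (z * z)) (Prod.ext (Prod.ext (funext h1) h2) h3)
  set μ := z + 4 * (z * z) + (2 : ℤ_[2]) • Z₃ with hμ
  set L : ∀ i, Module.End ℤ_[2] (T i) :=
    (fun i => E i + (2 : ℤ_[2]) • Y₁ i) + (2 : ℤ_[2]) • Z₁ with hL
  have h5 : ∀ i, L i - (2 * μ) • (1 : Module.End ℤ_[2] (T i)) ∈ sp (B i) := by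
    intro i
    rw [mem_sp]
    intro x y
    have h6 := tan_mult χ hinv h4 i x y
    change B i (L i x) y + B i x (L i y) = ((4 : ℤ_[2]) • μ) * B i x y at h6
    simp only [LinearMap.sub_apply, LinearMap.smul_apply, Module.End.one_apply, map_sub, map_smul,
      smul_eq_mul] at h6 ⊢
    linear_combination h6
  refine ⟨(fun i => L i - (2 * μ) • 1, (2 : ℤ_[2]) • (Z + (2 : ℤ_[2]) • (Z * Z) +
    (2 : ℤ_[2]) • Z₂)), ⟨h5, 0, 2 * μ, ?_⟩, fun i => ⟨Y₁ i + Z₁ i - μ • 1, ?_⟩, ⟨_, rfl⟩⟩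
  · have h7 := TanA_comp (AlgHom.fst ℤ_[2] ((∀ i, Module.End ℤ_[2] (T i)) × A) ℤ_[2]) h4
    have e1 : ((AlgHom.fst ℤ_[2] ((∀ i, Module.End ℤ_[2] (T i)) × A) ℤ_[2] :
        ((∀ i, Module.End ℤ_[2] (T i)) × A) × ℤ_[2] →ₐ[ℤ_[2]] (∀ i, Module.End ℤ_[2] (T i)) × A) :
          ((∀ i, Module.End ℤ_[2] (T i)) × A) × ℤ_[2] →* (∀ i, Module.End ℤ_[2] (T i)) × A).comp
          ((RR2 ρ t).prod (chi' χ)) = RR2 ρ t := MonoidHom.ext fun _ => rfl
    rw [e1] at h7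
    convert! h7 using 1
    rw [pow_zero, one_smul]
    refine Prod.ext (funext fun i => ?_) ?_
    · change L i - (2 * μ) • (1 : Module.End ℤ_[2] (T i)) + (2 * μ) • 1 = L i
      rw [sub_add_cancel]
    · change (2 : ℤ_[2]) • (Z + (2 : ℤ_[2]) • (Z * Z) + (2 : ℤ_[2]) • Z₂) + 0 = _
      rw [add_zero]
      rfl
  · change E i + (2 : ℤ_[2]) • Y₁ i + (2 : ℤ_[2]) • Z₁ i - (2 * μ) • 1 = _
    rw [mul_smul]
    module

variable [Module.Finite ℤ_[2] A] [Module.Free ℤ_[2] A] {Λ : Type*} (w : Λ → ∀ i, T i)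
  (P : ι → Λ → Prop) (σ : Λ → Γ)
  (hσ8 : ∀ l, ∃ z, (χ (σ l) : ℤ_[2]) = 1 + 8 * z) (ht : ∀ l, ∃ Z, t (σ l) = 1 + (4 : ℤ_[2]) • Z)
  (hσ : ∀ l i x, ∃ y, ρ i (σ l) x = x + (2 : ℤ_[2]) • (B i (w l i) x • w l i) +
    (4 : ℤ_[2]) • y)
  (hconn : ∀ i l l', P i l → P i l' → Relation.ReflTransGen
    (fun l l' => P i l ∧ P i l' ∧ IsUnit (B i (w l i) (w l' i))) l l')
  (hspan : ∀ i x, x ∈ Submodule.span ℤ_[2]
    ({x | ∃ l, P i l ∧ w l i = x} ∪ {x : T i | ∃ y, (2 : ℤ_[2]) • y = x}))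
  (hsp : ∀ i j, i ≠ j → (∀ x : T i, x = 0) ∨
      (∃ l, (¬ ∃ u, (2 : ℤ_[2]) • u = w l i) ∧ ∃ u, (2 : ℤ_[2]) • u = w l j) ∨
      (∃ l, (¬ ∃ u, (2 : ℤ_[2]) • u = w l j) ∧ ∃ u, (2 : ℤ_[2]) • u = w l i))

include hinv halt hnd hσ8 ht hσ hconn hspan hsp in
/-- The elements of one symplectic Lie algebra are joint tangent vectors. -/
theorem tan_one (i : ι) {X : Module.End ℤ_[2] (T i)} (hX : X ∈ sp (B i)) :
    TanA (RR2 ρ t) ((Pi.single i X, 0) : (∀ i, Module.End ℤ_[2] (T i)) × A) := by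
  have hG : ∀ {X : Module.End ℤ_[2] (T i)}, X ∈ sp (B i) →
      ((Pi.single i X, 0) : (∀ i, Module.End ℤ_[2] (T i)) × A) ∈ Gt B ρ t := fun hX =>
    lat_all (lieLat_Gt B ρ t) halt hnd w P
      (fun l => refl_Gt χ hinv halt (w l) (hσ8 l) (ht l) (hσ l)) hconn hspan hsp i hX
  let M : Submodule ℤ_[2] (Module.End ℤ_[2] (T i)) :=
    { carrier := {X | X ∈ sp (B i) ∧
        TanA (RR2 ρ t) ((Pi.single i X, 0) : (∀ i, Module.End ℤ_[2] (T i)) × A)}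
      zero_mem' := ⟨Submodule.zero_mem _, by
        rw [Pi.single_zero]
        exact TanA_zero⟩
      add_mem' := by
        rintro X Y ⟨h1, h2⟩ ⟨h3, h4⟩
        refine ⟨Submodule.add_mem _ h1 h3, ?_⟩
        have h5 := TanA_add h2 h4
        rwa [Prod.mk_add_mk, add_zero, ← Pi.single_add] at h5
      smul_mem' := by
        rintro c X ⟨h1, h2⟩
        refine ⟨Submodule.smul_mem _ c h1, ?_⟩
        have h5 := TanA_smul c h2
        rwa [Prod.smul_mk, smul_zero, ← Pi.single_smul] at h5 }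
  have hle : M ≤ sp (B i) := fun X hX => hX.1
  have h1 : sp (B i) ≤ M := by
    refine sp_le_of_unit (halt i) (hnd i) hle fun u hu => ?_
    obtain ⟨v, c, hc⟩ := hu
    set m := ((c⁻¹ : ℤ_[2]ˣ) : ℤ_[2]) • v with hm
    have hum : B i u m = 1 := by
      rw [hm, map_smul, ← hc, smul_eq_mul, Units.inv_mul]
    have hso : so (B i) u m ∈ sp (B i) := by
      have h2 := sp_bracket (E_sp (halt i) u) (E_sp (halt i) m)
      rwa [bracket_Eo (B i) (halt i), hum, one_smul] at h2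
    have h2 := tan_br (hG (E_sp (halt i) u)) (hG hso)
    rw [Prod.mk_mul_mk, Prod.mk_mul_mk, ← Pi.single_mul, ← Pi.single_mul, Prod.mk_sub_mk,
      ← Pi.single_sub, bracket_so (B i) (halt i), hum, one_smul, halt, zero_smul, add_zero,
      so_self, mul_zero, sub_zero] at h2
    have h3 : ((Pi.single i ((2 : ℤ_[2]) • Eo (B i) u u), 0) :
        (∀ i, Module.End ℤ_[2] (T i)) × A) = (2 : ℤ_[2]) •
        ((Pi.single i (Eo (B i) u u), 0) : (∀ i, Module.End ℤ_[2] (T i)) × A) := by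
      rw [Prod.smul_mk, smul_zero, ← Pi.single_smul]
    rw [h3] at h2
    exact ⟨Eo (B i) u u, ⟨E_sp (halt i) u, TanA_cancel h2⟩, 0, by rw [smul_zero, add_zero]⟩
  exact (h1 hX).2

include hinv halt hnd hσ8 ht hσ hconn hspan hsp in
/-- **All vectors of the product of the symplectic Lie algebras are joint tangent vectors, with the value
zero.** -/
theorem tan_all {X : ∀ i, Module.End ℤ_[2] (T i)} (hX : ∀ i, X i ∈ sp (B i)) :
    TanA (RR2 ρ t) ((X, 0) : (∀ i, Module.End ℤ_[2] (T i)) × A) := by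
  have h1 : ∀ S : Finset ι, TanA (RR2 ρ t)
      ((∑ i ∈ S, Pi.single i (X i), 0) : (∀ i, Module.End ℤ_[2] (T i)) × A) := by
    intro S
    induction S using Finset.induction_on with
    | empty =>
      rw [Finset.sum_empty]
      exact TanA_zero
    | insert a S ha ih =>
      rw [Finset.sum_insert ha]
      have h2 := TanA_add (tan_one χ hinv halt hnd w P σ hσ8 ht hσ hconn hspan hsp a (hX a)) ih
      rwa [Prod.mk_add_mk, add_zero] at h2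
  have h2 := h1 Finset.univ
  rwa [Finset.univ_sum_single] at h2

end

end Run7.h870.TE
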