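import Mathlib
import Pool.Agent.N171.Asm2
import Pool.Agent.N171.AsmW
import Pool.Agent.Run7.h870.TE.Tangent

/-!
# Jacobians of hyperelliptic curves with rational branch points: joint tangent vectors
-/

set_option linter.unusedSectionVars false
set_option autoImplicit false

namespace Run7.h870.TE

open Polynomial PadicInt Module Pool.Agent.N171 Pool.Agent.N171.Al Pool.Agent.N171.Bg
  Pool.Agent.N171.TG

noncomputable section

section one

variable {K : Type*} [Field K] {F : Type*} [Field F] [Algebra K F] [IsAlgClosed F]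
  {κ : Type*} [Fintype κ] [DecidableEq κ] (α : κ → K) [Hyp α] (h2 : (2 : F) ≠ 0)

/-- The Weil pairing. -/
abbrev Bj : TateMod 2 (Jac F α) →ₗ[ℤ_[2]] TateMod 2 (Jac F α) →ₗ[ℤ_[2]] ℤ_[2] :=
  BB (isCurve_crv (lf F α)) (isClasses_ThJ (F := F) α) h2

theorem two_of_shift {a : TateMod 2 (Jac F α)} (h : a.1 1 = 0) :
    ∃ b : TateMod 2 (Jac F α), (2 : ℤ_[2]) • b = a := by
  obtain ⟨b, hb⟩ := tm_shift' h
  exact ⟨b, by rw [← hb]; norm_num⟩

theorem lift_one {x : Jac F α} (hx : (2 : ℕ) • x = 0) : ∃ a : TateMod 2 (Jac F α), a.1 1 = x :=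
  tm_lift (two_div (isClasses_ThJ (F := F) α)) hx

theorem Bj_nd (v : TateMod 2 (Jac F α)) (hv : ∀ w, ¬ IsUnit (Bj α h2 v w)) :
    ∃ u : TateMod 2 (Jac F α), (2 : ℤ_[2]) • u = v := by
  apply two_of_shift
  apply eq_zero_of_e2 (isClasses_ThJ (F := F) α)
  · have h := tm_tors v 1
    rw [pow_one] at h
    exact h
  · intro j
    obtain ⟨w, hw⟩ := lift_one α (two_Dr (isClasses_ThJ (F := F) α) j)
    have h1 := hv w
    rw [isUnit_iff_toZModPow, not_not, BB_mod, hw] at h1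
    exact h1

theorem Bj_act (σ : F ≃ₐ[K] F) (a b : TateMod 2 (Jac F α)) :
    Bj α h2 (tateRep1 F α σ a) (tateRep1 F α σ b) = (cyc K F σ : ℤ_[2]) * Bj α h2 a b := by
  have h1 : ∀ a, tateRep1 F α σ a = tmMap (jacAct α σ) a := fun a => rfl
  rw [h1, h1, BB_act (isCurve_crv (lf F α)) (isClasses_ThJ (F := F) α) h2
    (isAct_J α σ), cyc_apply]

/-- The action of an automorphism modulo four. -/
theorem act_one (σ : F ≃ₐ[K] F) {I : Finset κ} (hI : Even I.card)
    {v : TateMod 2 (Jac F α)} (hv : v.1 1 = DS (ThJ F α) I)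
    (hs : ∀ i j, i ≠ j → ∀ w : F, w ^ 2 = lf F α i - lf F α j →
      (σ : F ≃+* F) w = if i ∈ I ∧ j ∈ I then -w else w)
    (x : TateMod 2 (Jac F α)) : ∃ y, tateRep1 F α σ x = x +
      (2 : ℤ_[2]) • (Bj α h2 v x • v) + (4 : ℤ_[2]) • y := by
  set c := Bj α h2 v x with hc
  set y₀ : TateMod 2 (Jac F α) := tateRep1 F α σ x - x - (2 : ℤ_[2]) • (c • v) with hy₀
  have h0 : y₀.1 2 = 0 := by
    have e1 : ((2 : ℤ_[2]) • (c • v)).1 2 = (toZModPow 1 c).val • v.1 1 := by
      have e2 : ((2 : ℤ_[2]) • (c • v)) = (2 : ℕ) • (c • v) := by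
        rw [← tm_natCast_smul]
        norm_num
      rw [e2]
      change (2 : ℕ) • (c • v).1 (1 + 1) = _
      rw [tm_succ, tm_smul_apply]
    have e3 : y₀.1 2 = jacAct α σ (x.1 2) - x.1 2 - ((2 : ℤ_[2]) • (c • v)).1 2 := rfl
    rw [e3, e1]
    have h4 : (4 : ℕ) • x.1 2 = 0 := tm_tors x 2
    have h5 : (2 : ℕ) • x.1 2 = x.1 1 := tm_succ x 1
    rw [hv]
    have h6 := act_four (isClasses_ThJ (F := F) α) (lf_fix σ α) (isAct_J α σ) hI hs h4
    rw [h5] at h6
    have h7 := BB_mod (isCurve_crv (lf F α)) (isClasses_ThJ (F := F) α) h2 v x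
    rw [hv] at h7
    change toZModPow 1 (Bj α h2 v x) = 0 ↔ e2 (ThJ F α) (DS (ThJ F α) I) (x.1 1) = 1 at h7
    rw [← hc] at h7
    change (_ ∧ jacAct α σ (x.1 2) = x.1 2) ∨ (_ ∧ jacAct α σ (x.1 2) = x.1 2 + _) at h6
    rcases h6 with ⟨h8, h9⟩ | ⟨h8, h9⟩
    · rw [h9, h7.2 h8, ZMod.val_zero, zero_smul, sub_self, sub_zero]
    · have h10 : toZModPow 1 c ≠ 0 := by
        intro h
        rw [h7.1 h] at h8
        exact neg_one_ne h2 h8.symm
      rw [h9, toZ_one h10, one_smul, add_sub_cancel_left, sub_self]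
  obtain ⟨y, hy⟩ := tm_shift_pow (n := 2) h0
  refine ⟨y, ?_⟩
  have h4 : ((2 : ℕ) : ℤ_[2]) ^ 2 = 4 := by norm_num
  rw [h4] at hy
  rw [hy, hy₀]
  abel

variable {Λ : Type*} (I : Λ → Finset κ) (hI : ∀ l, Even (I l).card)
  (v : Λ → TateMod 2 (Jac F α)) (hv : ∀ l, (v l).1 1 = DS (ThJ F α) (I l))

include h2 hI hv in
theorem unit_odd {l l' : Λ} (h : Odd (I l ∩ I l').card) : IsUnit (Bj α h2 (v l) (v l')) := by
  rw [isUnit_iff_toZModPow, Ne, BB_mod, hv, hv]
  have h3 := e2_DS (isClasses_ThJ (F := F) α) (I l) (I l') (hI l)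
  intro h4
  rw [show Pool.Agent.N171.e (crv (lf F α)) (ThJ F α) 2 (DS (ThJ F α) (I l))
    (DS (ThJ F α) (I l')) = _ from h3, h.neg_one_pow] at h4
  exact neg_one_ne h2 h4

include h2 hI hv in
theorem not_two_one {l : Λ} (h : (I l).Nonempty) : ¬ ∃ u, (2 : ℤ_[2]) • u = v l := by
  rintro ⟨u, hu⟩
  have h1 : (v l).1 1 = 0 := by
    rw [← hu]
    have e2 : ((2 : ℤ_[2]) • u) = (2 : ℕ) • u := by
      rw [← tm_natCast_smul]
      norm_num
    rw [e2]
    change (2 : ℕ) • u.1 (0 + 1) = 0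
    rw [tm_succ, tm_zero]
  have h3 : DS (ThJ F α) (I l) = 0 := by rw [← hv, h1]
  obtain ⟨i, hi⟩ := h
  have h5 := e2_DS (isClasses_ThJ (F := F) α) (I l) {i} (hI l)
  have h6 : I l ∩ {i} = {i} := by
    rw [Finset.inter_eq_right, Finset.singleton_subset_iff]
    exact hi
  rw [h6, Finset.card_singleton, pow_one, h3] at h5
  have h7 : e2 (ThJ F α) 0 (DS (ThJ F α) {i}) = 1 :=
    e_zero_left (isCurve_crv (lf F α)) (isClasses_ThJ (F := F) α) even_two
      (two_DS (isClasses_ThJ (F := F) α) _)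
  rw [h7] at h5
  exact neg_one_ne h2 h5.symm

include hv in
theorem two_empty {l : Λ} (h : I l = ∅) : ∃ u, (2 : ℤ_[2]) • u = v l := by
  apply two_of_shift
  rw [hv, h]
  exact Finset.sum_empty

include hv in
theorem span_one_aux {f : κ → ZMod 2}
    (hf : f ∈ AddSubgroup.closure (Set.range fun l => ind (I l))) :
    ∃ w ∈ Submodule.span ℤ_[2] ({x | ∃ l, (I l).Nonempty ∧ v l = x} ∪
      {x : TateMod 2 (Jac F α) | ∃ y, (2 : ℤ_[2]) • y = x}),
      w.1 1 = Phi (isClasses_ThJ (F := F) α) f := by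
  induction hf using AddSubgroup.closure_induction with
  | mem f hf =>
    obtain ⟨l, rfl⟩ := hf
    rcases (I l).eq_empty_or_nonempty with h | h
    · refine ⟨v l, Submodule.subset_span (Or.inr (two_empty α I v hv h)), ?_⟩
      rw [hv, Phi_ind]
    · refine ⟨v l, Submodule.subset_span (Or.inl ⟨l, h, rfl⟩), ?_⟩
      rw [hv, Phi_ind]
  | zero =>
    refine ⟨0, Submodule.zero_mem _, ?_⟩
    rw [map_zero]
    rfl
  | add f g _ _ hf hg =>
    obtain ⟨w, hw, h⟩ := hf
    obtain ⟨w', hw', h'⟩ := hg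
    refine ⟨w + w', Submodule.add_mem _ hw hw', ?_⟩
    rw [map_add, ← h, ← h']
    rfl
  | neg f _ hf =>
    obtain ⟨w, hw, h⟩ := hf
    refine ⟨-w, Submodule.neg_mem _ hw, ?_⟩
    rw [map_neg, ← h]
    rfl

include hv in
theorem span_one (hspan : ∀ i j : κ, i ≠ j →
      ind {i, j} ∈ AddSubgroup.closure (Set.range fun l => ind (I l)))
    (x : TateMod 2 (Jac F α)) :
    x ∈ Submodule.span ℤ_[2] ({x | ∃ l, (I l).Nonempty ∧ v l = x} ∪
      {x : TateMod 2 (Jac F α) | ∃ y, (2 : ℤ_[2]) • y = x}) := by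
  have h1 : (2 : ℕ) • x.1 1 = 0 := by
    have h := tm_tors x 1
    rw [pow_one] at h
    exact h
  obtain ⟨f, hf, hfx⟩ := exists_even (isClasses_ThJ (F := F) α) h1
  obtain ⟨w, hw, hw1⟩ := span_one_aux α I v hv (mem_of_pairs _ hspan hf)
  have h3 : (x - w).1 1 = 0 := by
    change x.1 1 - w.1 1 = 0
    rw [hw1, hfx, sub_self]
  obtain ⟨y, hy⟩ := two_of_shift α h3
  have h4 : x = w + (2 : ℤ_[2]) • y := by
    rw [hy]
    abel
  rw [h4]
  exact Submodule.add_mem _ hw (Submodule.subset_span (Or.inr ⟨y, rfl⟩))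

end one

section all

variable {K : Type*} [Field K] {F : Type*} [Field F] [Algebra K F] [IsAlgClosed F] {ι : Type*}
  [Fintype ι] [DecidableEq ι] {κ : ι → Type*} [∀ i, Fintype (κ i)] [∀ i, DecidableEq (κ i)]
  (α : ∀ i, κ i → K) [∀ i, Hyp (α i)] (h2 : (2 : F) ≠ 0) {Λ : Type*}
  (I : Λ → ∀ i, Finset (κ i)) (hI : ∀ l i, Even (I l i).card)

instance instFinOne' (i : ι) : Module.Finite ℤ_[2] (TateMod 2 (Jac F (α i))) :=
  tm_finite (finite_two (isClasses_ThJ (F := F) (α i)))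

instance instFreeOne' (i : ι) : Module.Free ℤ_[2] (TateMod 2 (Jac F (α i))) := tm_free

include hI in
/-- **Joint tangent vectors of the Tate modules of the Jacobians and a lattice.** -/
theorem tan_geom (h2 : (2 : F) ≠ 0) (l : Λ → (Kˣ →* ℤˣ))
    {d : ℕ} (t : (F ≃ₐ[K] F) →* Matrix (Fin d) (Fin d) ℤ_[2])
    (hlt : ∀ k (u : Kˣ) (r : F), r ^ 2 = algebraMap K F u →
      (∀ s : F ≃ₐ[K] F, (∀ x : F, x ^ 8 = 1 → s x = x) → (∃ Z, t s = 1 + (4 : ℤ_[2]) • Z) →
        s r = r) → l k u = 1)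
    (hspan : ∀ i (x y : κ i), x ≠ y →
      ind {x, y} ∈ AddSubgroup.closure (Set.range fun l => ind (I l i)))
    (hconn : ∀ i (k k' : Λ), (I k i).Nonempty → (I k' i).Nonempty →
      Relation.ReflTransGen (fun k k' => Odd (I k i ∩ I k' i).card) k k')
    (hsep : ∀ i j, i ≠ j → ∃ k, ((I k i).Nonempty ∧ I k j = ∅) ∨ ((I k j).Nonempty ∧ I k i = ∅))
    (hl : ∀ k i (x y : κ i) (u : Kˣ), (u : K) = α i x - α i y →
      l k u = if x ∈ I k i ∧ y ∈ I k i then -1 else 1)
    {X : ∀ i, Module.End ℤ_[2] (TateMod 2 (Jac F (α i)))} (hX : ∀ i, X i ∈ sp (Bj (α i) h2)) :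
    TanA (RR2 (fun i => tateRep1 F (α i)) t) ((X, 0) :
      (∀ i, Module.End ℤ_[2] (TateMod 2 (Jac F (α i)))) × Matrix (Fin d) (Fin d) ℤ_[2]) := by
  classical
  choose v hv using fun k i => lift_one (F := F) (α i)
    (two_DS (isClasses_ThJ (F := F) (α i)) (I k i))
  choose σ hσN hσ using fun k : Λ => exists_sigmaN (F := F) α (NW t) (l k) (fun u r hr hN =>
    hlt k u r hr fun s hs8 hs4 => hN s ⟨hs8, hs4⟩)
  refine tan_all (B := fun i => Bj (α i) h2) (cyc K F) (fun i s x y => Bj_act (α i) h2 s x y)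
    (fun i x => BB_self _ _ _ _) (fun i v hv => Bj_nd (α i) h2 v hv) (fun k i => v k i)
    (fun i k => (I k i).Nonempty) σ (fun k => cyc_eight h2 (hσN k).1) (fun k => (hσN k).2)
    (fun k i x => act_one (α i) h2 (σ k) (hI k i) (hv k i) ?_ x) ?_
    (fun i x => span_one (α i) (fun k => I k i) (fun k => v k i) (fun k => hv k i) (hspan i) x) ?_
    hX
  · have h3 := hs_of (F := F) α (r := i) (hσ k i) (hl k i)
    exact h3
  · intro i k k' hk hk'
    have key : ∀ k', Relation.ReflTransGen (fun k k' => Odd (I k i ∩ I k' i).card) k k' →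
        Relation.ReflTransGen (fun l l' => (I l i).Nonempty ∧ (I l' i).Nonempty ∧
          IsUnit (Bj (α i) h2 (v l i) (v l' i))) k k' := by
      intro k' h
      induction h with
      | refl => exact Relation.ReflTransGen.refl
      | @tail a b _ hab ih =>
        have h1 : (I a i ∩ I b i).Nonempty := by
          rw [Finset.nonempty_iff_ne_empty]
          intro h0
          rw [h0, Finset.card_empty] at hab
          exact absurd hab (by decide)
        refine ih.tail ⟨h1.mono Finset.inter_subset_left, h1.mono Finset.inter_subset_right,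
          unit_odd (α i) h2 (fun k => I k i) (fun k => hI k i) (fun k => v k i)
            (fun k => hv k i) hab⟩
    exact key k' (hconn i k k' hk hk')
  · intro i j hij
    right
    obtain ⟨k, h | h⟩ := hsep i j hij
    · exact Or.inl ⟨k, not_two_one (α i) h2 (fun k => I k i) (fun k => hI k i) (fun k => v k i)
        (fun k => hv k i) h.1, two_empty (α j) (fun k => I k j) (fun k => v k j)
        (fun k => hv k j) h.2⟩
    · exact Or.inr ⟨k, not_two_one (α j) h2 (fun k => I k j) (fun k => hI k j) (fun k => v k j)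
        (fun k => hv k j) h.1, two_empty (α i) (fun k => I k i) (fun k => v k i)
        (fun k => hv k i) h.2⟩

end all

end

end Run7.h870.TE
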