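import Mathlib
import Pool.Agent.N171.AsmW
import Pool.Agent.N171.Chr

/-!
# The double covers of the line with branch points in a finite set

`a i` are `n` distinct elements of `K`.  For every set `S` of at least three indices there is one curve:
the double cover of the projective line whose branch points are the `a i`, for `i` in `S`, and, if the
number of elements of `S` is odd, the point at infinity.
-/

set_option linter.unusedSectionVars false

namespace Run7.h870.TE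

open Polynomial PadicInt TensorProduct Pool.Agent.H204R3.GP Pool.Agent.N171

noncomputable section

/-- Distinct points in a field of characteristic different from two. -/
class Pts {K : Type*} [Field K] {n : ℕ} (a : Fin n → K) : Prop where
  inj : Function.Injective a
  two : (2 : K) ≠ 0

/-- The sets of at least three indices. -/
abbrev Cv (n : ℕ) : Type := {S : Finset (Fin n) // 3 ≤ S.card}

/-- The pairs of indices. -/
abbrev Pr (n : ℕ) : Type := {p : Fin n × Fin n // p.1 < p.2}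

variable {n : ℕ}

/-- The smallest element of `S`. -/
def mn (S : Cv n) : Fin n := S.1.min' (Finset.card_pos.1 (lt_of_lt_of_le (by norm_num) S.2))

/-- The indices of the branch points at finite distance: all elements of `S` if their number is odd, and
all elements except for the smallest one if it is even. -/
def Br (S : Cv n) : Finset (Fin n) := if Even S.1.card then S.1.erase (mn S) else S.1

/-- The branch points at finite distance: `a i`, for `i` in `S`, if the number of elements of `S` is odd.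
If it is even, then the model of `y ^ 2 = ∏ i ∈ S, (x - a i)` with the branch point `a m` at infinity
(`m` is the smallest element of `S`) is used; its branch points are `c / (a i - a m)`, where
`c = ∏ (a m - a j)`. -/
def rt {K : Type*} [Field K] (a : Fin n → K) (S : Cv n) (i : {i // i ∈ Br S}) : K :=
  if Even S.1.card then (∏ j ∈ Br S, (a (mn S) - a j)) / (a i - a (mn S)) else a i

theorem mn_mem (S : Cv n) : mn S ∈ S.1 := Finset.min'_mem _ _

theorem mn_le {S : Cv n} {i : Fin n} (h : i ∈ S.1) : mn S ≤ i := Finset.min'_le _ _ h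

theorem Br_even {S : Cv n} (h : Even S.1.card) : Br S = S.1.erase (mn S) := if_pos h

theorem Br_odd {S : Cv n} (h : ¬ Even S.1.card) : Br S = S.1 := if_neg h

theorem Br_sub (S : Cv n) : Br S ⊆ S.1 := by
  unfold Br
  split_ifs
  · exact Finset.erase_subset _ _
  · exact fun _ h => h

theorem odd_Br (S : Cv n) : Odd (Br S).card := by
  by_cases h : Even S.1.card
  · rw [Br_even h, Finset.card_erase_of_mem (mn_mem S)]
    obtain ⟨k, hk⟩ := h
    have := S.2
    exact ⟨k - 1, by omega⟩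
  · rw [Br_odd h]
    exact Nat.not_even_iff_odd.1 h

theorem three_le_Br (S : Cv n) : 3 ≤ (Br S).card := by
  by_cases h : Even S.1.card
  · rw [Br_even h, Finset.card_erase_of_mem (mn_mem S)]
    obtain ⟨k, hk⟩ := h
    have := S.2
    omega
  · rw [Br_odd h]
    exact S.2

theorem mn_notMem {S : Cv n} (h : Even S.1.card) : mn S ∉ Br S := by
  rw [Br_even h]
  exact Finset.notMem_erase _ _

section field

variable {K : Type*} [Field K] (a : Fin n → K)

theorem sub_ne [Pts a] {i j : Fin n} (h : i ≠ j) : a i - a j ≠ 0 :=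
  sub_ne_zero.2 fun h' => h (Pts.inj h')

theorem cprod_ne [Pts a] {S : Cv n} (h : Even S.1.card) :
    (∏ j ∈ Br S, (a (mn S) - a j)) ≠ 0 :=
  Finset.prod_ne_zero_iff.2 fun j hj => sub_ne a fun h' => mn_notMem h (h' ▸ hj)

instance [Pts a] (S : Cv n) : Hyp (rt a S) where
  inj := by
    intro i j hij
    apply Subtype.ext
    unfold rt at hij
    split_ifs at hij with h
    · have hi : (i : Fin n) ≠ mn S := fun h' => mn_notMem h (h' ▸ i.2)
      have hj : (j : Fin n) ≠ mn S := fun h' => mn_notMem h (h' ▸ j.2)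
      rw [div_eq_div_iff (sub_ne a hi) (sub_ne a hj)] at hij
      have h1 := mul_left_cancel₀ (cprod_ne a h) hij
      exact (Pts.inj (a := a) (sub_left_injective h1)).symm
    · exact Pts.inj (a := a) hij
  odd := by
    rw [Fintype.card_coe]
    exact odd_Br S
  two := Pts.two a

/-- The model with a branch point at infinity: the curve `y ^ 2 = ∏ i ∈ S, (x - a i)` with `S` of even
cardinality `2 * g + 2` and the curve `y ^ 2 = ∏ i, (x - rt a S i)` are isomorphic by
`(x, y) ↦ (c / (x - a m), c ^ g * y / (x - a m) ^ (g + 1))`. -/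
theorem model [Pts a] {S : Cv n} {g : ℕ} (hS : S.1.card = 2 * g + 2) {x : K} (hx : x ≠ a (mn S)) :
    ∏ i : {i // i ∈ Br S}, ((∏ j ∈ Br S, (a (mn S) - a j)) / (x - a (mn S)) - rt a S i) =
      (∏ j ∈ Br S, (a (mn S) - a j)) ^ (2 * g) * (∏ i ∈ S.1, (x - a i)) /
        (x - a (mn S)) ^ (2 * g + 2) := by
  have hev : Even S.1.card := ⟨g + 1, by omega⟩
  set c := ∏ j ∈ Br S, (a (mn S) - a j) with hc
  have hx0 : x - a (mn S) ≠ 0 := sub_ne_zero.2 hx
  have hcard : (Br S).card = 2 * g + 1 := by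
    rw [Br_even hev, Finset.card_erase_of_mem (mn_mem S), hS]
    omega
  have h1 : ∀ i : {i // i ∈ Br S}, c / (x - a (mn S)) - rt a S i =
      (c / (x - a (mn S))) * ((x - a i) * (a (mn S) - a i)⁻¹) := by
    intro i
    have hi : (i : Fin n) ≠ mn S := fun h' => mn_notMem hev (h' ▸ i.2)
    have h3 := sub_ne a hi
    have h4 := sub_ne a (Ne.symm hi)
    unfold rt
    rw [if_pos hev, ← hc]
    field_simp
    ring
  rw [Finset.prod_congr rfl fun i _ => h1 i, Finset.prod_mul_distrib, Finset.prod_mul_distrib,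
    Finset.prod_const, Finset.card_univ, Fintype.card_coe, hcard]
  have h2 : ∏ i : {i // i ∈ Br S}, (x - a i) = ∏ i ∈ Br S, (x - a i) :=
    Finset.prod_coe_sort (Br S) fun i => x - a i
  have h3 : ∏ i : {i // i ∈ Br S}, (a (mn S) - a i)⁻¹ = c⁻¹ := by
    rw [Finset.prod_coe_sort (Br S) fun i => (a (mn S) - a i)⁻¹, Finset.prod_inv_distrib]
  have h4 : ∏ i ∈ S.1, (x - a i) = (x - a (mn S)) * ∏ i ∈ Br S, (x - a i) := by
    rw [Br_even hev, Finset.mul_prod_erase S.1 (fun i => x - a i) (mn_mem S)]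
  rw [h2, h3, h4, div_pow]
  have hc0 : c ≠ 0 := cprod_ne a hev
  field_simp
  ring

end field

/-! ### the sets -/

/-- The set of the reflection. -/
def Jp (p : Pr n) (S : Cv n) : Finset (Fin n) :=
  if p.1.1 ∈ S.1 ∧ p.1.2 ∈ S.1 then
    (if Even S.1.card ∧ p.1.1 = mn S then (Br S).erase p.1.2 else {p.1.1, p.1.2}) else ∅

theorem snd_mem_Br {p : Pr n} {S : Cv n} (h : p.1.1 ∈ S.1 ∧ p.1.2 ∈ S.1) : p.1.2 ∈ Br S := by
  by_cases he : Even S.1.card
  · rw [Br_even he]
    exact Finset.mem_erase.2 ⟨(lt_of_le_of_lt (mn_le h.1) p.2).ne', h.2⟩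
  · rw [Br_odd he]
    exact h.2

theorem fst_mem_Br {p : Pr n} {S : Cv n} (h : p.1.1 ∈ S.1 ∧ p.1.2 ∈ S.1)
    (h' : ¬ (Even S.1.card ∧ p.1.1 = mn S)) : p.1.1 ∈ Br S := by
  by_cases he : Even S.1.card
  · rw [Br_even he]
    exact Finset.mem_erase.2 ⟨fun h'' => h' ⟨he, h''⟩, h.1⟩
  · rw [Br_odd he]
    exact h.1

theorem Jp_sub (p : Pr n) (S : Cv n) : Jp p S ⊆ Br S := by
  unfold Jp
  split_ifs with h h'
  · exact Finset.erase_subset _ _
  · intro i hi
    rcases Finset.mem_insert.1 hi with rfl | hi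
    · exact fst_mem_Br h h'
    · rw [Finset.mem_singleton.1 hi]
      exact snd_mem_Br h
  · exact Finset.empty_subset _

theorem Jp_even (p : Pr n) (S : Cv n) : Even (Jp p S).card := by
  unfold Jp
  split_ifs with h h'
  · rw [Finset.card_erase_of_mem (snd_mem_Br h)]
    obtain ⟨k, hk⟩ := odd_Br S
    exact ⟨k, by omega⟩
  · rw [Finset.card_pair p.2.ne]
    exact ⟨1, rfl⟩
  · rw [Finset.card_empty]
    exact ⟨0, rfl⟩

theorem Jp_nonempty {p : Pr n} {S : Cv n} (h : p.1.1 ∈ S.1 ∧ p.1.2 ∈ S.1) :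
    (Jp p S).Nonempty := by
  unfold Jp
  rw [if_pos h]
  split_ifs with h'
  · rw [← Finset.card_pos, Finset.card_erase_of_mem (snd_mem_Br h)]
    have := three_le_Br S
    omega
  · exact ⟨_, Finset.mem_insert_self _ _⟩

theorem Jp_empty {p : Pr n} {S : Cv n} (h : ¬ (p.1.1 ∈ S.1 ∧ p.1.2 ∈ S.1)) : Jp p S = ∅ :=
  if_neg h

theorem mem_of_Jp {p : Pr n} {S : Cv n} (h : (Jp p S).Nonempty) : p.1.1 ∈ S.1 ∧ p.1.2 ∈ S.1 := by
  by_contra h'
  rw [Jp_empty h'] at h
  exact Finset.not_nonempty_empty h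

/-- The set of the reflection, as a set of branch points. -/
def Ip (p : Pr n) (S : Cv n) : Finset {i // i ∈ Br S} := (Jp p S).subtype (· ∈ Br S)

theorem mem_Ip {p : Pr n} {S : Cv n} {i : {i // i ∈ Br S}} : i ∈ Ip p S ↔ (i : Fin n) ∈ Jp p S :=
  Finset.mem_subtype

theorem card_sub_inter {S : Cv n} {A B : Finset (Fin n)} (hA : A ⊆ Br S) :
    (A.subtype (· ∈ Br S) ∩ B.subtype (· ∈ Br S)).card = (A ∩ B).card := by
  have h1 : A.subtype (· ∈ Br S) ∩ B.subtype (· ∈ Br S) = (A ∩ B).subtype (· ∈ Br S) := by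
    ext i
    simp only [Finset.mem_inter, Finset.mem_subtype]
  rw [h1, Finset.card_subtype, Finset.filter_true_of_mem]
  intro i hi
  exact hA (Finset.mem_inter.1 hi).1

theorem Ip_even (p : Pr n) (S : Cv n) : Even (Ip p S).card := by
  unfold Ip
  rw [Finset.card_subtype, Finset.filter_true_of_mem fun i hi => Jp_sub p S hi]
  exact Jp_even p S

theorem Ip_nonempty {p : Pr n} {S : Cv n} : (Ip p S).Nonempty ↔ p.1.1 ∈ S.1 ∧ p.1.2 ∈ S.1 := by
  constructor
  · rintro ⟨i, hi⟩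
    exact mem_of_Jp ⟨i, mem_Ip.1 hi⟩
  · intro h
    obtain ⟨i, hi⟩ := Jp_nonempty h
    exact ⟨⟨i, Jp_sub p S hi⟩, mem_Ip.2 hi⟩

/-- The ordered pair. -/
def pr {i j : Fin n} (h : i ≠ j) : Pr n :=
  if h' : i < j then ⟨(i, j), h'⟩ else ⟨(j, i), lt_of_le_of_ne (not_lt.1 h') (Ne.symm h)⟩

theorem pr_mem {i j : Fin n} (h : i ≠ j) {S : Cv n} :
    ((pr h).1.1 ∈ S.1 ∧ (pr h).1.2 ∈ S.1) ↔ (i ∈ S.1 ∧ j ∈ S.1) := by
  unfold pr
  split_ifs
  · rfl
  · exact and_comm

theorem Jp_pr {i j : Fin n} (h : i ≠ j) {S : Cv n} (hi : i ∈ Br S) (hj : j ∈ Br S) :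
    Jp (pr h) S = {i, j} := by
  unfold Jp
  rw [if_pos ((pr_mem h).2 ⟨Br_sub S hi, Br_sub S hj⟩)]
  unfold pr
  split_ifs with h1 h2 h2
  · exact absurd (h2.2 ▸ hi) (mn_notMem h2.1)
  · rfl
  · exact absurd (h2.2 ▸ hj) (mn_notMem h2.1)
  · exact Finset.pair_comm _ _

theorem ind_Ip_pr {i j : Fin n} (h : i ≠ j) {S : Cv n} (hi : i ∈ Br S) (hj : j ∈ Br S) :
    Ip (pr h) S = {(⟨i, hi⟩ : {i // i ∈ Br S}), ⟨j, hj⟩} := by
  ext x
  rw [mem_Ip, Jp_pr h hi hj]
  simp only [Finset.mem_insert, Finset.mem_singleton, Subtype.ext_iff]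

/-! ### connectedness -/

/-- Odd intersections. -/
def Rl (S : Cv n) (p p' : Pr n) : Prop := Odd (Jp p S ∩ Jp p' S).card

theorem Rl_symm {S : Cv n} {p p' : Pr n} (h : Rl S p p') : Rl S p' p := by
  unfold Rl at *
  rwa [Finset.inter_comm]

theorem pr_comm {i j : Fin n} (h : i ≠ j) : pr h = pr (Ne.symm h) := by
  unfold pr
  split_ifs with h1 h2 h2
  · exact absurd h2 (not_lt.2 h1.le)
  · rfl
  · rfl
  · exact absurd (lt_of_le_of_ne (not_lt.1 h1) (Ne.symm h)) h2

theorem step_pr {S : Cv n} {i j k : Fin n} (hij : i ≠ j) (hjk : j ≠ k) (hi : i ∈ Br S)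
    (hj : j ∈ Br S) (hk : k ∈ Br S) : Relation.ReflTransGen (Rl S) (pr hij) (pr hjk) := by
  by_cases hik : i = k
  · subst hik
    rw [pr_comm hij]
  · refine Relation.ReflTransGen.single ?_
    unfold Rl
    rw [Jp_pr hij hi hj, Jp_pr hjk hj hk]
    have h1 : ({i, j} ∩ {j, k} : Finset (Fin n)) = {j} := by
      ext x
      simp only [Finset.mem_inter, Finset.mem_insert, Finset.mem_singleton]
      constructor
      · rintro ⟨rfl | rfl, h2 | h2⟩
        · exact h2
        · exact absurd h2 hik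
        · rfl
        · rfl
      · rintro rfl
        exact ⟨Or.inr rfl, Or.inl rfl⟩
    rw [h1, Finset.card_singleton]
    exact odd_one

theorem conn_pr {S : Cv n} {i j k l : Fin n} (hij : i ≠ j) (hkl : k ≠ l) (hi : i ∈ Br S)
    (hj : j ∈ Br S) (hk : k ∈ Br S) (hl : l ∈ Br S) :
    Relation.ReflTransGen (Rl S) (pr hij) (pr hkl) := by
  by_cases hjk : j = k
  · subst hjk
    exact step_pr hij hkl hi hj hl
  · exact (step_pr hij hjk hi hj hk).trans (step_pr hjk hkl hj hk hl)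

theorem pr_self {p : Pr n} : pr p.2.ne = p := by
  unfold pr
  rw [dif_pos p.2]

theorem exists_conn {S : Cv n} {p : Pr n} (h : p.1.1 ∈ S.1 ∧ p.1.2 ∈ S.1) :
    ∃ (i j : Fin n) (hij : i ≠ j), i ∈ Br S ∧ j ∈ Br S ∧
      Relation.ReflTransGen (Rl S) p (pr hij) ∧ Relation.ReflTransGen (Rl S) (pr hij) p := by
  by_cases h' : Even S.1.card ∧ p.1.1 = mn S
  · have h2 := snd_mem_Br h
    obtain ⟨j, hj, hne⟩ : ∃ j ∈ Br S, j ≠ p.1.2 := by
      have := three_le_Br S
      exact Finset.exists_mem_ne (by omega) _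
    have h3 : Rl S p (pr (Ne.symm hne)) := by
      unfold Rl
      rw [Jp_pr (Ne.symm hne) h2 hj]
      have h4 : Jp p S = (Br S).erase p.1.2 := by
        unfold Jp
        rw [if_pos h, if_pos h']
      have h5 : (Br S).erase p.1.2 ∩ {p.1.2, j} = {j} := by
        ext x
        simp only [Finset.mem_inter, Finset.mem_insert, Finset.mem_singleton, Finset.mem_erase]
        constructor
        · rintro ⟨⟨h6, -⟩, h7 | h7⟩
          · exact absurd h7 h6
          · exact h7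
        · rintro rfl
          exact ⟨⟨hne, hj⟩, Or.inr rfl⟩
      rw [h4, h5, Finset.card_singleton]
      exact odd_one
    exact ⟨p.1.2, j, Ne.symm hne, h2, hj, Relation.ReflTransGen.single h3,
      Relation.ReflTransGen.single (Rl_symm h3)⟩
  · refine ⟨p.1.1, p.1.2, p.2.ne, fst_mem_Br h h', snd_mem_Br h, ?_, ?_⟩ <;> rw [pr_self]

theorem conn_all {S : Cv n} {p p' : Pr n} (h : p.1.1 ∈ S.1 ∧ p.1.2 ∈ S.1)
    (h' : p'.1.1 ∈ S.1 ∧ p'.1.2 ∈ S.1) : Relation.ReflTransGen (Rl S) p p' := by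
  obtain ⟨i, j, hij, hi, hj, h1, -⟩ := exists_conn h
  obtain ⟨k, l, hkl, hk, hl, -, h2⟩ := exists_conn h'
  exact (h1.trans (conn_pr hij hkl hi hj hk hl)).trans h2

theorem exists_sep {S S' : Cv n} (h : S ≠ S') : ∃ p : Pr n,
    ((p.1.1 ∈ S.1 ∧ p.1.2 ∈ S.1) ∧ ¬ (p.1.1 ∈ S'.1 ∧ p.1.2 ∈ S'.1)) ∨
    ((p.1.1 ∈ S'.1 ∧ p.1.2 ∈ S'.1) ∧ ¬ (p.1.1 ∈ S.1 ∧ p.1.2 ∈ S.1)) := by
  have key : ∀ {S S' : Cv n}, ¬ S.1 ⊆ S'.1 → ∃ p : Pr n,
      (p.1.1 ∈ S.1 ∧ p.1.2 ∈ S.1) ∧ ¬ (p.1.1 ∈ S'.1 ∧ p.1.2 ∈ S'.1) := by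
    intro S S' h
    obtain ⟨i, hi, hi'⟩ := Finset.not_subset.1 h
    obtain ⟨j, hj, hne⟩ : ∃ j ∈ S.1, j ≠ i := by
      have := S.2
      exact Finset.exists_mem_ne (by omega) _
    refine ⟨pr (Ne.symm hne), (pr_mem _).2 ⟨hi, hj⟩, fun h' => ?_⟩
    exact hi' ((pr_mem _).1 h').1
  by_cases h1 : S.1 ⊆ S'.1
  · have h2 : ¬ S'.1 ⊆ S.1 := fun h2 => h (Subtype.ext (Finset.Subset.antisymm h1 h2))
    obtain ⟨p, hp⟩ := key h2
    exact ⟨p, Or.inr hp⟩
  · obtain ⟨p, hp⟩ := key h1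
    exact ⟨p, Or.inl hp⟩

end

end Run7.h870.TE
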