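import Mathlib
import Pool.Agent.Run7.h870.TE.Tc
import Pool.Agent.Run7.h870.TE.Geom

/-!
# The double covers of the line with branch points in a finite set: the characters and the tangent
# vectors

The parts on the values of the characters are copies of parts of `Pool.Agent.N171.TcM` and
`Pool.Agent.N171.Chr`.
-/

set_option linter.unusedSectionVars false
set_option autoImplicit false

namespace Run7.h870.TE

open Polynomial PadicInt Module Pool.Agent.N171 Pool.Agent.N171.Al Pool.Agent.N171.Bg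
  Pool.Agent.N171.TG Pool.Agent.H204R3.GP

noncomputable section

/-- Characters with prescribed values, which are trivial on a subgroup that contains the squares. -/
theorem exists_charH {G : Type*} [CommGroup G] {X : Type*} [Fintype X] [DecidableEq X] (u : X → G)
    (H : Subgroup G) (hH : ∀ g : G, g ^ 2 ∈ H)
    (x₀ : X) (h : ∀ P : Finset X, x₀ ∉ P → u x₀ * ∏ x ∈ P, u x ∉ H) :
    ∃ l : G →* ℤˣ, (∀ g ∈ H, l g = 1) ∧ l (u x₀) = -1 ∧ ∀ x, x ≠ x₀ → l (u x) = 1 := by
  classical
  let V := Additive (G ⧸ H)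
  have hV : ∀ x : V, 2 • x = 0 := by
    intro x
    obtain ⟨g, hg⟩ := QuotientGroup.mk_surjective (Additive.toMul x)
    apply Additive.toMul.injective
    rw [toMul_nsmul, ← hg, toMul_zero, ← QuotientGroup.mk_pow, QuotientGroup.eq_one_iff]
    exact hH g
  let _ : Module (ZMod 2) V := AddCommGroup.zmodModule hV
  let q : G → V := fun g => Additive.ofMul (g : G ⧸ H)
  have hq : ∀ g g', q (g * g') = q g + q g' := fun g g' => rfl
  have hq1 : q 1 = 0 := rfl
  have hqp : ∀ (P : Finset X), q (∏ x ∈ P, u x) = ∑ x ∈ P, q (u x) := by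
    intro P
    induction P using Finset.induction_on with
    | empty => rw [Finset.prod_empty, Finset.sum_empty, hq1]
    | insert a s ha ih => rw [Finset.prod_insert ha, Finset.sum_insert ha, hq, ih]
  have hq0 : ∀ g, q g = 0 → g ∈ H := by
    intro g hg
    have h1 : (g : G ⧸ H) = 1 := hg
    rwa [QuotientGroup.eq_one_iff] at h1
  have hq2 : ∀ g ∈ H, q g = 0 := by
    intro g hg
    have h1 : (g : G ⧸ H) = 1 := (QuotientGroup.eq_one_iff g).2 hg
    exact h1
  let p : Submodule (ZMod 2) V := Submodule.span (ZMod 2)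
    (Set.range fun x : {x // x ≠ x₀} => q (u x))
  have hp : q (u x₀) ∉ p := by
    intro hmem
    obtain ⟨c, hc⟩ := (Submodule.mem_span_range_iff_exists_fun (ZMod 2)).1 hmem
    let P : Finset X := (Finset.univ.filter fun x : {x // x ≠ x₀} => c x ≠ 0).map
      (Function.Embedding.subtype _)
    have hP : x₀ ∉ P := by
      intro hx
      obtain ⟨⟨y, hy⟩, -, hyx⟩ := Finset.mem_map.1 hx
      exact hy hyx
    have hsum : ∑ x ∈ P, q (u x) = q (u x₀) := by
      rw [← hc, Finset.sum_map, Finset.sum_filter]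
      refine Finset.sum_congr rfl fun x _ => ?_
      rcases (by decide : ∀ z : ZMod 2, z = 0 ∨ z = 1) (c x) with h1 | h1
      · rw [h1, if_neg (by simp), zero_smul]
      · rw [h1, if_pos (by decide), one_smul]
        rfl
    have h2 : q (u x₀ * ∏ x ∈ P, u x) = 0 := by
      rw [hq, hqp, hsum, ← two_nsmul]
      exact hV _
    exact h P hP (hq0 _ h2)
  obtain ⟨f, hf, hpf⟩ := Submodule.exists_le_ker_of_notMem hp
  refine ⟨⟨⟨fun g => sgn2 (f (q g)), ?_⟩, ?_⟩, ?_, ?_, ?_⟩
  · change sgn2 (f (q 1)) = 1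
    rw [hq1, map_zero, sgn2_zero]
  · intro g g'
    change sgn2 (f (q (g * g'))) = sgn2 (f (q g)) * sgn2 (f (q g'))
    rw [hq, map_add, sgn2_add]
  · intro g hg
    change sgn2 (f (q g)) = 1
    rw [hq2 g hg, map_zero, sgn2_zero]
  · exact sgn2_ne hf
  · intro x hx
    change sgn2 (f (q (u x))) = 1
    have h1 : q (u x) ∈ p := Submodule.subset_span ⟨⟨x, hx⟩, rfl⟩
    have h2 : f (q (u x)) = 0 := hpf h1
    rw [h2, sgn2_zero]

/-- The elements of `Kˣ` whose square roots are fixed by the elements of `N`. -/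
def sqH {K F : Type*} [Field K] [Field F] [Algebra K F] [IsAlgClosed F]
    (N : Subgroup (F ≃ₐ[K] F)) : Subgroup Kˣ where
  carrier := {u | ∀ r : F, r ^ 2 = algebraMap K F u → ∀ s ∈ N, s r = r}
  one_mem' := by
    intro r hr s _
    rw [Units.val_one, map_one, ← one_pow 2] at hr
    rcases sq_eq_sq_iff_eq_or_eq_neg.1 hr with rfl | rfl
    · rw [map_one]
    · rw [map_neg, map_one]
  mul_mem' := by
    intro u u' hu hu' r hr s hs
    obtain ⟨x, hx⟩ := IsAlgClosed.exists_pow_nat_eq (algebraMap K F u) two_pos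
    obtain ⟨y, hy⟩ := IsAlgClosed.exists_pow_nat_eq (algebraMap K F u') two_pos
    have h1 : r ^ 2 = (x * y) ^ 2 := by
      rw [hr, mul_pow, hx, hy, Units.val_mul, map_mul]
    have h2 : s (x * y) = x * y := by rw [map_mul, hu x hx s hs, hu' y hy s hs]
    rcases sq_eq_sq_iff_eq_or_eq_neg.1 h1 with h | h
    · rw [h, h2]
    · rw [h, map_neg, h2]
  inv_mem' := by
    intro u hu r hr s hs
    have h1 : (r⁻¹) ^ 2 = algebraMap K F u := by
      rw [inv_pow, hr, Units.val_inv_eq_inv_val, map_inv₀, inv_inv]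
    have h2 := hu _ h1 s hs
    rw [map_inv₀] at h2
    exact inv_injective h2

theorem sq_mem_sqH {K F : Type*} [Field K] [Field F] [Algebra K F] [IsAlgClosed F]
    (N : Subgroup (F ≃ₐ[K] F)) (g : Kˣ) : g ^ 2 ∈ sqH N := by
  intro r hr s _
  rw [Units.val_pow_eq_pow_val, map_pow] at hr
  rcases sq_eq_sq_iff_eq_or_eq_neg.1 hr with h | h
  · rw [h, s.commutes]
  · rw [h, map_neg, s.commutes]

variable {n : ℕ} {K : Type*} [Field K] (a : Fin n → K)

open Classical in
/-- The difference of two points as a unit. -/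
def dd (i j : Fin n) : Kˣ := if h : a i - a j = 0 then 1 else Units.mk0 _ h

theorem dd_coe [Pts a] {i j : Fin n} (h : i ≠ j) : (dd a i j : K) = a i - a j := by
  unfold dd
  rw [dif_neg (sub_ne a h)]
  rfl

/-- The characters. -/
theorem exists_lH [Pts a] (H : Subgroup Kˣ) (hH : ∀ g : Kˣ, g ^ 2 ∈ H)
    (h : ∀ P : Finset (Pr n), P.Nonempty → ∏ p ∈ P, dd a p.1.1 p.1.2 ∉ H) (p₀ : Pr n) :
    ∃ l : Kˣ →* ℤˣ, (∀ g ∈ H, l g = 1) ∧
      ∀ p : Pr n, l (dd a p.1.1 p.1.2) = if p = p₀ then -1 else 1 := by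
  classical
  obtain ⟨l, hH', hl0, hl⟩ := exists_charH (fun p : Pr n => dd a p.1.1 p.1.2) H hH p₀ (by
    intro P hP hg
    refine h (insert p₀ P) (Finset.insert_nonempty _ _) ?_
    rwa [Finset.prod_insert hP])
  refine ⟨l, hH', fun p => ?_⟩
  split_ifs with hp
  · subst hp
    exact hl0
  · exact hl p hp

/-- The pair of `p`. -/
def hit (p : Pr n) (i j : Fin n) : Prop := (i = p.1.1 ∧ j = p.1.2) ∨ (i = p.1.2 ∧ j = p.1.1)

instance (p : Pr n) (i j : Fin n) : Decidable (hit p i j) := inferInstanceAs (Decidable (_ ∨ _))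

theorem l_dd [Pts a] {l : Kˣ →* ℤˣ} {p₀ : Pr n} (hl1 : l (-1) = 1)
    (hl : ∀ p : Pr n, l (dd a p.1.1 p.1.2) = if p = p₀ then -1 else 1) {i j : Fin n}
    (hij : i ≠ j) : l (dd a i j) = if hit p₀ i j then -1 else 1 := by
  rcases lt_or_gt_of_ne hij with h | h
  · have h1 := hl ⟨(i, j), h⟩
    change l (dd a i j) = _ at h1
    rw [h1]
    apply if_congr _ rfl rfl
    unfold hit
    constructor
    · rintro rfl
      exact Or.inl ⟨rfl, rfl⟩
    · rintro (⟨h2, h3⟩ | ⟨h2, h3⟩)
      · exact Subtype.ext (Prod.ext h2 h3)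
      · have h4 := p₀.2
        rw [← h2, ← h3] at h4
        exact absurd h4 (not_lt.2 h.le)
  · have h1 := hl ⟨(j, i), h⟩
    change l (dd a j i) = _ at h1
    have h2 : dd a i j = (-1) * dd a j i := by
      apply Units.ext
      rw [Units.val_mul, dd_coe a hij, dd_coe a (Ne.symm hij), Units.val_neg, Units.val_one]
      ring
    rw [h2, map_mul, hl1, one_mul, h1]
    apply if_congr _ rfl rfl
    unfold hit
    constructor
    · rintro rfl
      exact Or.inr ⟨rfl, rfl⟩
    · rintro (⟨h2, h3⟩ | ⟨h2, h3⟩)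
      · have h4 := p₀.2
        rw [← h2, ← h3] at h4
        exact absurd h4 (not_lt.2 h.le)
      · exact Subtype.ext (Prod.ext h3 h2)

/-- The values of the characters at the differences of the branch points. -/
theorem l_rt [Pts a] {l : Kˣ →* ℤˣ} {p₀ : Pr n} (hl1 : l (-1) = 1)
    (hl : ∀ p : Pr n, l (dd a p.1.1 p.1.2) = if p = p₀ then -1 else 1) (S : Cv n)
    (i j : {i // i ∈ Br S}) (u : Kˣ) (hu : (u : K) = rt a S i - rt a S j) :
    l u = if i ∈ Ip p₀ S ∧ j ∈ Ip p₀ S then -1 else 1 := by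
  have hld := @l_dd n K _ a _ l p₀ hl1 hl
  have hij : (i : Fin n) ≠ j := by
    intro h
    apply u.ne_zero
    rw [hu, Subtype.ext h, sub_self]
  simp only [mem_Ip]
  by_cases hev : Even S.1.card
  · -- even
    have hmB := mn_notMem hev
    set m := mn S with hm
    have hi : (i : Fin n) ≠ m := fun h' => hmB (h' ▸ i.2)
    have hj : (j : Fin n) ≠ m := fun h' => hmB (h' ▸ j.2)
    have h1 : u = (∏ x ∈ Br S, dd a m x) * dd a j i * (dd a i m)⁻¹ * (dd a j m)⁻¹ := by
      apply Units.ext
      have h2 : ((∏ x ∈ Br S, dd a m x : Kˣ) : K) = ∏ x ∈ Br S, (a m - a x) := by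
        rw [Units.coe_prod]
        exact Finset.prod_congr rfl fun x hx => dd_coe a fun h' => hmB (h' ▸ hx)
      rw [Units.val_mul, Units.val_mul, Units.val_mul, Units.val_inv_eq_inv_val,
        Units.val_inv_eq_inv_val, h2, dd_coe a hi, dd_coe a hj, dd_coe a (Ne.symm hij), hu]
      unfold rt
      rw [if_pos hev, if_pos hev]
      have h3 := sub_ne a hi
      have h4 := sub_ne a hj
      rw [← hm]
      field_simp
      ring
    have hinv : ∀ x : Kˣ, l x⁻¹ = l x := by
      intro x
      rw [map_inv, Int.units_inv_eq_self]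
    rw [h1, map_mul, map_mul, map_mul, map_prod, hinv, hinv, hld (Ne.symm hij), hld hi, hld hj]
    have h5 : ∏ x ∈ Br S, l (dd a m x) = ∏ x ∈ Br S, if hit p₀ m x then (-1 : ℤˣ) else 1 :=
      Finset.prod_congr rfl fun x hx => hld fun h' => hmB (h' ▸ hx)
    rw [h5]
    by_cases hS : p₀.1.1 ∈ S.1 ∧ p₀.1.2 ∈ S.1
    · by_cases hb : p₀.1.1 = m
      · -- the pair contains the smallest element
        have h6 : Jp p₀ S = (Br S).erase p₀.1.2 := by
          unfold Jp
          rw [if_pos hS, if_pos ⟨hev, hb⟩]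
        have h7 : ∀ x ∈ Br S, hit p₀ m x ↔ x = p₀.1.2 := by
          intro x hx
          unfold hit
          constructor
          · rintro (h8 | h8)
            · exact h8.2
            · exact absurd (h8.1.symm.trans hb.symm) p₀.2.ne'
          · intro h8
            exact Or.inl ⟨hb.symm, h8⟩
        have h8 : ∏ x ∈ Br S, (if hit p₀ m x then (-1 : ℤˣ) else 1) = -1 := by
          rw [Finset.prod_congr rfl fun x hx => if_congr (h7 x hx) rfl rfl,
            Finset.prod_ite_eq' (Br S) p₀.1.2 fun _ => (-1 : ℤˣ), if_pos (snd_mem_Br hS)]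
        have h9 : ¬ hit p₀ j i := by
          rintro (h9 | h9)
          · exact hj (h9.1.trans hb)
          · exact hi (h9.2.trans hb)
        have h10 : hit p₀ i m ↔ (i : Fin n) = p₀.1.2 := by
          unfold hit
          constructor
          · rintro (h11 | h11)
            · exact absurd (h11.1.trans hb) hi
            · exact h11.1
          · intro h11
            exact Or.inr ⟨h11, hb.symm⟩
        have h12 : hit p₀ j m ↔ (j : Fin n) = p₀.1.2 := by
          unfold hit
          constructor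
          · rintro (h11 | h11)
            · exact absurd (h11.1.trans hb) hj
            · exact h11.1
          · intro h11
            exact Or.inr ⟨h11, hb.symm⟩
        rw [h8, if_neg h9, h6, if_congr h10 rfl rfl, if_congr h12 rfl rfl]
        simp only [Finset.mem_erase]
        have hi' := i.2
        have hj' := j.2
        by_cases e1 : (i : Fin n) = p₀.1.2
        · have e2 : ¬ (j : Fin n) = p₀.1.2 := fun e2 => hij (e1.trans e2.symm)
          simp [e1, e2]
        · by_cases e2 : (j : Fin n) = p₀.1.2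
          · simp [e1, e2]
          · simp [e1, e2, hi', hj']
      · -- a pair of branch points at finite distance
        have hb2 : p₀.1.2 ≠ m := (lt_of_le_of_lt (mn_le hS.1) p₀.2).ne'
        have h6 : Jp p₀ S = {p₀.1.1, p₀.1.2} := by
          unfold Jp
          rw [if_pos hS, if_neg (fun h => hb h.2)]
        have hm1 : ∀ x, ¬ hit p₀ m x := by
          rintro x (h7 | h7)
          · exact hb h7.1.symm
          · exact hb2 h7.1.symm
        have hm2 : ∀ x, ¬ hit p₀ x m := by
          rintro x (h7 | h7)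
          · exact hb2 h7.2.symm
          · exact hb h7.2.symm
        rw [Finset.prod_congr rfl fun x _ => if_neg (hm1 x), Finset.prod_const_one, one_mul,
          if_neg (hm2 _), if_neg (hm2 _), mul_one, mul_one, h6]
        apply if_congr _ rfl rfl
        unfold hit
        simp only [Finset.mem_insert, Finset.mem_singleton]
        constructor
        · rintro (⟨h7, h8⟩ | ⟨h7, h8⟩)
          · exact ⟨Or.inr h8, Or.inl h7⟩
          · exact ⟨Or.inl h8, Or.inr h7⟩
        · rintro ⟨h7 | h7, h8 | h8⟩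
          · exact absurd (h7.trans h8.symm) hij
          · exact Or.inr ⟨h8, h7⟩
          · exact Or.inl ⟨h8, h7⟩
          · exact absurd (h7.trans h8.symm) hij
    · have h6 : Jp p₀ S = ∅ := Jp_empty hS
      have h7 : ∀ {x y : Fin n}, x ∈ S.1 → y ∈ S.1 → ¬ hit p₀ x y := by
        rintro x y hx hy (⟨h7, h8⟩ | ⟨h7, h8⟩)
        · exact hS ⟨h7 ▸ hx, h8 ▸ hy⟩
        · exact hS ⟨h8 ▸ hy, h7 ▸ hx⟩
      have hiS := Br_sub S i.2
      have hjS := Br_sub S j.2
      have hmS : m ∈ S.1 := mn_mem S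
      rw [Finset.prod_congr rfl fun x hx => if_neg (h7 hmS (Br_sub S hx)), Finset.prod_const_one,
        if_neg (h7 hjS hiS), if_neg (h7 hiS hmS), if_neg (h7 hjS hmS), h6]
      simp
  · -- odd
    have h1 : u = dd a i j := by
      apply Units.ext
      rw [dd_coe a hij, hu]
      unfold rt
      rw [if_neg hev, if_neg hev]
    rw [h1, hld hij]
    apply if_congr _ rfl rfl
    by_cases hS : p₀.1.1 ∈ S.1 ∧ p₀.1.2 ∈ S.1
    · have h6 : Jp p₀ S = {p₀.1.1, p₀.1.2} := by
        unfold Jp
        rw [if_pos hS, if_neg (fun h => hev h.1)]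
      rw [h6]
      unfold hit
      simp only [Finset.mem_insert, Finset.mem_singleton]
      constructor
      · rintro (⟨h7, h8⟩ | ⟨h7, h8⟩)
        · exact ⟨Or.inl h7, Or.inr h8⟩
        · exact ⟨Or.inr h7, Or.inl h8⟩
      · rintro ⟨h7 | h7, h8 | h8⟩
        · exact absurd (h7.trans h8.symm) hij
        · exact Or.inl ⟨h7, h8⟩
        · exact Or.inr ⟨h7, h8⟩
        · exact absurd (h7.trans h8.symm) hij
    · rw [Jp_empty hS]
      constructor
      · rintro (⟨h7, h8⟩ | ⟨h7, h8⟩)
        · exact absurd ⟨h7 ▸ Br_sub S i.2, h8 ▸ Br_sub S j.2⟩ hS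
        · exact absurd ⟨h8 ▸ Br_sub S j.2, h7 ▸ Br_sub S i.2⟩ hS
      · rintro ⟨h7, -⟩
        exact absurd h7 (Finset.notMem_empty _)

variable {F : Type*} [Field F] [Algebra K F] [IsAlgClosed F]

/-- **Joint tangent vectors for all double covers with branch points in a finite set.** -/
theorem tan_tc [Pts a] (h2 : (2 : F) ≠ 0) {d : ℕ}
    (t : (F ≃ₐ[K] F) →* Matrix (Fin d) (Fin d) ℤ_[2])
    (h : ∀ P : Finset (Pr n), P.Nonempty → ∏ p ∈ P, dd a p.1.1 p.1.2 ∉ sqH (F := F) (NW t))
    {X : ∀ S : Cv n, Module.End ℤ_[2] (TateMod 2 (Jac F (rt a S)))}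
    (hX : ∀ S, X S ∈ sp (Bj (rt a S) h2)) :
    TanA (RR2 (fun S : Cv n => tateRep1 F (rt a S)) t) ((X, 0) :
      (∀ S : Cv n, Module.End ℤ_[2] (TateMod 2 (Jac F (rt a S)))) ×
        Matrix (Fin d) (Fin d) ℤ_[2]) := by
  classical
  choose l hlH hl using exists_lH a (sqH (F := F) (NW t)) (sq_mem_sqH _) h
  have hl1 : ∀ p, l p (-1) = 1 := by
    intro p
    refine hlH p _ ?_
    intro r hr s hs
    refine hs.1 r ?_
    rw [Units.val_neg, Units.val_one, map_neg, map_one] at hr
    calc r ^ 8 = (r ^ 2) ^ 4 := by ring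
      _ = 1 := by rw [hr]; ring
  refine tan_geom (F := F) (rt a) (Λ := Pr n) Ip Ip_even h2 l t (fun p u r hr hs => ?_) ?_ ?_ ?_
    (fun p S i j u hu => l_rt a (hl1 p) (hl p) S i j u hu) hX
  · refine hlH p u ?_
    intro r' hr' s hs'
    have h3 := hs s hs'.1 hs'.2
    have h4 : r' ^ 2 = r ^ 2 := by rw [hr', hr]
    rcases sq_eq_sq_iff_eq_or_eq_neg.1 h4 with h5 | h5
    · rw [h5, h3]
    · rw [h5, map_neg, h3]
  · rintro S ⟨i, hi⟩ ⟨j, hj⟩ hij
    have hij' : i ≠ j := fun h => hij (Subtype.ext h)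
    refine AddSubgroup.subset_closure ⟨pr hij', ?_⟩
    change ind (Ip (pr hij') S) = _
    rw [ind_Ip_pr hij' hi hj]
  · intro S p p' hp hp'
    have h3 := conn_all (Ip_nonempty.1 hp) (Ip_nonempty.1 hp')
    refine Relation.ReflTransGen.mono (fun x y hxy => ?_) _ _ h3
    unfold Ip
    rw [card_sub_inter (Jp_sub x S)]
    exact hxy
  · intro S S' hSS
    obtain ⟨p, hp | hp⟩ := exists_sep hSS
    · refine ⟨p, Or.inl ⟨Ip_nonempty.2 hp.1, ?_⟩⟩
      rw [← Finset.not_nonempty_iff_eq_empty, Ip_nonempty]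
      exact hp.2
    · refine ⟨p, Or.inr ⟨Ip_nonempty.2 hp.1, ?_⟩⟩
      rw [← Finset.not_nonempty_iff_eq_empty, Ip_nonempty]
      exact hp.2

end

end Run7.h870.TE
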