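import Pool.Agent.N197.AP.L_HYP
import Pool.Agent.N197.AP.L_MAT
import Pool.Agent.Run7.h870.TE.TcM

/-!
# The double covers of the line with branch points in a finite set: tangent vectors in matrix form
-/

set_option linter.unusedSectionVars false
set_option autoImplicit false

namespace Run7.h870.TE

open Polynomial PadicInt Module TensorProduct Matrix Filter Topology
open Pool.Agent.Y142.ZS (SpLie)
open Pool.Agent.N171 Pool.Agent.N171.Al Pool.Agent.N171.Bg Pool.Agent.N171.TG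
  Pool.Agent.H204R3.GP Pool.Agent.N197.AP

noncomputable section

/-- The tangent vectors in matrix form: the conclusion of `Pool.Agent.N197.AP.S_HYP`. -/
def TanData {K F : Type} [Field K] [Field F] [Algebra K F] {ι : Type} (f : ι → K[X])
    [∀ i, HypP (f i)] {W : Type} [AddCommGroup W] [Module ℚ_[2] W]
    (τ : Representation ℚ_[2] (F ≃ₐ[K] F) W) : Prop :=
  ∃ (N : ι → ℕ) (d : ℕ) (ρ : ∀ i, (F ≃ₐ[K] F) →* Matrix (Fin (N i)) (Fin (N i)) ℚ_[2])
    (J : ∀ i, Matrix (Fin (N i)) (Fin (N i)) ℚ_[2])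
    (t : (F ≃ₐ[K] F) →* Matrix (Fin d) (Fin d) ℚ_[2]),
    (∀ i, 0 < N i) ∧ (∀ i, (J i)ᵀ = -J i) ∧ (∀ i, (J i).det ≠ 0) ∧
    (∀ i g, (ρ i g)ᵀ * J i * ρ i g = cycQ K F g • J i) ∧
    (∀ i, ∃ e : (Fin (N i) → ℚ_[2]) ≃ₗ[ℚ_[2]] Vt (JacP (f i) F),
      ∀ s x, e (ρ i s *ᵥ x) = vRep (JacP (f i) F) (F ≃ₐ[K] F) s (e x)) ∧
    (∃ e : (Fin d → ℚ_[2]) ≃ₗ[ℚ_[2]] W, ∀ s x, e (t s *ᵥ x) = τ s (e x)) ∧
    ∀ X : ∀ i, Matrix (Fin (N i)) (Fin (N i)) ℚ_[2], (∀ i, SpLie (J i) (X i)) →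
      ∃ σ : ℕ → (F ≃ₐ[K] F),
      (∀ i, Tendsto (fun m : ℕ => (((2 : ℕ) : ℚ_[2]) ^ m)⁻¹ • (ρ i (σ m) - 1)) atTop (𝓝 (X i))) ∧
      Tendsto (fun m : ℕ => (((2 : ℕ) : ℚ_[2]) ^ m)⁻¹ • (t (σ m) - 1)) atTop (𝓝 0)

section jac

variable {K : Type*} [Field K] {κ : Type*} [Fintype κ] (α : κ → K) [Hyp α]

/-- The polynomial `∏ i, (X - α i)` satisfies the hypotheses. -/
instance instHypP_fP : HypP (fP α) where
  monic := monic_prod_of_monic _ _ fun i _ => monic_X_sub_C _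
  sep := by
    unfold fP
    exact separable_prod_X_sub_C_iff.2 (Hyp.inj (α := α))
  odd := by
    rw [fP_natDegree]
    exact Hyp.odd (α := α)
  two := Hyp.two (α := α)

variable (F : Type*) [Field F] [Algebra K F]

theorem fP_map : (fP α).map (algebraMap K F) = fP (lf F α) := by
  unfold fP
  rw [Polynomial.map_prod]
  refine Finset.prod_congr rfl fun i _ => ?_
  rw [Polynomial.map_sub, Polynomial.map_X, Polynomial.map_C]
  rfl

variable {F}

theorem jac_equiv_aux (g : F[X]) (hgE : g = fP (lf F α)) [IsDomain (RG g)]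
    (hg : ∀ s : F ≃ₐ[K] F, g.map ((s : F ≃+* F) : F →+* F) = g) :
    ∃ e : ClG (RG g) ≃+ Jac F α, ∀ (s : F ≃ₐ[K] F) x,
      e (clMap (gRg (hg s)) x) = jacAct α s (e x) := by
  subst hgE
  exact ⟨(AddEquiv.refl (ClG (RG (fP (lf F α)))) : _), fun s x => rfl⟩

/-- The two models of the Jacobian. -/
theorem jac_equiv : ∃ e : JacP (fP α) F ≃+ Jac F α, ∀ (s : F ≃ₐ[K] F) x,
    e (s • x) = jacAct α s (e x) :=
  jac_equiv_aux α ((fP α).map (algebraMap K F)) (fP_map α F) (rf_fix (fP α))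

/-- The rational Tate modules of the two models of the Jacobian. -/
theorem vt_equiv : ∃ e : Vt (JacP (fP α) F) ≃ₗ[ℚ_[2]] (ℚ_[2] ⊗[ℤ_[2]] TateMod 2 (Jac F α)),
    ∀ (s : F ≃ₐ[K] F) x, e (vRep (JacP (fP α) F) (F ≃ₐ[K] F) s x) =
      ratRep (tateRep1 F α) s (e x) := by
  obtain ⟨e, he⟩ := jac_equiv (F := F) α
  have h1 : (vMap (e : JacP (fP α) F →+ Jac F α)).comp
      (vMap (e.symm : Jac F α →+ JacP (fP α) F)) = LinearMap.id := by
    rw [← vMap_comp]
    have h0 : (e : JacP (fP α) F →+ Jac F α).comp (e.symm : Jac F α →+ JacP (fP α) F) =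
        AddMonoidHom.id _ := AddMonoidHom.ext fun x => e.apply_symm_apply x
    rw [h0]
    exact vMap_id
  have h2 : (vMap (e.symm : Jac F α →+ JacP (fP α) F)).comp
      (vMap (e : JacP (fP α) F →+ Jac F α)) = LinearMap.id := by
    rw [← vMap_comp]
    have h0 : (e.symm : Jac F α →+ JacP (fP α) F).comp (e : JacP (fP α) F →+ Jac F α) =
        AddMonoidHom.id _ := AddMonoidHom.ext fun x => e.symm_apply_apply x
    rw [h0]
    exact vMap_id
  refine ⟨(LinearEquiv.ofLinear (vMap (e : JacP (fP α) F →+ Jac F α))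
    (vMap (e.symm : Jac F α →+ JacP (fP α) F)) h1 h2 :
      Vt (JacP (fP α) F) ≃ₗ[ℚ_[2]] Vt (Jac F α)), fun s x => ?_⟩
  have h3 : (vMap (e : JacP (fP α) F →+ Jac F α)).comp (vMap (act s)) =
      (vMap (jacAct α s)).comp (vMap (e : JacP (fP α) F →+ Jac F α)) := by
    rw [← vMap_comp, ← vMap_comp]
    congr 1
    exact AddMonoidHom.ext fun x => he s x
  exact congrArg (fun f => f x) h3

end jac

/-- **Tangent vectors in matrix form for all double covers with branch points in a finite set.** -/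
theorem tanData_tc {n : ℕ} {K F : Type} [Field K] [Field F] [Algebra K F] [IsAlgClosed F]
    (a : Fin n → K) [Pts a] {W : Type} [AddCommGroup W] [Module ℚ_[2] W]
    (τ : Representation ℚ_[2] (F ≃ₐ[K] F) W) {d : ℕ} (b : Module.Basis (Fin d) ℚ_[2] W)
    (hb : ∀ s, TrivMod b (τ s) 0)
    (h : ∀ P : Finset (Pr n), P.Nonempty → ¬ ∀ r : F,
      r ^ 2 = algebraMap K F (∏ p ∈ P, (a p.1.1 - a p.1.2)) →
      ∀ s : F ≃ₐ[K] F, (∀ x : F, x ^ 8 = 1 → s x = x) → TrivMod b (τ s) 2 → s r = r) :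
    TanData (fun S : Cv n => fP (rt a S)) τ := by
  classical
  have h2 : (2 : F) ≠ 0 := by
    have h1 : (2 : F) = algebraMap K F 2 := by rw [map_ofNat]
    rw [h1, Ne, map_eq_zero]
    exact Pts.two a
  obtain ⟨t, ht, ht4⟩ := lat_data hb
  have hH : ∀ P : Finset (Pr n), P.Nonempty →
      ∏ p ∈ P, dd a p.1.1 p.1.2 ∉ sqH (F := F) (NW t) := by
    intro P hP hmem
    refine h P hP fun r hr s hs8 hs4 => ?_
    refine hmem r ?_ s ⟨hs8, ht4 s hs4⟩
    rw [hr, Units.coe_prod]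
    congr 1
    exact Finset.prod_congr rfl fun p _ => (dd_coe a p.2.ne).symm
  have hfin : ∀ S : Cv n, Module.Finite ℤ_[2] (TateMod 2 (Jac F (rt a S))) :=
    fun S => tm_finite (finite_two (isClasses_ThJ (F := F) (rt a S)))
  have hfree : ∀ S : Cv n, Module.Free ℤ_[2] (TateMod 2 (Jac F (rt a S))) := fun S => tm_free
  let bT : ∀ S : Cv n, Basis (Fin (finrank ℤ_[2] (TateMod 2 (Jac F (rt a S))))) ℤ_[2]
      (TateMod 2 (Jac F (rt a S))) := fun S => Module.finBasis ℤ_[2] _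
  obtain ⟨ρ', J, t', k1, k2, k3, k4, k5, k6⟩ := t_MAT (Cv n) (fun S => TateMod 2 (Jac F (rt a S)))
    (F ≃ₐ[K] F) (fun S => tateRep1 F (rt a S)) (fun S => Bj (rt a S) h2) (cyc K F)
    (fun S => finrank ℤ_[2] (TateMod 2 (Jac F (rt a S)))) bT d t
    (fun S x => BB_self _ _ _ _) (fun S v hv => Bj_nd (rt a S) h2 v hv)
    (fun S s x y => Bj_act (rt a S) h2 s x y)
    (fun X hX => tan_tc a h2 t hH hX)
  refine ⟨_, d, ρ', J, t', fun S => ?_, k3, k4, k5, fun S => ?_, ?_, k6⟩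
  · have hc : 1 < Fintype.card {i // i ∈ Br S} := by
      rw [Fintype.card_coe]
      exact lt_of_lt_of_le (by norm_num) (three_le_Br S)
    obtain ⟨x, y, hxy⟩ := Fintype.exists_pair_of_one_lt_card hc
    obtain ⟨v, hv⟩ := lift_one (F := F) (rt a S)
      (two_DS (isClasses_ThJ (F := F) (rt a S)) ({x, y} : Finset {i // i ∈ Br S}))
    have h3 := not_two_one (F := F) (rt a S) h2 (Λ := Unit) (fun _ => {x, y}) (fun _ => by
      rw [Finset.card_pair hxy]
      exact even_two) (fun _ => v) (fun _ => hv) (l := ()) ⟨x, Finset.mem_insert_self _ _⟩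
    have hn : Nontrivial (TateMod 2 (Jac F (rt a S))) :=
      ⟨⟨v, 0, fun h0 => h3 ⟨0, by rw [smul_zero, h0]⟩⟩⟩
    exact Module.finrank_pos
  · obtain ⟨e, he⟩ := vt_equiv (F := F) (rt a S)
    refine ⟨(Algebra.TensorProduct.basis ℚ_[2] (bT S)).equivFun.symm.trans e.symm,
      fun s x => ?_⟩
    have h3 := hyp_coord (Algebra.TensorProduct.basis ℚ_[2] (bT S))
      (ratRep (tateRep1 F (rt a S)) s) (ρ' S s) (by
        rw [k1]
        exact LinearMap.toMatrix_baseChange ℚ_[2] (tateRep1 F (rt a S) s) (bT S) (bT S)) x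
    rw [LinearEquiv.trans_apply, LinearEquiv.trans_apply, h3]
    apply e.injective
    rw [LinearEquiv.apply_symm_apply, he, LinearEquiv.apply_symm_apply]
  · refine ⟨b.equivFun.symm, fun s x => ?_⟩
    refine hyp_coord _ (τ s) (t' s) ?_ x
    rw [k2]
    ext i j
    rw [LinearMap.toMatrix_apply, ht, Matrix.map_apply, map_sum, Finsupp.finsetSum_apply,
      Finset.sum_eq_single i]
    · rw [map_smul, Finsupp.smul_apply, Module.Basis.repr_self, Finsupp.single_eq_same,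
        smul_eq_mul, mul_one]
    · intro k _ hk
      rw [map_smul, Finsupp.smul_apply, Module.Basis.repr_self, Finsupp.single_eq_of_ne hk.symm,
        smul_zero]
    · intro h
      exact absurd (Finset.mem_univ _) h

end

end Run7.h870.TE
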