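import Pool.Agent.N197.AP.Fin2
import Pool.Agent.Run7.h870.TE.Mat

/-!
# From tangent vectors to Tate classes at every prime number
-/

set_option autoImplicit false

open Polynomial Filter Topology NumberField IsDedekindDomain Module Matrix
open Pool.Agent.Y142.ZO Pool.Agent.Y142.ZI Pool.Agent.Y142.ZS
open Pool.Agent.N166.CZ (IsTateModule ProductsWith)
open Pool.Agent.N171 Pool.Agent.N197.Htj Pool.Agent.N197.AP
open scoped Classical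

namespace Run7.h870.TE

/-- from the tangent vectors to all prime numbers -/
theorem holds_of_tan {K : Type} [Field K] [NumberField K] {ι : Type} [Fintype ι] [Nonempty ι]
    (f : ι → K[X]) [∀ i, HypP (f i)] {n d m : ℕ} {w : ℤ}
    (τ : GK K →* Matrix (Fin d) (Fin d) ℚ_[2]) (hτ : Continuous τ) (hTan : TanData f (matRep τ))
    (S : Set (HeightOneSpectrum (𝓞 K))) (hS : S.Finite)
    (P : HeightOneSpectrum (𝓞 K) → ℚ[X]) (Q : HeightOneSpectrum (𝓞 K) → ℚ[X])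
    (hP : ∀ v ∉ S, ∀ z : ℂ, aeval z (P v) = 0 →
      ‖z‖ ^ 2 = (Ideal.absNorm v.asIdeal : ℝ) ∧ IsIntegral ℤ ((Ideal.absNorm v.asIdeal : ℂ) ^ m * z))
    (hQ : ∀ v ∉ S, ∀ z : ℂ, aeval z (Q v) = 0 →
      ‖z‖ ^ 2 = (Ideal.absNorm v.asIdeal : ℝ) ^ w ∧
        IsIntegral ℤ ((Ideal.absNorm v.asIdeal : ℂ) ^ m * z))
    (R : GK K →* Matrix (Fin n) (Fin n) ℚ_[2]) (hR : Continuous R)
    (E : (Fin n → ℚ_[2]) ≃ₗ[ℚ_[2]] (∀ i, Vt (JacP (f i) (AlgebraicClosure K))))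
    (hE : ∀ g x i, E (R g *ᵥ x) i = vRep (JacP (f i) (AlgebraicClosure K)) (GK K) g (E x i))
    (hRP : ∀ v ∉ S, (2 : 𝓞 K) ∉ v.asIdeal → ∀ σ : GK K, IsFrobenius v σ →
      (R σ).charpoly = (P v).map (Rat.castHom ℚ_[2]))
    (hτQ : ∀ v ∉ S, (2 : 𝓞 K) ∉ v.asIdeal → ∀ σ : GK K, IsFrobenius v σ →
      (τ σ⁻¹).charpoly = (Q v).map (Rat.castHom ℚ_[2]))
    (ℓ : ℕ) [hℓ : Fact ℓ.Prime] (V M : Type) [AddCommGroup V] [Module ℚ_[ℓ] V]
    [FiniteDimensional ℚ_[ℓ] V] [AddCommGroup M] [Module ℚ_[ℓ] M] [FiniteDimensional ℚ_[ℓ] M]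
    (r : Representation ℚ_[ℓ] (GK K) V) (c : GK K →* ℚ_[ℓ])
    (s : Representation ℚ_[ℓ] (GK K) M) (hr : IsTateModule r c)
    (hf : ∀ v ∉ S, (ℓ : 𝓞 K) ∉ v.asIdeal → ∀ σ : GK K, IsFrobenius v σ →
      c σ = (Ideal.absNorm v.asIdeal : ℚ_[ℓ]) ∧
      LinearMap.charpoly (r σ) = (P v).map (Rat.castHom ℚ_[ℓ]) ∧
      LinearMap.charpoly (s σ⁻¹) = (Q v).map (Rat.castHom ℚ_[ℓ])) :
    ProductsWith r c s := by
  obtain ⟨N, d', ρ, J, t, hN, hJ, hdet, hsim, hiso, ⟨e', he'⟩, hfull⟩ :=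
    hTan
  obtain ⟨hg1, hg2⟩ := t_GLUE ι N (GK K) ρ (fun i => Vt (JacP (f i) (AlgebraicClosure K)))
    (fun i => vRep (JacP (f i) (AlgebraicClosure K)) (GK K)) hiso n R E hE
  obtain ⟨hg3, hg4⟩ := t_GLUE0 (GK K) d' d t τ e' he'
  obtain ⟨h1, h2, h3, h4, h5⟩ := t_BLOCK ι N d' (GK K) ρ t J hJ hdet hfull
  obtain ⟨i₀⟩ := ‹Nonempty ι›
  have hn : 0 < ∑ i, N i := Finset.sum_pos (fun i _ => hN i) ⟨i₀, Finset.mem_univ _⟩
  refine main20 t_PLACE2' t_TATE2 (m := m) (w := w) hn (hg2 hR) (hg4 hτ) h2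
    (h3 (cycQ K (AlgebraicClosure K)) fun i g => hsim i g) h1
    (S := S ∪ {v | ((2 : ℕ) : 𝓞 K) ∈ v.asIdeal})
    (hS.union (Pool.Agent.N197.AP.finite_above 2 Nat.prime_two)) (P := P) (Q := Q)
    (fun v hv σ hσ => ?_) (fun v hv => ⟨hP v fun h => hv (Or.inl h), hQ v fun h => hv (Or.inl h)⟩)
    (r := r) hr (T := S ∪ {v | (ℓ : 𝓞 K) ∈ v.asIdeal}) (hS.union (Pool.Agent.N197.AP.finite_above ℓ hℓ.out))
    fun v hv σ hσ => ?_
  · have hv1 : v ∉ S := fun h => hv (Or.inl h)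
    have hv2 : (2 : 𝓞 K) ∉ v.asIdeal := fun h => hv (Or.inr (by
      rw [Set.mem_setOf_eq, Nat.cast_ofNat]; exact h))
    refine ⟨?_, ?_, t_CYC K v σ hv2 hσ⟩
    · rw [hg1]
      exact hRP v hv1 hv2 σ hσ
    · rw [hg3]
      exact hτQ v hv1 hv2 σ hσ
  · have hv1 : v ∉ S := fun h => hv (Or.inl h)
    have hv2 : (ℓ : 𝓞 K) ∉ v.asIdeal := fun h => hv (Or.inr h)
    obtain ⟨h6, h7, h8⟩ := hf v hv1 hv2 σ hσ
    refine ⟨h6, h7, ?_⟩
    rw [← h8]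
    exact LinearMap.aeval_self_charpoly _


theorem trivMod_int {G : Type} [Group G] {d : ℕ} (τ : G →* Matrix (Fin d) (Fin d) ℚ_[2])
    (hint : ∀ g a b, ‖τ g a b‖ ≤ 1) (s : G) :
    TrivMod (Pi.basisFun ℚ_[2] (Fin d)) (Pool.Agent.N197.AP.matRep τ s) 0 :=
  Pool.Agent.N197.AP.trivMod_int τ hint s

theorem repr_matRep {G : Type} [Group G] {d : ℕ} (τ : G →* Matrix (Fin d) (Fin d) ℚ_[2])
    (s : G) (i j : Fin d) : (Pi.basisFun ℚ_[2] (Fin d)).repr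
      (Pool.Agent.N197.AP.matRep τ s (Pi.basisFun ℚ_[2] (Fin d) i)) j = τ s j i := by
  rw [Pi.basisFun_repr, Pi.basisFun_apply, matRep_apply, mulVec_single_one]
  rfl

/-- congruence modulo four in the standard basis -/
theorem trivMod_two_iff {G : Type} [Group G] {d : ℕ} (τ : G →* Matrix (Fin d) (Fin d) ℚ_[2])
    (s : G) : TrivMod (Pi.basisFun ℚ_[2] (Fin d)) (Pool.Agent.N197.AP.matRep τ s) 2 ↔
      ∀ a b, ‖(τ s - 1) a b‖ ≤ 1 / 4 := by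
  have h3 : ‖(2 : ℚ_[2]) ^ 2‖ = 1 / 4 := by
    have := Padic.norm_p (p := 2)
    rw [Nat.cast_ofNat] at this
    rw [norm_pow, this]
    norm_num
  have hne : (2 : ℚ_[2]) ^ 2 ≠ 0 := by
    intro h
    rw [h, norm_zero] at h3
    norm_num at h3
  have hab : ∀ a b : Fin d, (if a = b then (1 : ℚ_[2]) else 0) = if b = a then 1 else 0 := by
    intro a b
    by_cases hab : a = b
    · rw [if_pos hab, if_pos hab.symm]
    · rw [if_neg hab, if_neg (Ne.symm hab)]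
  constructor
  · intro h a b
    obtain ⟨z, hz⟩ := h b a
    rw [repr_matRep] at hz
    rw [Matrix.sub_apply, hz, Matrix.one_apply, hab a b, add_sub_cancel_left, norm_mul, h3]
    have h4 : ‖(z : ℚ_[2])‖ ≤ 1 := z.2
    linarith
  · intro h i j
    rw [repr_matRep]
    have h2 := h j i
    have h4 : ‖((2 : ℚ_[2]) ^ 2)⁻¹ * (τ s - 1) j i‖ ≤ 1 := by
      rw [norm_mul, norm_inv, h3]
      linarith
    refine ⟨⟨_, h4⟩, ?_⟩
    show τ s j i = (if i = j then 1 else 0) + 2 ^ 2 * (((2 : ℚ_[2]) ^ 2)⁻¹ * (τ s - 1) j i)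
    rw [mul_inv_cancel_left₀ hne, Matrix.sub_apply, Matrix.one_apply, hab i j]
    ring

end Run7.h870.TE
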