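import Pool.Agent.H373R2.T4.DivB
import Pool.Agent.Run7.h870.TE.Cnt

/-!
# Counting integer tuples for which a product of differences is a square up to a given factor
-/

set_option autoImplicit false
set_option linter.all false

namespace Run7.h870.TE

open Finset
open scoped Classical Pointwise

theorem dvd_of_primes {d w : ℕ} (hd : Squarefree d) (hw : w ≠ 0)
    (h : ∀ q : ℕ, q.Prime → q ∣ d → q ∣ w) : d ∣ w := by
  rw [← Nat.prod_primeFactors_of_squarefree hd]
  refine (Finset.prod_dvd_prod_of_subset _ _ _ fun q hq => ?_).trans (Nat.prod_primeFactors_dvd w)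
  rw [Nat.mem_primeFactors] at hq ⊢
  exact ⟨hq.1, h q hq.1 hq.2.1, hw⟩

/-- the parity argument -/
theorem prime_dvd_of_square {m t d : ℕ} (hm : m ≠ 0) (ht : t ≠ 0) (hd : Squarefree d)
    (hsq : IsSquare (m * (t ^ 2 * d))) {q : ℕ} (hq : q.Prime) (hqd : q ∣ d) : q ∣ m := by
  by_contra hqm
  obtain ⟨s, hs⟩ := hsq
  have hd0 : d ≠ 0 := hd.ne_zero
  have hs0 : s ≠ 0 := by
    rintro rfl
    rw [mul_zero] at hs
    exact mul_ne_zero hm (mul_ne_zero (pow_ne_zero 2 ht) hd0) hs
  have h1 : (m * (t ^ 2 * d)).factorization q = (s * s).factorization q := by rw [hs]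
  rw [Nat.factorization_mul hm (mul_ne_zero (pow_ne_zero 2 ht) hd0),
    Nat.factorization_mul (pow_ne_zero 2 ht) hd0, Nat.factorization_pow,
    Nat.factorization_mul hs0 hs0] at h1
  simp only [Finsupp.add_apply, Finsupp.smul_apply, smul_eq_mul] at h1
  have h2 : m.factorization q = 0 := Nat.factorization_eq_zero_of_not_dvd hqm
  have h3 : d.factorization q ≤ 1 := hd.natFactorization_le_one q
  have h4 : 1 ≤ d.factorization q := (hq.dvd_iff_one_le_factorization hd0).1 hqd
  omega

theorem natAbs_sub_comm' (a b : ℤ) : (a - b).natAbs = (b - a).natAbs := by omega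

/-- the count on a line -/
theorem card_line {κ : Type} (J : Finset κ) (b : κ → ℤ) {j₁ : κ} (hj : j₁ ∈ J) (v w : ℕ)
    (hw : w ≠ 0) (hvw : v ∣ w) (hbw : ∀ j ∈ J, j ≠ j₁ → (b j₁ - b j).natAbs ∣ w)
    (N : ℕ) (X : Finset ℤ)
    (hX : ∀ x ∈ X, (x - b j₁).natAbs ≤ N ∧ (∀ j ∈ J, x ≠ b j) ∧
      IsSquare (v * ∏ j ∈ J, (x - b j).natAbs)) :
    X.card ≤ 2 * (w.divisors.card * Nat.sqrt N) := by
  have hfac : ∀ x : ℤ, ∃ p : ℕ × ℕ, x ∈ X → p.1 ∈ w.divisors ∧ p.2 ∈ Finset.Icc 1 (Nat.sqrt N) ∧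
      (x - b j₁).natAbs = p.2 ^ 2 * p.1 := by
    intro x
    by_cases hx : x ∈ X
    · obtain ⟨h1, h2, h3⟩ := hX x hx
      have h0 : 0 < (x - b j₁).natAbs := Int.natAbs_pos.2 (sub_ne_zero.2 (h2 j₁ hj))
      obtain ⟨d, t, hd, ht, hdt, hsf⟩ := Nat.sq_mul_squarefree_of_pos h0
      refine ⟨(d, t), fun _ => ⟨?_, ?_, hdt.symm⟩⟩
      · rw [Nat.mem_divisors]
        refine ⟨dvd_of_primes hsf hw fun q hq hqd => ?_, hw⟩
        have hm0 : v * ∏ j ∈ J.erase j₁, (x - b j).natAbs ≠ 0 := by
          refine mul_ne_zero (fun hv => hw (Nat.eq_zero_of_zero_dvd (hv ▸ hvw))) ?_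
          refine Finset.prod_ne_zero_iff.2 fun j hj' => ?_
          exact Int.natAbs_ne_zero.2 (sub_ne_zero.2 (h2 j (Finset.mem_of_mem_erase hj')))
        have hsq : IsSquare ((v * ∏ j ∈ J.erase j₁, (x - b j).natAbs) * (t ^ 2 * d)) := by
          rw [hdt, mul_assoc, mul_comm (∏ j ∈ J.erase j₁, (x - b j).natAbs),
            Finset.mul_prod_erase J (fun j => (x - b j).natAbs) hj]
          exact h3
        have h4 := prime_dvd_of_square hm0 ht.ne' hsf hsq hq hqd
        have h5 : (q : ℤ) ∣ x - b j₁ := by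
          rw [Int.natCast_dvd, ← hdt]
          exact Dvd.dvd.mul_left hqd _
        rcases (Nat.Prime.dvd_mul hq).1 h4 with h6 | h6
        · exact h6.trans hvw
        · obtain ⟨j, hj', h7⟩ := (hq.prime.dvd_finset_prod_iff _).1 h6
          refine Dvd.dvd.trans ?_ (hbw j (Finset.mem_of_mem_erase hj') (Finset.ne_of_mem_erase hj'))
          rw [← Int.natCast_dvd] at h7 ⊢
          have h8 := dvd_sub h7 h5
          have e : x - b j - (x - b j₁) = b j₁ - b j := by ring
          rwa [e] at h8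
      · rw [Finset.mem_Icc]
        refine ⟨ht, ?_⟩
        show t ≤ Nat.sqrt N
        rw [Nat.le_sqrt']
        calc t ^ 2 ≤ t ^ 2 * d := Nat.le_mul_of_pos_right _ hd
          _ = (x - b j₁).natAbs := hdt
          _ ≤ N := h1
    · exact ⟨(0, 0), fun h => absurd h hx⟩
  choose f hf using hfac
  have hmaps : ∀ x ∈ X, (decide (0 ≤ x - b j₁), f x) ∈
      (Finset.univ : Finset Bool) ×ˢ (w.divisors ×ˢ Finset.Icc 1 (Nat.sqrt N)) := by
    intro x hx
    obtain ⟨h1, h2, -⟩ := hf x hx
    rw [Finset.mem_product, Finset.mem_product]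
    exact ⟨Finset.mem_univ _, h1, h2⟩
  have hinj : Set.InjOn (fun x : ℤ => (decide (0 ≤ x - b j₁), f x)) (X : Set ℤ) := by
    intro x hx y hy hxy
    rw [Prod.mk.injEq] at hxy
    obtain ⟨-, -, h1⟩ := hf x hx
    obtain ⟨-, -, h2⟩ := hf y hy
    rw [hxy.2, ← h2] at h1
    have h3 := hxy.1
    rw [decide_eq_decide] at h3
    omega
  have h1 := Finset.card_le_card_of_injOn _ hmaps hinj
  refine h1.trans (le_of_eq ?_)
  rw [Finset.card_product, Finset.card_product, Finset.card_univ, Fintype.card_bool, Nat.card_Icc,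
    Nat.add_sub_cancel]

theorem card_divisors_mul_le (a b : ℕ) :
    (a * b).divisors.card ≤ a.divisors.card * b.divisors.card := by
  rw [Nat.divisors_mul]
  exact Finset.card_mul_le

section tuples

variable {n : ℕ}

/-- the cube of side `N` -/
noncomputable def cube (n : ℕ) (M : ℤ) (N : ℕ) : Finset (Fin n → ℤ) :=
  Fintype.piFinset fun _ => Finset.Ioc M (M + N)

theorem cube_card (M : ℤ) (N : ℕ) : (cube n M N).card = N ^ n := by
  unfold cube
  rw [Fintype.card_piFinset]
  simp

theorem cube_sub {M : ℤ} {N : ℕ} {a : Fin n → ℤ} (ha : a ∈ cube n M N) (i j : Fin n) :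
    (a i - a j).natAbs ≤ N := by
  have h1 := Finset.mem_Ioc.1 (Fintype.mem_piFinset.1 ha i)
  have h2 := Finset.mem_Ioc.1 (Fintype.mem_piFinset.1 ha j)
  omega

/-- the image of the cube when one coordinate is replaced by zero -/
theorem card_image (M : ℤ) (N : ℕ) (i : Fin n) :
    ((cube n M N).image fun a => Function.update a i 0).card ≤ N ^ (n - 1) := by
  have hsub : ((cube n M N).image fun a => Function.update a i 0) ⊆
      Fintype.piFinset fun j : Fin n => if j = i then ({0} : Finset ℤ) else Finset.Ioc M (M + N) := by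
    intro c hc
    obtain ⟨a, ha, rfl⟩ := Finset.mem_image.1 hc
    rw [Fintype.mem_piFinset]
    intro j
    by_cases hj : j = i
    · rw [if_pos hj, hj, Function.update_self]
      exact Finset.mem_singleton_self _
    · rw [if_neg hj, Function.update_of_ne hj]
      exact Fintype.mem_piFinset.1 ha j
  refine (Finset.card_le_card hsub).trans (le_of_eq ?_)
  rw [Fintype.card_piFinset]
  have h1 : ∀ j : Fin n, (if j = i then ({0} : Finset ℤ) else Finset.Ioc M (M + N)).card =
      if j = i then 1 else N := by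
    intro j
    split_ifs <;> simp
  rw [Finset.prod_congr rfl fun j _ => h1 j, Finset.prod_ite]
  rw [Finset.prod_const_one, one_mul, Finset.prod_const]
  congr 1
  have h2 : (Finset.univ.filter fun j : Fin n => ¬ j = i) = Finset.univ.erase i := by
    ext j
    simp
  rw [h2, Finset.card_erase_of_mem (Finset.mem_univ _), Finset.card_univ, Fintype.card_fin]

/-- the tuples with two equal coordinates -/
theorem card_eq_coord (M : ℤ) (N : ℕ) {i j : Fin n} (hij : i ≠ j) :
    ((cube n M N).filter fun a => a i = a j).card ≤ N ^ (n - 1) := by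
  refine le_trans ?_ (card_image M N i)
  refine Finset.card_le_card_of_injOn (fun a => Function.update a i 0) (fun a ha => ?_) ?_
  · rw [Finset.mem_coe, Finset.mem_filter] at ha
    exact Finset.mem_coe.2 (Finset.mem_image_of_mem _ ha.1)
  · intro a ha c hc hac
    rw [Finset.mem_coe, Finset.mem_filter] at ha hc
    funext k
    by_cases hk : k = i
    · rw [hk, ha.2, hc.2]
      have h1 := congrFun hac j
      simpa only [Function.update_of_ne (Ne.symm hij)] using h1
    · have h1 := congrFun hac k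
      simpa only [Function.update_of_ne hk] using h1

/-- **the tuples for which a given product of differences is a square up to a given factor** -/
theorem card_square {C δ : ℝ} (hC : 1 ≤ C) (hδ : 0 < δ)
    (hdiv : ∀ m : ℕ, m ≠ 0 → (m.divisors.card : ℝ) ≤ C * (m : ℝ) ^ δ)
    {P : Finset {p : Fin n × Fin n // p.1 < p.2}} (hP : P.Nonempty) {u : ℕ} (hu : u ≠ 0) (M : ℤ)
    {N : ℕ} (hN : 1 ≤ N) :
    (((cube n M N).filter fun a => Function.Injective a ∧
      IsSquare (u * (pd P a).natAbs)).card : ℝ) ≤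
      (N : ℝ) ^ (n - 1) * (2 * (u.divisors.card * (C * ((N : ℝ) ^ (n ^ 2)) ^ δ) * Nat.sqrt N)) := by
  obtain ⟨p₁, hp₁⟩ := hP
  obtain ⟨i, hi⟩ : ∃ i, i = p₁.1.1 := ⟨_, rfl⟩
  obtain ⟨S, hS⟩ : ∃ S, S = (cube n M N).filter fun a => Function.Injective a ∧
      IsSquare (u * (pd P a).natAbs) := ⟨_, rfl⟩
  rw [← hS]
  -- the fibres
  have hNr : (1 : ℝ) ≤ N := by exact_mod_cast hN
  obtain ⟨T, hT⟩ : ∃ T : ℝ, T = 2 * (u.divisors.card * (C * ((N : ℝ) ^ (n ^ 2)) ^ δ) * Nat.sqrt N) :=
    ⟨_, rfl⟩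
  have hT0 : 0 ≤ T := by rw [hT]; positivity
  rw [← hT]
  have hfib : ∀ c ∈ S.image (fun a => Function.update a i 0),
      ((S.filter fun a => Function.update a i 0 = c).card : ℝ) ≤ T := by
    intro c hc
    obtain ⟨a₀, ha₀, rfl⟩ := Finset.mem_image.1 hc
    rw [hS, Finset.mem_filter] at ha₀
    obtain ⟨ha₀c, ha₀i, -⟩ := ha₀
    obtain ⟨X, hX⟩ : ∃ X, X = (S.filter fun a =>
      Function.update a i 0 = Function.update a₀ i 0).image fun a => a i := ⟨_, rfl⟩
    have hcard : (S.filter fun a => Function.update a i 0 = Function.update a₀ i 0).card =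
        X.card := by
      rw [hX, Finset.card_image_of_injOn]
      intro a ha c hc hac
      rw [Finset.mem_coe, Finset.mem_filter] at ha hc
      funext k
      by_cases hk : k = i
      · rw [hk]; exact hac
      · have h1 := congrFun (ha.2.trans hc.2.symm) k
        simpa only [Function.update_of_ne hk] using h1
    obtain ⟨A, hA⟩ : ∃ A, A = P.filter (fun q => q.1.1 = i ∨ q.1.2 = i) := ⟨_, rfl⟩
    obtain ⟨B, hB⟩ : ∃ B, B = P.filter (fun q => ¬ (q.1.1 = i ∨ q.1.2 = i)) := ⟨_, rfl⟩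
    obtain ⟨o, ho⟩ : ∃ o : {p : Fin n × Fin n // p.1 < p.2} → Fin n,
      o = fun q => if q.1.1 = i then q.1.2 else q.1.1 := ⟨_, rfl⟩
    have hoi : ∀ q ∈ A, o q ≠ i := by
      intro q hq
      rw [hA, Finset.mem_filter] at hq
      rw [ho]
      show (if q.1.1 = i then q.1.2 else q.1.1) ≠ i
      by_cases h1 : q.1.1 = i
      · rw [if_pos h1, ← h1]
        exact q.2.ne'
      · rw [if_neg h1]; exact h1
    have hoinj : ∀ q ∈ A, ∀ q' ∈ A, o q = o q' → q = q' := by
      intro q hq q' hq' h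
      rw [hA, Finset.mem_filter] at hq hq'
      have hlt := q.2
      have hlt' := q'.2
      rw [ho] at h
      dsimp only at h
      apply Subtype.ext
      by_cases h1 : q.1.1 = i
      · by_cases h2 : q'.1.1 = i
        · rw [if_pos h1, if_pos h2] at h
          exact Prod.ext (h1.trans h2.symm) h
        · rw [if_pos h1, if_neg h2] at h
          have h3 := hq'.2.resolve_left h2
          rw [h1, h] at hlt
          rw [h3] at hlt'
          exact absurd (hlt.trans hlt') (lt_irrefl _)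
      · have h3 := hq.2.resolve_left h1
        by_cases h2 : q'.1.1 = i
        · rw [if_neg h1, if_pos h2] at h
          rw [h3, h] at hlt
          rw [h2] at hlt'
          exact absurd (hlt.trans hlt') (lt_irrefl _)
        · rw [if_neg h1, if_neg h2] at h
          have h4 := hq'.2.resolve_left h2
          exact Prod.ext h (h3.trans h4.symm)
    have hp₁A : p₁ ∈ A := by
      rw [hA, Finset.mem_filter]
      exact ⟨hp₁, Or.inl hi.symm⟩
    obtain ⟨v, hv⟩ : ∃ v : ℕ, v = u * ∏ q ∈ B, (a₀ q.1.1 - a₀ q.1.2).natAbs := ⟨_, rfl⟩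
    obtain ⟨w', hw'⟩ : ∃ w' : ℕ, w' = (∏ q ∈ B, (a₀ q.1.1 - a₀ q.1.2).natAbs) *
      ∏ q ∈ A.erase p₁, (a₀ (o p₁) - a₀ (o q)).natAbs := ⟨_, rfl⟩
    have hw'0 : w' ≠ 0 := by
      rw [hw']
      refine mul_ne_zero (Finset.prod_ne_zero_iff.2 fun q _ => ?_)
        (Finset.prod_ne_zero_iff.2 fun q hq => ?_)
      · exact Int.natAbs_ne_zero.2 (sub_ne_zero.2 fun h => q.2.ne (ha₀i h))
      · refine Int.natAbs_ne_zero.2 (sub_ne_zero.2 fun h => ?_)
        exact Finset.ne_of_mem_erase hq
          (hoinj p₁ hp₁A q (Finset.mem_of_mem_erase hq) (ha₀i h)).symm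
    have hvw : v ∣ u * w' := by
      rw [hv, hw']
      exact mul_dvd_mul_left u (Dvd.intro _ rfl)
    have hbw : ∀ q ∈ A, q ≠ p₁ → (a₀ (o p₁) - a₀ (o q)).natAbs ∣ u * w' := by
      intro q hq hne
      rw [hw']
      refine Dvd.dvd.mul_left (Dvd.dvd.mul_left ?_ _) _
      exact Finset.dvd_prod_of_mem (fun q => (a₀ (o p₁) - a₀ (o q)).natAbs)
        (Finset.mem_erase.2 ⟨hne, hq⟩)
    have hline := card_line A (fun q => a₀ (o q)) hp₁A v (u * w') (mul_ne_zero hu hw'0) hvw hbw
      N X (fun x hx => by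
      rw [hX, Finset.mem_image] at hx
      obtain ⟨a, ha, rfl⟩ := hx
      rw [Finset.mem_filter, hS, Finset.mem_filter] at ha
      obtain ⟨⟨hac, hai, hsq⟩, hau⟩ := ha
      have hk : ∀ k, k ≠ i → a k = a₀ k := by
        intro k hk
        have h1 := congrFun hau k
        simpa only [Function.update_of_ne hk] using h1
      refine ⟨?_, fun q hq => ?_, ?_⟩
      · rw [← hk _ (hoi p₁ hp₁A)]
        exact cube_sub hac _ _
      · rw [← hk _ (hoi q hq)]
        exact fun h => hoi q hq (hai h).symm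
      · have e1 : v * ∏ q ∈ A, (a i - a₀ (o q)).natAbs = u * (pd P a).natAbs := by
          have e2 : (pd P a).natAbs = ∏ q ∈ P, (a q.1.1 - a q.1.2).natAbs := by
            unfold pd
            exact map_prod Int.natAbsHom _ _
          rw [e2, ← Finset.prod_filter_mul_prod_filter_not P (fun q => q.1.1 = i ∨ q.1.2 = i),
            ← hA, ← hB, hv, mul_assoc]
          congr 1
          rw [mul_comm]
          congr 1
          · refine Finset.prod_congr rfl fun q hq => ?_
            have hq' := hq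
            rw [hA, Finset.mem_filter] at hq'
            rw [← hk _ (hoi q hq), ho]
            show (a i - a (if q.1.1 = i then q.1.2 else q.1.1)).natAbs = _
            by_cases h1 : q.1.1 = i
            · rw [if_pos h1, h1]
            · rw [if_neg h1, hq'.2.resolve_left h1, natAbs_sub_comm']
          · refine Finset.prod_congr rfl fun q hq => ?_
            rw [hB, Finset.mem_filter, not_or] at hq
            rw [hk _ hq.2.1, hk _ hq.2.2]
        rw [e1]
        exact hsq)
    rw [hcard]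
    have hw'N : w' ≤ N ^ (n ^ 2) := by
      have h1 : ∏ q ∈ B, (a₀ q.1.1 - a₀ q.1.2).natAbs ≤ N ^ B.card :=
        Finset.prod_le_pow_card _ _ _ fun q _ => cube_sub ha₀c _ _
      have h2 : ∏ q ∈ A.erase p₁, (a₀ (o p₁) - a₀ (o q)).natAbs ≤ N ^ (A.erase p₁).card :=
        Finset.prod_le_pow_card _ _ _ fun q _ => cube_sub ha₀c _ _
      rw [hw']
      refine (Nat.mul_le_mul h1 h2).trans ?_
      rw [← pow_add]
      apply Nat.pow_le_pow_right hN
      have h3 : (A.erase p₁).card ≤ A.card := Finset.card_le_card (Finset.erase_subset _ _)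
      have h4 : A.card + B.card = P.card := by
        rw [hA, hB]
        exact Finset.card_filter_add_card_filter_not _
      have h5 : P.card ≤ Fintype.card {p : Fin n × Fin n // p.1 < p.2} := Finset.card_le_univ P
      have h6 : Fintype.card {p : Fin n × Fin n // p.1 < p.2} ≤ Fintype.card (Fin n × Fin n) :=
        Fintype.card_subtype_le _
      rw [Fintype.card_prod, Fintype.card_fin, ← sq] at h6
      omega
    have h7 : ((u * w').divisors.card : ℝ) ≤ u.divisors.card * (C * ((N : ℝ) ^ (n ^ 2)) ^ δ) := by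
      have h8 : ((u * w').divisors.card : ℝ) ≤ u.divisors.card * w'.divisors.card := by
        exact_mod_cast card_divisors_mul_le u w'
      refine h8.trans (mul_le_mul_of_nonneg_left ((hdiv w' hw'0).trans ?_) (Nat.cast_nonneg _))
      apply mul_le_mul_of_nonneg_left _ (by linarith)
      apply Real.rpow_le_rpow (Nat.cast_nonneg _) _ hδ.le
      exact_mod_cast hw'N
    calc (X.card : ℝ) ≤ ((2 * ((u * w').divisors.card * Nat.sqrt N) : ℕ) : ℝ) := by
          exact_mod_cast hline
      _ = 2 * ((u * w').divisors.card * Nat.sqrt N) := by push_cast; ring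
      _ ≤ T := by
          rw [hT]
          apply mul_le_mul_of_nonneg_left _ (by norm_num)
          exact mul_le_mul_of_nonneg_right h7 (Nat.cast_nonneg _)
  have h1 : (S.card : ℝ) = ∑ c ∈ S.image (fun a => Function.update a i 0),
      ((S.filter fun a => Function.update a i 0 = c).card : ℝ) := by
    have h2 := Finset.card_eq_sum_card_image (fun a => Function.update a i 0) S
    rw [h2]
    push_cast
    exact Finset.sum_congr rfl fun c _ => rfl
  rw [h1]
  refine (Finset.sum_le_sum hfib).trans ?_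
  rw [Finset.sum_const, nsmul_eq_mul]
  apply mul_le_mul_of_nonneg_right _ hT0
  have h3 : S.image (fun a => Function.update a i 0) ⊆
      (cube n M N).image fun a => Function.update a i 0 := by
    apply Finset.image_subset_image
    rw [hS]
    exact Finset.filter_subset _ _
  exact_mod_cast (Finset.card_le_card h3).trans (card_image M N i)

/-- **The quantitative bound**: all but few integer tuples are injective and no product of differences is
a square up to a factor in `U`. -/
theorem quant (n : ℕ) {ε : ℝ} (hε : 0 < ε) : ∃ C : ℝ, 0 < C ∧ ∀ (κ : Type) (U : Finset κ)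
    (g : κ → ℕ), (∀ u ∈ U, g u ≠ 0) → ∀ (M : ℤ) (N : ℕ), 1 ≤ N →
      (((cube n M N).filter fun a => ¬ (Function.Injective a ∧
        ∀ P : Finset {p : Fin n × Fin n // p.1 < p.2}, P.Nonempty → ∀ u ∈ U,
          ¬ IsSquare (g u * (pd P a).natAbs))).card : ℝ) ≤
      C * (1 + ∑ u ∈ U, ((g u).divisors.card : ℝ)) * (N : ℝ) ^ ((n : ℝ) - 1 / 2 + ε) := by
  rcases Nat.eq_zero_or_pos n with hn0 | hn0
  · -- no tuples are bad
    subst hn0
    refine ⟨1, one_pos, fun κ U g hU M N hN => ?_⟩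
    have hemp : ((cube 0 M N).filter fun a => ¬ (Function.Injective a ∧
        ∀ P : Finset {p : Fin 0 × Fin 0 // p.1 < p.2}, P.Nonempty → ∀ u ∈ U,
          ¬ IsSquare (g u * (pd P a).natAbs))) = ∅ := by
      apply Finset.filter_eq_empty_iff.2
      intro a _ hcon
      apply hcon
      refine ⟨fun i => i.elim0, fun P hP => ?_⟩
      obtain ⟨p, -⟩ := hP
      exact p.1.1.elim0
    rw [hemp, Finset.card_empty, Nat.cast_zero]
    have : 0 ≤ ∑ u ∈ U, ((g u).divisors.card : ℝ) := Finset.sum_nonneg fun _ _ => Nat.cast_nonneg _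
    positivity
  obtain ⟨δ, hδd⟩ : ∃ δ : ℝ, δ = ε / ((n : ℝ) ^ 2 + 1) := ⟨_, rfl⟩
  have hδ : 0 < δ := by rw [hδd]; positivity
  obtain ⟨C, hC, hdiv⟩ := Pool.Agent.H373R2.T4.DivB.div_bound hδ
  refine ⟨(n : ℝ) ^ 2 + 2 ^ (n ^ 2) * (2 * C), by positivity, fun κ U g hU M N hN => ?_⟩
  have hNr : (1 : ℝ) ≤ N := by exact_mod_cast hN
  have hN0 : (0 : ℝ) < N := by linarith
  obtain ⟨Q, hQ⟩ : ∃ Q : ℝ, Q = (N : ℝ) ^ ((n : ℝ) - 1 / 2 + ε) := ⟨_, rfl⟩
  have hQ1 : (N : ℝ) ^ (n - 1) ≤ Q := by
    rw [hQ, ← Real.rpow_natCast]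
    apply Real.rpow_le_rpow_of_exponent_le hNr
    rw [Nat.cast_sub hn0]
    push_cast
    linarith
  have hQ2 : (N : ℝ) ^ (n - 1) * (((N : ℝ) ^ (n ^ 2)) ^ δ * Nat.sqrt N) ≤ Q := by
    have h1 : ((N : ℝ) ^ (n ^ 2)) ^ δ ≤ (N : ℝ) ^ ε := by
      rw [← Real.rpow_natCast, ← Real.rpow_mul hN0.le]
      apply Real.rpow_le_rpow_of_exponent_le hNr
      rw [hδd]
      push_cast
      rw [mul_div_assoc', div_le_iff₀ (by positivity)]
      nlinarith
    have h2 : (Nat.sqrt N : ℝ) ≤ (N : ℝ) ^ (1 / 2 : ℝ) := by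
      rw [← Real.sqrt_eq_rpow]
      exact Real.nat_sqrt_le_real_sqrt
    have h3 : (N : ℝ) ^ (n - 1) = (N : ℝ) ^ ((n : ℝ) - 1) := by
      rw [← Real.rpow_natCast, Nat.cast_sub hn0]
      push_cast
      rfl
    rw [h3, hQ]
    calc (N : ℝ) ^ ((n : ℝ) - 1) * (((N : ℝ) ^ (n ^ 2)) ^ δ * Nat.sqrt N)
        ≤ (N : ℝ) ^ ((n : ℝ) - 1) * ((N : ℝ) ^ ε * (N : ℝ) ^ (1 / 2 : ℝ)) := by
          apply mul_le_mul_of_nonneg_left _ (by positivity)
          exact mul_le_mul h1 h2 (Nat.cast_nonneg _) (by positivity)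
      _ = (N : ℝ) ^ ((n : ℝ) - 1 / 2 + ε) := by
          rw [← Real.rpow_add hN0, ← Real.rpow_add hN0]
          congr 1
          ring
  -- the bad tuples
  obtain ⟨Pw, hPw⟩ : ∃ Pw : Finset (Finset {p : Fin n × Fin n // p.1 < p.2}),
    Pw = Finset.univ.filter Finset.Nonempty := ⟨_, rfl⟩
  have hsub : ((cube n M N).filter fun a => ¬ (Function.Injective a ∧
        ∀ P : Finset {p : Fin n × Fin n // p.1 < p.2}, P.Nonempty → ∀ u ∈ U,
          ¬ IsSquare (g u * (pd P a).natAbs))) ⊆
      ((Finset.univ : Finset {p : Fin n × Fin n // p.1 < p.2}).biUnion fun p =>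
        (cube n M N).filter fun a => a p.1.1 = a p.1.2) ∪
      ((Pw ×ˢ U).biUnion fun z => (cube n M N).filter fun a => Function.Injective a ∧
        IsSquare (g z.2 * (pd z.1 a).natAbs)) := by
    intro a ha
    rw [Finset.mem_filter] at ha
    obtain ⟨hac, hbad⟩ := ha
    rw [Finset.mem_union, Finset.mem_biUnion, Finset.mem_biUnion]
    by_cases hinj : Function.Injective a
    · right
      rw [not_and] at hbad
      have h1 := hbad hinj
      push Not at h1
      obtain ⟨P, hP, u, hu, hsq⟩ := h1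
      refine ⟨(P, u), ?_, ?_⟩
      · rw [Finset.mem_product, hPw, Finset.mem_filter]
        exact ⟨⟨Finset.mem_univ _, hP⟩, hu⟩
      · rw [Finset.mem_filter]
        exact ⟨hac, hinj, hsq⟩
    · left
      rw [Function.not_injective_iff] at hinj
      obtain ⟨i, j, hij, hne⟩ := hinj
      rcases lt_or_gt_of_ne hne with h1 | h1
      · exact ⟨⟨(i, j), h1⟩, Finset.mem_univ _, Finset.mem_filter.2 ⟨hac, hij⟩⟩
      · exact ⟨⟨(j, i), h1⟩, Finset.mem_univ _, Finset.mem_filter.2 ⟨hac, hij.symm⟩⟩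
  have hcardP : Fintype.card {p : Fin n × Fin n // p.1 < p.2} ≤ n ^ 2 := by
    have h6 : Fintype.card {p : Fin n × Fin n // p.1 < p.2} ≤ Fintype.card (Fin n × Fin n) :=
      Fintype.card_subtype_le _
    rwa [Fintype.card_prod, Fintype.card_fin, ← sq] at h6
  have hA : ((((Finset.univ : Finset {p : Fin n × Fin n // p.1 < p.2}).biUnion fun p =>
        (cube n M N).filter fun a => a p.1.1 = a p.1.2)).card : ℝ) ≤ (n : ℝ) ^ 2 * Q := by
    have h1 : (((Finset.univ : Finset {p : Fin n × Fin n // p.1 < p.2}).biUnion fun p =>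
        (cube n M N).filter fun a => a p.1.1 = a p.1.2)).card ≤ n ^ 2 * N ^ (n - 1) := by
      refine Finset.card_biUnion_le.trans ?_
      refine (Finset.sum_le_sum fun p _ => card_eq_coord M N p.2.ne).trans ?_
      rw [Finset.sum_const, smul_eq_mul, Finset.card_univ]
      exact Nat.mul_le_mul_right _ hcardP
    calc _ ≤ ((n ^ 2 * N ^ (n - 1) : ℕ) : ℝ) := by exact_mod_cast h1
      _ = (n : ℝ) ^ 2 * (N : ℝ) ^ (n - 1) := by push_cast; ring
      _ ≤ _ := mul_le_mul_of_nonneg_left hQ1 (by positivity)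
  have hB : ((((Pw ×ˢ U).biUnion fun z => (cube n M N).filter fun a => Function.Injective a ∧
        IsSquare (g z.2 * (pd z.1 a).natAbs))).card : ℝ) ≤
      2 ^ (n ^ 2) * (2 * C) * (∑ u ∈ U, ((g u).divisors.card : ℝ)) * Q := by
    have h1 : ((((Pw ×ˢ U).biUnion fun z => (cube n M N).filter fun a => Function.Injective a ∧
        IsSquare (g z.2 * (pd z.1 a).natAbs))).card : ℝ) ≤
        ∑ z ∈ Pw ×ˢ U, (2 * C) * ((g z.2).divisors.card : ℝ) * Q := by
      have h0 : (((Pw ×ˢ U).biUnion fun z => (cube n M N).filter fun a => Function.Injective a ∧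
        IsSquare (g z.2 * (pd z.1 a).natAbs))).card ≤ ∑ z ∈ Pw ×ˢ U,
          ((cube n M N).filter fun a => Function.Injective a ∧
            IsSquare (g z.2 * (pd z.1 a).natAbs)).card := Finset.card_biUnion_le
      refine le_trans (Nat.cast_le.2 h0) ?_
      rw [Nat.cast_sum]
      refine Finset.sum_le_sum fun z hz => ?_
      rw [Finset.mem_product, hPw, Finset.mem_filter] at hz
      refine (card_square hC hδ hdiv hz.1.2 (hU _ hz.2) M hN).trans ?_
      calc (N : ℝ) ^ (n - 1) * (2 * ((g z.2).divisors.card * (C * ((N : ℝ) ^ (n ^ 2)) ^ δ) * Nat.sqrt N))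
          = (2 * C) * ((g z.2).divisors.card : ℝ) *
            ((N : ℝ) ^ (n - 1) * (((N : ℝ) ^ (n ^ 2)) ^ δ * Nat.sqrt N)) := by ring
        _ ≤ _ := mul_le_mul_of_nonneg_left hQ2 (by positivity)
    refine h1.trans ?_
    have hQ0 : 0 ≤ Q := le_trans (by positivity) hQ1
    have h2 : ∑ z ∈ Pw ×ˢ U, (2 * C) * ((g z.2).divisors.card : ℝ) * Q =
        (Pw.card : ℝ) * ((2 * C) * (∑ u ∈ U, ((g u).divisors.card : ℝ)) * Q) := by
      rw [Finset.sum_product]
      have h3 : ∀ x ∈ Pw, ∑ y ∈ U, (2 * C) * ((g ((x, y) : _ × κ).2).divisors.card : ℝ) * Q =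
          (2 * C) * (∑ u ∈ U, ((g u).divisors.card : ℝ)) * Q := by
        intro x _
        rw [Finset.mul_sum, Finset.sum_mul]
      rw [Finset.sum_congr rfl h3, Finset.sum_const, nsmul_eq_mul]
    rw [h2]
    have h3 : (Pw.card : ℝ) ≤ 2 ^ (n ^ 2) := by
      have h4 : Pw.card ≤ 2 ^ (n ^ 2) := by
        calc Pw.card ≤ Fintype.card (Finset {p : Fin n × Fin n // p.1 < p.2}) :=
              Finset.card_le_univ _
          _ = 2 ^ Fintype.card {p : Fin n × Fin n // p.1 < p.2} := Fintype.card_finset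
          _ ≤ 2 ^ (n ^ 2) := Nat.pow_le_pow_right two_pos hcardP
      exact_mod_cast h4
    have h5 : 0 ≤ ∑ u ∈ U, ((g u).divisors.card : ℝ) := Finset.sum_nonneg fun _ _ => Nat.cast_nonneg _
    calc (Pw.card : ℝ) * ((2 * C) * (∑ u ∈ U, ((g u).divisors.card : ℝ)) * Q)
        ≤ 2 ^ (n ^ 2) * ((2 * C) * (∑ u ∈ U, ((g u).divisors.card : ℝ)) * Q) :=
          mul_le_mul_of_nonneg_right h3 (by positivity)
      _ = _ := by ring
  have h5 : 0 ≤ ∑ u ∈ U, ((g u).divisors.card : ℝ) := Finset.sum_nonneg fun _ _ => Nat.cast_nonneg _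
  have hQ0 : 0 ≤ Q := le_trans (by positivity) hQ1
  rw [← hQ]
  calc _ ≤ ((((Finset.univ : Finset {p : Fin n × Fin n // p.1 < p.2}).biUnion fun p =>
        (cube n M N).filter fun a => a p.1.1 = a p.1.2)).card : ℝ) +
        ((((Pw ×ˢ U).biUnion fun z => (cube n M N).filter fun a => Function.Injective a ∧
        IsSquare (g z.2 * (pd z.1 a).natAbs))).card : ℝ) := by
        exact_mod_cast (Finset.card_le_card hsub).trans (Finset.card_union_le _ _)
    _ ≤ (n : ℝ) ^ 2 * Q + 2 ^ (n ^ 2) * (2 * C) * (∑ u ∈ U, ((g u).divisors.card : ℝ)) * Q :=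
        add_le_add hA hB
    _ ≤ _ := by
        have h6 : 0 ≤ (n : ℝ) ^ 2 * (∑ u ∈ U, ((g u).divisors.card : ℝ)) * Q := by positivity
        have h7 : 0 ≤ 2 ^ (n ^ 2) * (2 * C) * Q := by positivity
        nlinarith

end tuples

end Run7.h870.TE
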